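import Mathlib

set_option autoImplicit false

/-!
# Project HGR, module Abs1: generators of `Z/B` (paper tg_h51.md, L1)

`M := Z.map f` is a submodule of `I → ℤ`; its Smith basis has at most `card I` elements. For
preimages `z_k ∈ Z` of the basis elements and `x ∈ Z`, `f x = ∑ c_k f z_k`, so
`x - ∑ c_k z_k ∈ Z` is killed by `f` and lies in `B`. So the classes of the `z_k` span `Z/B`.
-/

open scoped BigOperators

namespace Pool.Agent.HGR

theorem gen_le {X I : Type} [Fintype X] [Fintype I] (Z B : Submodule ℤ (X → ℤ))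
    (f : (X → ℤ) →ₗ[ℤ] (I → ℤ)) (h : ∀ x ∈ Z, f x = 0 → x ∈ B) :
    ∃ s : Finset (Z ⧸ B.submoduleOf Z), s.card ≤ Fintype.card I ∧
      Submodule.span ℤ (s : Set (Z ⧸ B.submoduleOf Z)) = ⊤ := by
  classical
  obtain ⟨n, snf⟩ := Submodule.smithNormalForm (Pi.basisFun ℤ I) (Z.map f)
  have hn : n ≤ Fintype.card I := by
    simpa using Fintype.card_le_of_embedding snf.f
  have hz0 : ∀ k : Fin n, ∃ z ∈ Z, f z = (snf.bN k : I → ℤ) := fun k =>
    Submodule.mem_map.1 (snf.bN k).2
  choose z hz hfz using hz0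
  refine ⟨Finset.univ.image (fun k : Fin n =>
    (Submodule.Quotient.mk (⟨z k, hz k⟩ : Z) : Z ⧸ B.submoduleOf Z)), ?_, ?_⟩
  · refine le_trans Finset.card_image_le ?_
    simpa using hn
  · rw [eq_top_iff]
    rintro q -
    obtain ⟨x, rfl⟩ := Submodule.Quotient.mk_surjective _ q
    set y : Z.map f := ⟨f x, Submodule.mem_map_of_mem x.2⟩ with hy
    have hsum := snf.bN.sum_repr y
    have hkey : (Submodule.Quotient.mk x : Z ⧸ B.submoduleOf Z)
        = ∑ k, snf.bN.repr y k • (Submodule.Quotient.mk (⟨z k, hz k⟩ : Z) : Z ⧸ B.submoduleOf Z) := by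
      have e1 : (∑ k, snf.bN.repr y k •
          (Submodule.Quotient.mk (⟨z k, hz k⟩ : Z) : Z ⧸ B.submoduleOf Z))
          = Submodule.Quotient.mk (∑ k, snf.bN.repr y k • (⟨z k, hz k⟩ : Z)) := by
        rw [← Submodule.mkQ_apply, map_sum]
        simp only [map_zsmul, Submodule.mkQ_apply]
      rw [e1]
      refine (Submodule.Quotient.eq _).2 ?_
      change (((x - ∑ k, snf.bN.repr y k • (⟨z k, hz k⟩ : Z) : Z)) : X → ℤ) ∈ B
      apply h
      · exact (x - ∑ k, snf.bN.repr y k • (⟨z k, hz k⟩ : Z)).2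
      · have e2 : ((x - ∑ k, snf.bN.repr y k • (⟨z k, hz k⟩ : Z) : Z) : X → ℤ)
            = (x : X → ℤ) - ∑ k, snf.bN.repr y k • z k := by
          push_cast
          simp
        rw [e2, map_sub, map_sum]
        have e3 : ((∑ k, snf.bN.repr y k • snf.bN k : Z.map f) : I → ℤ) = f x := by
          rw [hsum]
        have e4 : ((∑ k, snf.bN.repr y k • snf.bN k : Z.map f) : I → ℤ)
            = ∑ k, snf.bN.repr y k • (snf.bN k : I → ℤ) := by
          push_cast
          simp
        rw [← e3, e4, sub_eq_zero]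
        refine Finset.sum_congr rfl fun k _ => ?_
        rw [map_zsmul, hfz]
    rw [hkey]
    refine Submodule.sum_mem _ fun k _ => Submodule.smul_mem _ _ (Submodule.subset_span ?_)
    rw [Finset.coe_image]
    exact ⟨k, by simp, rfl⟩

end Pool.Agent.HGR
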