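import Mathlib

set_option autoImplicit false

/-!
# Project HGR, module Abs2: the torsion of `Z/B` embeds (paper tg_h51.md, L2, first part)

PLAN. `tors_finite`: `Z` is a noetherian `ℤ`-module (submodule of `X → ℤ`), so the torsion submodule
is a finitely generated torsion module; `Module.finite_of_fg_torsion`.
`tors_le`: the map `Z/B → (I → ℤ)/f(B)` induced by `f` (`Submodule.mapQ`) is injective on `Z/B`:
if `f x = f b` with `b ∈ B ≤ Z` then `x - b ∈ Z` is killed by `f`, so `x - b ∈ B`, `x ∈ B`. It maps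
torsion to torsion; `Nat.card_le_card_of_injective` (the target is finite by the first lemma applied to
`Z = ⊤`, or directly).
`tors_sub`: if `Z` is saturated (`k • x ∈ Z`, `k ≠ 0` implies `x ∈ Z`) and `B ≤ Z` then the torsion
subgroups of `Z/B` and of `(X → ℤ)/B` have the same number of elements (bijection induced by the
inclusion: if `k • x ∈ B`, `k ≠ 0`, then `x ∈ Z`).
-/

open scoped BigOperators

namespace Pool.Agent.HGR

private theorem abs2_fin {M : Type} [AddCommGroup M] [Module ℤ M] [Module.Finite ℤ M] :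
    Finite (Submodule.torsion ℤ M) := by
  have h0 : IsNoetherian ℤ M := inferInstance
  have h1 : (Submodule.torsion ℤ M).FG := IsNoetherian.noetherian _
  have h2 := Module.Finite.iff_fg.2 h1
  exact @Module.finite_of_fg_torsion _ _ (Submodule.module _) h2 Submodule.torsion_isTorsion

/-- a linear map sends the torsion to the torsion. -/
private theorem abs2_map {R M N : Type} [CommRing R] [IsDomain R] [AddCommGroup M]
    [AddCommGroup N] [Module R M] [Module R N]
    (g : M →ₗ[R] N) (x : M) (hx : x ∈ Submodule.torsion R M) : g x ∈ Submodule.torsion R N := by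
  rw [Submodule.mem_torsion_iff] at hx ⊢
  obtain ⟨a, ha⟩ := hx
  refine ⟨a, ?_⟩
  rw [Submonoid.smul_def] at ha ⊢
  rw [← map_smul, ha, map_zero]

private theorem abs2_card_le {M N : Type} [AddCommGroup M] [AddCommGroup N] [Module ℤ M] [Module ℤ N]
    [Module.Finite ℤ N] (g : M →ₗ[ℤ] N) (hg : Function.Injective g) :
    Nat.card (Submodule.torsion ℤ M) ≤ Nat.card (Submodule.torsion ℤ N) := by
  have : Finite (Submodule.torsion ℤ N) := abs2_fin
  refine Nat.card_le_card_of_injective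
    (fun x : Submodule.torsion ℤ M => (⟨g x.1, abs2_map g x.1 x.2⟩ : Submodule.torsion ℤ N)) ?_
  intro x y hxy
  apply Subtype.ext
  apply hg
  exact congrArg Subtype.val hxy

theorem tors_finite {X : Type} [Fintype X] (Z B : Submodule ℤ (X → ℤ)) :
    Finite (Submodule.torsion ℤ (Z ⧸ B.submoduleOf Z)) := by
  have : IsNoetherian ℤ (X → ℤ) := inferInstance
  have : Module.Finite ℤ Z := inferInstance
  exact abs2_fin

theorem tors_finite' {X : Type} [Fintype X] (B : Submodule ℤ (X → ℤ)) :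
    Finite (Submodule.torsion ℤ ((X → ℤ) ⧸ B)) := by
  exact abs2_fin

theorem tors_le {X I : Type} [Fintype X] [Fintype I] (Z B : Submodule ℤ (X → ℤ)) (hBZ : B ≤ Z)
    (f : (X → ℤ) →ₗ[ℤ] (I → ℤ)) (h : ∀ x ∈ Z, f x = 0 → x ∈ B) :
    Nat.card (Submodule.torsion ℤ (Z ⧸ B.submoduleOf Z)) ≤
      Nat.card (Submodule.torsion ℤ ((I → ℤ) ⧸ B.map f)) := by
  have hle : B.submoduleOf Z ≤ (B.map f).comap (f.comp Z.subtype) := by
    intro x hx
    rw [Submodule.mem_comap]
    exact Submodule.mem_map_of_mem (f := f) hx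
  refine abs2_card_le (Submodule.mapQ (B.submoduleOf Z) (B.map f) (f.comp Z.subtype) hle) ?_
  rw [← LinearMap.ker_eq_bot, eq_bot_iff]
  intro q hq
  obtain ⟨x, rfl⟩ := Submodule.Quotient.mk_surjective _ q
  rw [LinearMap.mem_ker, Submodule.mapQ_apply, Submodule.Quotient.mk_eq_zero] at hq
  obtain ⟨b, hb, hfb⟩ := hq
  have h1 : f ((x : X → ℤ) - b) = 0 := by
    rw [map_sub, sub_eq_zero]
    exact hfb.symm
  have h2 : (x : X → ℤ) - b ∈ B := h _ (Z.sub_mem x.2 (hBZ hb)) h1
  have h3 : (x : X → ℤ) ∈ B := by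
    have := B.add_mem h2 hb
    rwa [sub_add_cancel] at this
  rw [Submodule.mem_bot, Submodule.Quotient.mk_eq_zero]
  exact h3

theorem tors_sub {X : Type} [Fintype X] (Z B : Submodule ℤ (X → ℤ)) (hBZ : B ≤ Z)
    (hZ : ∀ (k : ℤ) (x : X → ℤ), k ≠ 0 → k • x ∈ Z → x ∈ Z) :
    Nat.card (Submodule.torsion ℤ (Z ⧸ B.submoduleOf Z)) =
      Nat.card (Submodule.torsion ℤ ((X → ℤ) ⧸ B)) := by
  have hle : B.submoduleOf Z ≤ B.comap Z.subtype := le_refl _
  have hinj : Function.Injective (Submodule.mapQ (B.submoduleOf Z) B Z.subtype hle) := by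
    rw [← LinearMap.ker_eq_bot, eq_bot_iff]
    intro q hq
    obtain ⟨x, rfl⟩ := Submodule.Quotient.mk_surjective _ q
    rw [LinearMap.mem_ker, Submodule.mapQ_apply, Submodule.Quotient.mk_eq_zero] at hq
    rw [Submodule.mem_bot, Submodule.Quotient.mk_eq_zero]
    exact hq
  refine Nat.card_congr (Equiv.ofBijective
    (fun x : Submodule.torsion ℤ (Z ⧸ B.submoduleOf Z) =>
      (⟨Submodule.mapQ (B.submoduleOf Z) B Z.subtype hle x.1, abs2_map _ x.1 x.2⟩ :
        Submodule.torsion ℤ ((X → ℤ) ⧸ B))) ⟨?_, ?_⟩)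
  · intro x y hxy
    apply Subtype.ext
    apply hinj
    exact congrArg Subtype.val hxy
  · rintro ⟨q, hq⟩
    obtain ⟨x, rfl⟩ := Submodule.Quotient.mk_surjective _ q
    rw [Submodule.mem_torsion_iff] at hq
    obtain ⟨a, ha⟩ := hq
    have ha0 : (a : ℤ) ≠ 0 := nonZeroDivisors.coe_ne_zero a
    have h1 : (a : ℤ) • x ∈ B := by
      have h2 : (a : ℤ) • (Submodule.Quotient.mk x : (X → ℤ) ⧸ B) = 0 := ha
      rwa [← Submodule.Quotient.mk_smul, Submodule.Quotient.mk_eq_zero] at h2
    have hxZ : x ∈ Z := hZ a x ha0 (hBZ h1)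
    refine ⟨⟨Submodule.Quotient.mk ⟨x, hxZ⟩, ?_⟩, ?_⟩
    · rw [Submodule.mem_torsion_iff]
      refine ⟨a, ?_⟩
      show (a : ℤ) • (Submodule.Quotient.mk (⟨x, hxZ⟩ : Z) : Z ⧸ B.submoduleOf Z) = 0
      rw [← Submodule.Quotient.mk_smul, Submodule.Quotient.mk_eq_zero]
      exact h1
    · apply Subtype.ext
      rfl

end Pool.Agent.HGR
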