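import Mathlib

set_option autoImplicit false

/-!
# Project HGR, module Abs3: a maximal nonsingular minor (paper tg_h51.md, L2)

PLAN. Over `ℚ`: let `A := P.map (Int.cast : ℤ → ℚ)`. Choose a maximal linearly independent family of
rows `A (i 0), .., A (i (r-1))` (`exists_linearIndependent`, or `Module.Basis.ofSpan..`,
`exists_linearIndependent'`), `i` injective; all rows of `A` lie in their span. The matrix
`A.submatrix i id` has rank `r`, so among its columns there are `r` linearly independent ones,
`j : Fin r → Y` injective (the same argument for the transposed matrix: maximal independent family of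
columns; its size is the rank `= r`: `Matrix.rank_eq_finrank_span_cols`, `LinearIndependent.rank_matrix`).
Then `det (A.submatrix i j) ≠ 0` (linearly independent columns), so `det (P.submatrix i j) ≠ 0`
(`Int.cast_det` / `RingHom.map_det`). Last statement: if `(P y) (i a) = 0` for all `a` then
`(A y) (i a) = 0`, and every other row is a combination of these rows, so `A y = 0`, `P y = 0`.
-/

open scoped BigOperators

namespace Pool.Agent.HGR

theorem exists_minor {I Y : Type} [Fintype I] [DecidableEq I] [Fintype Y] [DecidableEq Y]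
    (P : Matrix I Y ℤ) :
    ∃ (r : ℕ) (i : Fin r → I) (j : Fin r → Y), Function.Injective i ∧ Function.Injective j ∧
      (P.submatrix i j).det ≠ 0 ∧
      ∀ y : Y → ℤ, (∀ a, P.mulVec y (i a) = 0) → P.mulVec y = 0 := by
  classical
  obtain ⟨A, hA⟩ : ∃ A : Matrix I Y ℚ, A = P.map (Int.castRingHom ℚ) := ⟨_, rfl⟩
  obtain ⟨κ, a, ha, hspan, hli⟩ := exists_linearIndependent' ℚ (fun k : I => A k)
  have : Finite κ := Finite.of_injective a ha
  have : Fintype κ := Fintype.ofFinite κ
  obtain ⟨e⟩ : Nonempty (Fin (Fintype.card κ) ≃ κ) := ⟨(Fintype.equivFin κ).symm⟩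
  obtain ⟨r, hr⟩ : ∃ r, r = Fintype.card κ := ⟨_, rfl⟩
  rw [← hr] at e
  have hi : Function.Injective (a ∘ e) := ha.comp e.injective
  have hli' : LinearIndependent ℚ (fun x : Fin r => A ((a ∘ e) x)) := by
    have := hli.comp e e.injective
    exact this
  have hspan' : Submodule.span ℚ (Set.range fun x : Fin r => A ((a ∘ e) x)) =
      Submodule.span ℚ (Set.range fun k : I => A k) := by
    rw [← hspan]
    congr 1
    ext w
    constructor
    · rintro ⟨x, rfl⟩
      exact ⟨e x, rfl⟩
    · rintro ⟨x, rfl⟩
      exact ⟨e.symm x, by simp⟩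
  generalize (a ∘ e) = i at hi hli' hspan'
  obtain ⟨B, hB⟩ : ∃ B : Matrix (Fin r) Y ℚ, B = A.submatrix i id := ⟨_, rfl⟩
  have hBrow : LinearIndependent ℚ B.row := by
    rw [hB]
    exact hli'
  have hrank : B.rank = r := by
    rw [hBrow.rank_matrix, Fintype.card_fin]
  obtain ⟨κ', b, hb, hspanb, hlib⟩ := exists_linearIndependent' ℚ B.col
  have : Finite κ' := Finite.of_injective b hb
  have : Fintype κ' := Fintype.ofFinite κ'
  have hcard : Fintype.card κ' = r := by
    rw [← finrank_span_eq_card hlib, hspanb, ← Matrix.rank_eq_finrank_span_cols, hrank]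
  obtain ⟨e'⟩ : Nonempty (Fin r ≃ κ') := by
    rw [← hcard]
    exact ⟨(Fintype.equivFin κ').symm⟩
  have hj : Function.Injective (b ∘ e') := hb.comp e'.injective
  have hlij : LinearIndependent ℚ (fun x : Fin r => B.col ((b ∘ e') x)) := by
    have := hlib.comp e' e'.injective
    exact this
  generalize (b ∘ e') = j at hj hlij
  refine ⟨r, i, j, hi, hj, ?_, ?_⟩
  · intro h0
    have h1 : LinearIndependent ℚ (A.submatrix i j).col := by
      have h2 : (A.submatrix i j).col = fun x : Fin r => B.col (j x) := by
        funext x y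
        rw [hB]
        rfl
      rw [h2]
      exact hlij
    have h3 := Matrix.linearIndependent_cols_iff_isUnit.1 h1
    have h4 := (Matrix.isUnit_iff_isUnit_det _).1 h3
    have h5 : (A.submatrix i j).det = ((P.submatrix i j).det : ℚ) := by
      have h6 : A.submatrix i j = (Int.castRingHom ℚ).mapMatrix (P.submatrix i j) := by
        rw [hA]
        rfl
      rw [h6, ← RingHom.map_det]
      rfl
    rw [h5, h0, Int.cast_zero] at h4
    exact not_isUnit_zero h4
  · intro y hy
    obtain ⟨φ, hφ⟩ : ∃ φ : (Y → ℚ) →ₗ[ℚ] ℚ, ∀ w, φ w = ∑ x, w x * (y x : ℚ) := by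
      refine ⟨∑ x, (y x : ℚ) • (LinearMap.proj x : (Y → ℚ) →ₗ[ℚ] ℚ), fun w => ?_⟩
      rw [LinearMap.sum_apply]
      refine Finset.sum_congr rfl fun x _ => ?_
      rw [LinearMap.smul_apply, LinearMap.proj_apply, smul_eq_mul, mul_comm]
    have hφA : ∀ k, φ (A k) = ((P.mulVec y k : ℤ) : ℚ) := by
      intro k
      rw [hφ, hA]
      simp only [Matrix.mulVec, dotProduct, Int.cast_sum, Int.cast_mul]
      rfl
    have h1 : Submodule.span ℚ (Set.range fun x : Fin r => A (i x)) ≤ LinearMap.ker φ := by
      rw [Submodule.span_le]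
      rintro _ ⟨x, rfl⟩
      show φ (A (i x)) = 0
      rw [hφA, hy x, Int.cast_zero]
    rw [hspan'] at h1
    funext k
    have h2 : A k ∈ LinearMap.ker φ := h1 (Submodule.subset_span ⟨k, rfl⟩)
    rw [LinearMap.mem_ker, hφA] at h2
    exact_mod_cast h2

end Pool.Agent.HGR
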