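import Mathlib

set_option autoImplicit false

/-!
# Project HGR, module Abs4: torsion of a cokernel is at most a maximal minor (tg_h51.md, L2)

The torsion of `(I → ℤ)/range P` embeds in the quotient of `Fin r → ℤ` by the projection of `range P`, which is a quotient of
`(Fin r → ℤ)/range Q`, `Q = P.submatrix i j`, a group with `|det Q|` elements.
-/

open scoped BigOperators

namespace Pool.Agent.HGR

theorem card_quot_det {r : ℕ} (Q : Matrix (Fin r) (Fin r) ℤ) (hQ : Q.det ≠ 0) :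
    Finite ((Fin r → ℤ) ⧸ LinearMap.range Q.mulVecLin) ∧
      Nat.card ((Fin r → ℤ) ⧸ LinearMap.range Q.mulVecLin) = Q.det.natAbs := by
  have hinj : Function.Injective Q.mulVecLin := by
    rw [injective_iff_map_eq_zero]
    intro v hv
    rw [Matrix.mulVecLin_apply] at hv
    exact Matrix.eq_zero_of_mulVec_eq_zero hQ hv
  have h1 := Submodule.natAbs_det_equiv (LinearMap.range Q.mulVecLin) (LinearEquiv.ofInjective Q.mulVecLin hinj)
  have h2 : (LinearMap.range Q.mulVecLin).subtype ∘ₗ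
      AddMonoidHom.toIntLinearMap ((LinearEquiv.ofInjective Q.mulVecLin hinj : (Fin r → ℤ) ≃ₗ[ℤ] _) :
        (Fin r → ℤ) →+ LinearMap.range Q.mulVecLin) = Matrix.toLin' Q := by
    apply LinearMap.ext
    intro v
    rfl
  rw [h2, LinearMap.det_toLin'] at h1
  refine ⟨?_, h1.symm⟩
  apply Nat.finite_of_card_ne_zero
  rw [← h1]
  exact Int.natAbs_ne_zero.2 hQ

theorem card_tors_le {I Y : Type} [Fintype I] [DecidableEq I] [Fintype Y] [DecidableEq Y]
    (P : Matrix I Y ℤ) {r : ℕ} (i : Fin r → I) (j : Fin r → Y)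
    (hdet : (P.submatrix i j).det ≠ 0)
    (hinj : ∀ y : Y → ℤ, (∀ a, P.mulVec y (i a) = 0) → P.mulVec y = 0) :
    Nat.card (Submodule.torsion ℤ ((I → ℤ) ⧸ LinearMap.range P.mulVecLin)) ≤
      (P.submatrix i j).det.natAbs := by
  obtain ⟨Q, hQ⟩ : ∃ Q, Q = P.submatrix i j := ⟨_, rfl⟩
  rw [← hQ] at hdet ⊢
  obtain ⟨L, hL⟩ : ∃ L, L = LinearMap.range P.mulVecLin := ⟨_, rfl⟩
  rw [← hL]
  obtain ⟨f, hf⟩ : ∃ f : (I → ℤ) →ₗ[ℤ] (Fin r → ℤ), f = LinearMap.funLeft ℤ ℤ i := ⟨_, rfl⟩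
  have hfa : ∀ x a, f x a = x (i a) := fun x a => by
    rw [hf, LinearMap.funLeft_apply]
  have hN : LinearMap.range Q.mulVecLin ≤ L.map f := by
    rintro x ⟨v, rfl⟩
    refine ⟨P.mulVec (∑ b, v b • (Pi.single (j b) 1 : Y → ℤ)), ?_, ?_⟩
    · rw [hL]
      exact ⟨_, rfl⟩
    · funext a
      rw [hfa, Matrix.mulVecLin_apply, hQ]
      rw [Matrix.mulVec_sum, Finset.sum_apply]
      refine Finset.sum_congr rfl fun b _ => ?_
      rw [Matrix.mulVec_smul, Pi.smul_apply, Matrix.mulVec_single_one, smul_eq_mul, Matrix.col_apply]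
      exact mul_comm _ _
  obtain ⟨hfin, hcard⟩ := card_quot_det Q hdet
  have hsurj := Submodule.factor_surjective hN
  have : Finite ((Fin r → ℤ) ⧸ L.map f) := Finite.of_surjective _ hsurj
  obtain ⟨g, hg⟩ : ∃ g : ((I → ℤ) ⧸ L) →ₗ[ℤ] ((Fin r → ℤ) ⧸ L.map f),
    g = L.mapQ (L.map f) f (Submodule.le_comap_map f L) := ⟨_, rfl⟩
  have hginj : Function.Injective (fun x : Submodule.torsion ℤ ((I → ℤ) ⧸ L) => g x.1) := by
    have key : ∀ x : (I → ℤ) ⧸ L, x ∈ Submodule.torsion ℤ ((I → ℤ) ⧸ L) → g x = 0 → x = 0 := by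
      intro x hx hx0
      obtain ⟨⟨k, hk0⟩, hk⟩ := (Submodule.mem_torsion_iff _).1 hx
      have hk1 : k ≠ 0 := nonZeroDivisors.ne_zero hk0
      obtain ⟨w, rfl⟩ := Submodule.mkQ_surjective L x
      rw [hg, Submodule.mkQ_apply, Submodule.mapQ_apply, Submodule.Quotient.mk_eq_zero] at hx0
      obtain ⟨u, hu, huw⟩ := hx0
      have hk2 : k • w ∈ L := by
        rw [← Submodule.Quotient.mk_eq_zero]
        exact hk
      have hk3 : k • (w - u) ∈ L := by
        rw [smul_sub]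
        exact L.sub_mem hk2 (L.smul_mem k hu)
      rw [hL] at hk3
      obtain ⟨y, hy⟩ := hk3
      rw [Matrix.mulVecLin_apply] at hy
      have h3 : ∀ a, P.mulVec y (i a) = 0 := by
        intro a
        have h4 : f w a = f u a := by rw [huw]
        rw [hfa, hfa] at h4
        rw [hy, Pi.smul_apply, Pi.sub_apply, h4, sub_self, smul_zero]
      rw [hinj y h3] at hy
      have h5 : w - u = 0 := by
        rcases smul_eq_zero.1 hy.symm with h | h
        · exact absurd h hk1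
        · exact h
      rw [Submodule.mkQ_apply, Submodule.Quotient.mk_eq_zero, sub_eq_zero.1 h5]
      exact hu
    intro x y hxy
    have hxy' : g x.1 = g y.1 := hxy
    have h1 : x.1 - y.1 = 0 := by
      refine key _ (Submodule.sub_mem _ x.2 y.2) ?_
      rw [map_sub, hxy', sub_self]
    exact Subtype.ext (sub_eq_zero.1 h1)
  calc Nat.card (Submodule.torsion ℤ ((I → ℤ) ⧸ L)) ≤ Nat.card ((Fin r → ℤ) ⧸ L.map f) :=
        Nat.card_le_card_of_injective _ hginj
    _ ≤ Nat.card ((Fin r → ℤ) ⧸ LinearMap.range Q.mulVecLin) := Nat.card_le_card_of_surjective _ hsurj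
    _ = Q.det.natAbs := hcard

end Pool.Agent.HGR
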