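import Mathlib

set_option autoImplicit false

/-!
# Project HGR, module Abs5: determinants and row sums (tg_h51.md, L2)

PLAN. `abs_det_le`: `|det Q| ≤ ∑_σ ∏_a |Q a (σ a)| ≤ ∑_{f : Fin r → Fin r} ∏_a |Q a (f a)| =
∏_a ∑_b |Q a b|` (`Matrix.det_apply`/`det_transpose`, `Finset.prod_univ_sum`, `Fintype.piFinset_univ`,
permutations inject into functions). `det_le_prod`: `∑_b |P (i a) (j b)| ≤ ∑_y |P (i a) y|` (`j` injective)
and the product over `Fin r` of the row sums (each `≤ max 1 _`) is at most the product over `I` of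
`max 1 _` (`i` injective, all factors `≥ 1`: `Finset.prod_le_prod_of_subset_of_one_le'` or similar).
-/

open scoped BigOperators

namespace Pool.Agent.HGR

theorem abs_det_le {r : ℕ} (Q : Matrix (Fin r) (Fin r) ℤ) : |Q.det| ≤ ∏ a, ∑ b, |Q a b| := by
  have h1 : |Q.det| ≤ ∑ σ : Equiv.Perm (Fin r), ∏ a, |Q a (σ a)| := by
    rw [← Matrix.det_transpose, Matrix.det_apply]
    refine (Finset.abs_sum_le_sum_abs _ _).trans (Finset.sum_le_sum fun σ _ => ?_)
    rw [Units.smul_def, smul_eq_mul, abs_mul, Finset.abs_prod]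
    have h2 : |((Equiv.Perm.sign σ : ℤˣ) : ℤ)| = 1 := by
      rcases Int.units_eq_one_or (Equiv.Perm.sign σ) with h | h <;> rw [h] <;> simp
    rw [h2, one_mul]
    rfl
  have h3 : ∏ a, ∑ b, |Q a b| = ∑ f : Fin r → Fin r, ∏ a, |Q a (f a)| := by
    rw [Finset.prod_univ_sum, Fintype.piFinset_univ]
  rw [h3]
  refine h1.trans ?_
  have h4 : ∑ σ : Equiv.Perm (Fin r), ∏ a, |Q a (σ a)| =
      ∑ f ∈ (Finset.univ : Finset (Equiv.Perm (Fin r))).map
        ⟨fun (σ : Equiv.Perm (Fin r)) => (σ : Fin r → Fin r), DFunLike.coe_injective⟩,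
          ∏ a, |Q a (f a)| := by
    rw [Finset.sum_map]
    rfl
  rw [h4]
  exact Finset.sum_le_sum_of_subset_of_nonneg (Finset.subset_univ _)
    fun f _ _ => Finset.prod_nonneg fun a _ => abs_nonneg _

theorem det_le_prod {I Y : Type} [Fintype I] [DecidableEq I] [Fintype Y] [DecidableEq Y]
    (P : Matrix I Y ℤ) {r : ℕ} (i : Fin r → I) (j : Fin r → Y) (hi : Function.Injective i)
    (hj : Function.Injective j) :
    |(P.submatrix i j).det| ≤ ∏ a, max 1 (∑ y, |P a y|) := by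
  refine (abs_det_le _).trans ?_
  have h1 : ∏ a, ∑ b, |(P.submatrix i j) a b| ≤ ∏ a : Fin r, max 1 (∑ y, |P (i a) y|) := by
    refine Finset.prod_le_prod (fun a _ => Finset.sum_nonneg fun b _ => abs_nonneg _)
      fun a _ => le_trans ?_ (le_max_right _ _)
    have h2 : ∑ b, |(P.submatrix i j) a b| = ∑ y ∈ (Finset.univ : Finset (Fin r)).map ⟨j, hj⟩,
        |P (i a) y| := by
      rw [Finset.sum_map]
      rfl
    rw [h2]
    exact Finset.sum_le_sum_of_subset_of_nonneg (Finset.subset_univ _)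
      fun y _ _ => abs_nonneg _
  refine h1.trans ?_
  have h3 : ∏ a : Fin r, max 1 (∑ y, |P (i a) y|) =
      ∏ x ∈ (Finset.univ : Finset (Fin r)).map ⟨i, hi⟩, max 1 (∑ y, |P x y|) := by
    rw [Finset.prod_map]
    rfl
  rw [h3, ← Finset.prod_sdiff (Finset.subset_univ ((Finset.univ : Finset (Fin r)).map ⟨i, hi⟩))]
  have h4 : (1 : ℤ) ≤ ∏ x ∈ Finset.univ \ (Finset.univ : Finset (Fin r)).map ⟨i, hi⟩,
      max 1 (∑ y, |P x y|) := by
    calc (1 : ℤ) = ∏ x ∈ Finset.univ \ (Finset.univ : Finset (Fin r)).map ⟨i, hi⟩, 1 := by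
          rw [Finset.prod_const_one]
      _ ≤ _ := Finset.prod_le_prod (fun x _ => zero_le_one) fun x _ => le_max_left _ _
  have h5 : (0 : ℤ) ≤ ∏ x ∈ (Finset.univ : Finset (Fin r)).map ⟨i, hi⟩,
      max 1 (∑ y, |P x y|) :=
    Finset.prod_nonneg fun x _ => le_trans zero_le_one (le_max_left _ _)
  nlinarith

end Pool.Agent.HGR
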