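import Mathlib
import Pool.Agent.HGR.Abs2
import Pool.Agent.HGR.Abs3
import Pool.Agent.HGR.Abs4
import Pool.Agent.HGR.Abs5

set_option autoImplicit false

/-!
# Project HGR, module Abs6: the bound for the torsion of `Z/B` (tg_h51.md, L2 and L3)

PLAN. `f := Φ.mulVecLin`, `B := range E.vecMulLinear`; `B.map f = range (Φ * Eᵀ).mulVecLin`
(`f (y E) = Φ (Eᵀ y) = (Φ Eᵀ) y`: `Matrix.mulVec_transpose`, `Matrix.mulVec_mulVec`). `tors_le`,
`exists_minor`, `card_tors_le`, `det_le_prod` give `card ≤ ∏_a max 1 (∑_y |(Φ Eᵀ) a y|)`.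
`∑_y |∑_x Φ a x E y x| ≤ ∑_x |Φ a x| ∑_y |E y x| ≤ b ∑_x |Φ a x|`, and `1 ≤ b ∑_x |Φ a x|` since
`Φ a ≠ 0` is an integer vector and `1 ≤ b`. So `log card ≤ ∑_a (log b + log ∑_x |Φ a x|) ≤
(1 + log b) ∑_a (1 + log ∑_x |Φ a x|)`. (`Nat.card` is positive: torsion is finite and nonempty.)
-/

open scoped BigOperators

namespace Pool.Agent.HGR

private lemma Abs6_range {X Y I : Type} [Fintype X] [DecidableEq X] [Fintype Y] [DecidableEq Y]
    [Fintype I] [DecidableEq I] (E : Matrix Y X ℤ) (Φ : Matrix I X ℤ) :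
    (LinearMap.range E.vecMulLinear).map Φ.mulVecLin =
      LinearMap.range (Φ * E.transpose).mulVecLin := by
  rw [← LinearMap.range_comp]
  congr 1
  apply LinearMap.ext
  intro y
  show Φ.mulVec (Matrix.vecMul y E) = (Φ * E.transpose).mulVec y
  rw [← Matrix.mulVec_mulVec, Matrix.mulVec_transpose]

private lemma Abs6_one_le {X I : Type} [Fintype X] (Φ : Matrix I X ℤ) (a : I) (h : Φ a ≠ 0) :
    (1 : ℝ) ≤ ∑ x, |(Φ a x : ℝ)| := by
  obtain ⟨x, hx⟩ := Function.ne_iff.1 h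
  have h1 : (1 : ℝ) ≤ |(Φ a x : ℝ)| := by
    have h2 : (1 : ℤ) ≤ |Φ a x| := Int.one_le_abs hx
    exact_mod_cast h2
  exact h1.trans (Finset.single_le_sum (f := fun x => |(Φ a x : ℝ)|)
    (fun _ _ => abs_nonneg _) (Finset.mem_univ x))

private lemma Abs6_row {X Y I : Type} [Fintype X] [Fintype Y] (E : Matrix Y X ℤ)
    (Φ : Matrix I X ℤ) (b : ℝ) (hE : ∀ x, ∑ y, |(E y x : ℝ)| ≤ b) (a : I) :
    (((∑ y, |(Φ * E.transpose) a y| : ℤ)) : ℝ) ≤ b * ∑ x, |(Φ a x : ℝ)| := by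
  push_cast
  calc ∑ y, |(((Φ * E.transpose) a y : ℤ) : ℝ)|
      ≤ ∑ y, ∑ x, |(Φ a x : ℝ)| * |(E y x : ℝ)| := by
        refine Finset.sum_le_sum fun y _ => ?_
        rw [Matrix.mul_apply]
        push_cast
        refine (Finset.abs_sum_le_sum_abs _ _).trans (le_of_eq ?_)
        refine Finset.sum_congr rfl fun x _ => ?_
        rw [Matrix.transpose_apply, abs_mul]
    _ = ∑ x, |(Φ a x : ℝ)| * ∑ y, |(E y x : ℝ)| := by
        rw [Finset.sum_comm]
        refine Finset.sum_congr rfl fun x _ => ?_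
        rw [Finset.mul_sum]
    _ ≤ ∑ x, |(Φ a x : ℝ)| * b :=
        Finset.sum_le_sum fun x _ => mul_le_mul_of_nonneg_left (hE x) (abs_nonneg _)
    _ = b * ∑ x, |(Φ a x : ℝ)| := by
        rw [← Finset.sum_mul, mul_comm]

theorem log_tors_le {X Y I : Type} [Fintype X] [DecidableEq X] [Fintype Y] [DecidableEq Y]
    [Fintype I] [DecidableEq I] (Z : Submodule ℤ (X → ℤ)) (E : Matrix Y X ℤ)
    (hEZ : LinearMap.range E.vecMulLinear ≤ Z) (Φ : Matrix I X ℤ) (hΦ : ∀ a, Φ a ≠ 0)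
    (h : ∀ x ∈ Z, Φ.mulVec x = 0 → x ∈ LinearMap.range E.vecMulLinear)
    (b : ℝ) (hb : 1 ≤ b) (hE : ∀ x, ∑ y, |(E y x : ℝ)| ≤ b) :
    Real.log (Nat.card (Submodule.torsion ℤ
        (Z ⧸ (LinearMap.range E.vecMulLinear).submoduleOf Z))) ≤
      (1 + Real.log b) * ∑ a, (1 + Real.log (∑ x, |(Φ a x : ℝ)|)) := by
  have h1 := tors_le Z (LinearMap.range E.vecMulLinear) hEZ Φ.mulVecLin fun x hx h0 => h x hx h0
  rw [Abs6_range] at h1
  obtain ⟨r, i, j, hi, hj, hdet, hinj⟩ := exists_minor (Φ * E.transpose)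
  have h2 := card_tors_le (Φ * E.transpose) i j hdet hinj
  have h3 := det_le_prod (Φ * E.transpose) i j hi hj
  have hS : ∀ a, (1 : ℝ) ≤ ∑ x, |(Φ a x : ℝ)| := fun a => Abs6_one_le Φ a (hΦ a)
  have h4 : (Nat.card (Submodule.torsion ℤ
      (Z ⧸ (LinearMap.range E.vecMulLinear).submoduleOf Z)) : ℝ) ≤
      ∏ a, (b * ∑ x, |(Φ a x : ℝ)|) := by
    have h5 : ((((Φ * E.transpose).submatrix i j).det.natAbs : ℤ)) ≤
        ∏ a, max 1 (∑ y, |(Φ * E.transpose) a y|) := by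
      rw [Int.natCast_natAbs]
      exact h3
    have h6 : (Nat.card (Submodule.torsion ℤ
        (Z ⧸ (LinearMap.range E.vecMulLinear).submoduleOf Z)) : ℤ) ≤
        ∏ a, max 1 (∑ y, |(Φ * E.transpose) a y|) := le_trans (by exact_mod_cast h1.trans h2) h5
    have h7 : (Nat.card (Submodule.torsion ℤ
        (Z ⧸ (LinearMap.range E.vecMulLinear).submoduleOf Z)) : ℝ) ≤
        ∏ a, max (1 : ℝ) (((∑ y, |(Φ * E.transpose) a y| : ℤ)) : ℝ) := by
      have h8 : (((Nat.card (Submodule.torsion ℤ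
        (Z ⧸ (LinearMap.range E.vecMulLinear).submoduleOf Z)) : ℤ)) : ℝ) ≤
        ((∏ a, max 1 (∑ y, |(Φ * E.transpose) a y|) : ℤ) : ℝ) := by exact_mod_cast h6
      rw [Int.cast_natCast, Int.cast_prod] at h8
      refine h8.trans (le_of_eq ?_)
      refine Finset.prod_congr rfl fun a _ => ?_
      rw [Int.cast_max, Int.cast_one]
    refine h7.trans (Finset.prod_le_prod (fun a _ => le_trans zero_le_one (le_max_left _ _))
      fun a _ => max_le ?_ (Abs6_row E Φ b hE a))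
    calc (1 : ℝ) = 1 * 1 := (one_mul 1).symm
      _ ≤ b * ∑ x, |(Φ a x : ℝ)| := mul_le_mul hb (hS a) zero_le_one (zero_le_one.trans hb)
  have hfin := tors_finite Z (LinearMap.range E.vecMulLinear)
  have hpos : (0 : ℝ) < Nat.card (Submodule.torsion ℤ
      (Z ⧸ (LinearMap.range E.vecMulLinear).submoduleOf Z)) := by
    exact_mod_cast Nat.card_pos
  refine (Real.log_le_log hpos h4).trans ?_
  have hb0 : b ≠ 0 := by linarith
  rw [Real.log_prod fun a _ => mul_ne_zero hb0 (by linarith [hS a]), Finset.mul_sum]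
  refine Finset.sum_le_sum fun a _ => ?_
  rw [Real.log_mul hb0 (by linarith [hS a])]
  have hl1 : 0 ≤ Real.log b := Real.log_nonneg hb
  have hl2 : 0 ≤ Real.log (∑ x, |(Φ a x : ℝ)|) := Real.log_nonneg (hS a)
  nlinarith [mul_nonneg hl1 hl2]

end Pool.Agent.HGR
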