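import Mathlib
import Pool.Agent.LT.Defs

set_option autoImplicit false

/-!
# Project HGR (MP_271752_gt): definitions used in the final statements
-/

open scoped BigOperators

namespace Pool.Agent.HGR

open Pool.Agent.LT

section complex

variable {G : Type} [Group G] (C : FinRes G) (V : Type) [Fintype V] [DecidableEq V] [MulAction G V]

/-- The differential `C_{p+1}(V) → C_p(V)` of the chain complex `C(V) = ℤ[V] ⊗ C` of a finite left
`G`-set `V` (considered as a right `G`-set by `v g = g⁻¹ v`). The group `C_p(V)` consists of the row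
vectors with basis `V × Fin (n p)`, and the differential maps the basis element `(v, j)` to
`∑_i ∑_g (D_ji)_g (g⁻¹ v, i)`. For `V = G ⧸ Γ`, `Γ` a subgroup of finite index, this is the complex
`ℤ ⊗_{ℤΓ} C`, the cellular chain complex of the finite covering with the group `Γ`; the basis
element `(g⁻¹Γ, j)` corresponds to `1 ⊗ g e_j`. -/
noncomputable def dV (p : ℕ) : Matrix (V × Fin (C.n (p + 1))) (V × Fin (C.n p)) ℤ :=
  Matrix.of fun x y => (C.D p x.2 y.2).coeff.sum fun g c => if g⁻¹ • x.1 = y.1 then c else 0

/-- the cycles in degree `p` -/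
noncomputable def Cyc : ∀ p : ℕ, Submodule ℤ (V × Fin (C.n p) → ℤ)
  | 0 => ⊤
  | p + 1 => LinearMap.ker (dV C V p).vecMulLinear

/-- the boundaries in degree `p` -/
noncomputable def Bdy (p : ℕ) : Submodule ℤ (V × Fin (C.n p) → ℤ) :=
  LinearMap.range (dV C V p).vecMulLinear

/-- the integral homology group in degree `p` -/
abbrev Hmg (p : ℕ) : Type := (Cyc C V p) ⧸ (Bdy C V p).submoduleOf (Cyc C V p)

/-- the torsion subgroup of the integral homology group in degree `p` -/
noncomputable abbrev Tors (p : ℕ) : Submodule ℤ (Hmg C V p) := Submodule.torsion ℤ (Hmg C V p)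

/-- the combinatorial Laplacian in degree `p` (real symmetric matrix) -/
noncomputable def lapV : ∀ p : ℕ, Matrix (V × Fin (C.n p)) (V × Fin (C.n p)) ℝ
  | 0 => ((dV C V 0).transpose * dV C V 0).map fun c => (c : ℝ)
  | p + 1 => (dV C V p * (dV C V p).transpose +
      (dV C V (p + 1)).transpose * dV C V (p + 1)).map fun c => (c : ℝ)

end complex

section lattices

variable {m n : Type}

/-- the saturation of a group `B` of integer vectors -/
def Sat (B : Submodule ℤ (n → ℤ)) : Submodule ℤ (n → ℤ) where
  carrier := {x | ∃ k : ℤ, k ≠ 0 ∧ k • x ∈ B}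
  add_mem' := by
    rintro x y ⟨k, hk, hx⟩ ⟨l, hl, hy⟩
    refine ⟨k * l, mul_ne_zero hk hl, ?_⟩
    rw [smul_add]
    refine B.add_mem ?_ ?_
    · rw [mul_comm, mul_smul]
      exact B.smul_mem l hx
    · rw [mul_smul]
      exact B.smul_mem k hy
  zero_mem' := ⟨1, one_ne_zero, by rw [smul_zero]; exact B.zero_mem⟩
  smul_mem' := by
    rintro c x ⟨k, hk, hx⟩
    refine ⟨k, hk, ?_⟩
    rw [smul_comm]
    exact B.smul_mem c hx

/-- the rows of `A` are a basis of the group `L` of integer vectors -/
def IsZB (A : Matrix m n ℤ) (L : Submodule ℤ (n → ℤ)) : Prop :=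
  LinearIndependent ℤ A.row ∧ Submodule.span ℤ (Set.range A.row) = L

/-- `c` is the covolume of the group `L` of integer vectors: the square root of the Gram
determinant of a basis of `L` -/
def HasCovol [Fintype n] (L : Submodule ℤ (n → ℤ)) (c : ℝ) : Prop :=
  ∃ (r : ℕ) (A : Matrix (Fin r) n ℤ), IsZB A L ∧
    c = Real.sqrt (((A * A.transpose).det : ℤ) : ℝ)

open Classical in
/-- the logarithm of the product of the nonzero eigenvalues of a real symmetric positive
semidefinite matrix (note that `Real.log 0 = 0`) -/
noncomputable def ldet' [Fintype n] [DecidableEq n] (A : Matrix n n ℝ) : ℝ :=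
  if h : A.IsHermitian then ∑ i, Real.log (h.eigenvalues i) else 0

end lattices

section final

variable {G : Type} [Group G]

/-- The resolution `C'` is the dual of the resolution `C` (Poincare duality: if `C` is the cellular
chain complex of the universal covering of a closed aspherical orientable `d`-manifold then the
dual cochain complex is also a resolution of the trivial module): `C'_p` has the dual basis of
`C_{d-p}`, and the matrices of the differentials are the adjoint matrices. -/
structure Dual (C C' : FinRes G) where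
  /-- the same length -/
  d_eq : C'.d = C.d
  /-- bijections of the bases -/
  e : ∀ p q, p + q = C.d → (Fin (C'.n p) ≃ Fin (C.n q))
  D_eq : ∀ p q (h : p + 1 + q = C.d) (i : Fin (C'.n (p + 1))) (j : Fin (C'.n p)) (g : G),
    (C'.D p i j).coeff g = (C.D q (e p (q + 1) (by omega) j) (e (p + 1) q h i)).coeff g⁻¹

/-- the combinatorial torsion `-1/2 ∑ (-1)^p p log det' (Δ_p)` of the complex `C(V)` -/
noncomputable def rhoV (C : FinRes G) (V : Type) [Fintype V] [DecidableEq V] [MulAction G V] : ℝ :=
  -(1 / 2 : ℝ) * ∑ p ∈ Finset.range (C.d + 1), (-1 : ℝ) ^ p * p * ldet' (lapV C V p)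

/-- A Farber sequence of finite `G`-sets: the proportion of the fixed points of every element
`g ≠ 1` tends to zero. For instance `V i = G ⧸ Γ i` for a decreasing sequence of normal subgroups
`Γ i` of finite index with trivial intersection. -/
def IsFarber (G : Type) [Group G] (V : ℕ → Type) [∀ i, Fintype (V i)] [∀ i, MulAction G (V i)] :
    Prop :=
  (∀ i, 0 < Fintype.card (V i)) ∧ ∀ g : G, g ≠ 1 →
    Filter.Tendsto (fun i => (Nat.card {v : V i // g • v = v} : ℝ) / Fintype.card (V i))
      Filter.atTop (nhds 0)

/-- at most `e * |V|` points of `V` are fixed by some element of `F` -/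
def FewFix (F : Finset G) (e : ℝ) (V : Type) [Fintype V] [MulAction G V] : Prop :=
  (Nat.card {v : V // ∃ g ∈ F, g • v = v} : ℝ) ≤ e * Fintype.card V

end final

end Pool.Agent.HGR
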