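import Mathlib
import Pool.Agent.LT.Base
import Pool.Agent.LT.LAVol
import Pool.Agent.LT.LADet
import Pool.Agent.LT.FinLap
import Pool.Agent.HGR.Defs

set_option autoImplicit false

/-!
# Project HGR, module Asy: `ldet'` as a limit

PLAN. `det (M + t) = ∏ (λ_i + t)` for a positive semidefinite `M` (same proof as `LT.det_gram_add` in
LT/FinLap, which treats `M = A Aᵀ`; or `Matrix.IsHermitian.spectral_theorem`). With `t = δ²`:
`log det (M + δ²) = ∑_i log (λ_i + δ²)`; for `λ_i = 0` the summand is `2 log δ`, for `λ_i > 0` it tends to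
`log λ_i`. So `κ := 2 * #{i : λ_i = 0}` and the limit is `∑_{λ_i ≠ 0} log λ_i = ldet' M`
(`Real.log 0 = 0`). `asy_unique`: the difference of the two functions is `(κ' - κ) log δ` and converges to
`x - x'`; as `log δ → -∞` (`Real.tendsto_log_nhdsGT_zero`) this forces `κ = κ'` (otherwise it tends to
`± ∞`, `not_tendsto_nhds_of_tendsto_atBot` ..), so `x = x'`.
-/

open scoped BigOperators Topology

namespace Pool.Agent.HGR

open Pool.Agent.LT

private theorem asy_det {m : Type} [Fintype m] [DecidableEq m] (M : Matrix m m ℝ)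
    (hM : M.IsHermitian) (t : ℝ) :
    (M + t • (1 : Matrix m m ℝ)).det = ∏ i, (hM.eigenvalues i + t) := by
  have h1 := Matrix.eval_charpoly M (-t)
  rw [hM.charpoly_eq, Polynomial.eval_prod] at h1
  have h2 : (Matrix.scalar m (-t) - M) = (-1 : ℝ) • (M + t • (1 : Matrix m m ℝ)) := by
    ext i j
    simp only [Matrix.sub_apply, Matrix.scalar_apply, Matrix.smul_apply, Matrix.add_apply,
      Matrix.diagonal_apply, Matrix.one_apply, smul_eq_mul]
    split_ifs <;> ring
  rw [h2, Matrix.det_smul] at h1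
  have h3 : (∏ i, Polynomial.eval (-t) (Polynomial.X -
      Polynomial.C ((hM.eigenvalues i : ℝ) : ℝ))) =
      (-1 : ℝ) ^ Fintype.card m * ∏ i, (hM.eigenvalues i + t) := by
    rw [← Finset.card_univ, ← Finset.prod_const, ← Finset.prod_mul_distrib]
    refine Finset.prod_congr rfl fun i _ => ?_
    rw [Polynomial.eval_sub, Polynomial.eval_X, Polynomial.eval_C]
    ring
  have h4 : (-1 : ℝ) ^ Fintype.card m ≠ 0 := pow_ne_zero _ (by norm_num)
  have h5 : (-1 : ℝ) ^ Fintype.card m * (M + t • (1 : Matrix m m ℝ)).det =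
      (-1 : ℝ) ^ Fintype.card m * ∏ i, (hM.eigenvalues i + t) := by
    rw [← h3]; exact h1.symm
  exact mul_left_cancel₀ h4 h5

theorem tendsto_ldet {m : Type} [Fintype m] [DecidableEq m] (M : Matrix m m ℝ)
    (hM : M.PosSemidef) :
    ∃ κ : ℝ, Filter.Tendsto (fun δ : ℝ => Real.log (M + (δ ^ 2) • (1 : Matrix m m ℝ)).det -
      κ * Real.log δ) (𝓝[>] 0) (𝓝 (ldet' M)) := by
  classical
  have hH := hM.isHermitian
  obtain ⟨lam, hlam⟩ : ∃ lam, lam = hH.eigenvalues := ⟨_, rfl⟩
  have hnn : ∀ i, 0 ≤ lam i := fun i => by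
    rw [hlam]
    exact hM.eigenvalues_nonneg i
  have hl : ldet' M = ∑ i, Real.log (lam i) := by
    unfold ldet'
    rw [dif_pos hH, hlam]
  refine ⟨∑ i, (if lam i = 0 then 2 else 0), ?_⟩
  rw [hl]
  have h1 : Filter.Tendsto (fun δ : ℝ => ∑ i, (Real.log (lam i + δ ^ 2) -
      (if lam i = 0 then 2 else 0) * Real.log δ)) (𝓝[>] 0) (𝓝 (∑ i, Real.log (lam i))) := by
    refine tendsto_finsetSum _ fun i _ => ?_
    by_cases h0 : lam i = 0
    · have h2 : (fun δ : ℝ => Real.log (lam i + δ ^ 2) -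
          (if lam i = 0 then 2 else 0) * Real.log δ) = fun _ => 0 := by
        funext δ
        rw [if_pos h0, h0, zero_add, Real.log_pow]
        push_cast
        ring
      rw [h2, h0, Real.log_zero]
      exact tendsto_const_nhds
    · have hpos : 0 < lam i := lt_of_le_of_ne (hnn i) (Ne.symm h0)
      have h2 : (fun δ : ℝ => Real.log (lam i + δ ^ 2) -
          (if lam i = 0 then 2 else 0) * Real.log δ) = fun δ => Real.log (lam i + δ ^ 2) := by
        funext δ
        rw [if_neg h0]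
        ring
      rw [h2]
      have h3 : Filter.Tendsto (fun δ : ℝ => lam i + δ ^ 2) (𝓝 0) (𝓝 (lam i + 0 ^ 2)) :=
        (continuous_const.add (continuous_pow 2)).tendsto 0
      have h4 : lam i + (0 : ℝ) ^ 2 = lam i := by ring
      rw [h4] at h3
      exact (h3.log hpos.ne').mono_left nhdsWithin_le_nhds
  refine h1.congr' ?_
  filter_upwards [self_mem_nhdsWithin] with δ hδ
  have hδ0 : (0 : ℝ) < δ := hδ
  have hδ2 : (0 : ℝ) < δ ^ 2 := by positivity
  rw [asy_det M hH, ← hlam, Real.log_prod (fun i _ => (add_pos_of_nonneg_of_pos (hnn i) hδ2).ne'),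
    Finset.sum_sub_distrib, Finset.sum_mul]

theorem asy_unique (f : ℝ → ℝ) (κ κ' x x' : ℝ)
    (h : Filter.Tendsto (fun δ : ℝ => f δ - κ * Real.log δ) (𝓝[>] 0) (𝓝 x))
    (h' : Filter.Tendsto (fun δ : ℝ => f δ - κ' * Real.log δ) (𝓝[>] 0) (𝓝 x')) : x = x' := by
  by_cases hκ : κ = κ'
  · rw [hκ] at h
    exact tendsto_nhds_unique h h'
  · exfalso
    have hc : κ' - κ ≠ 0 := fun h0 => hκ (by linarith)
    have h1 := (h.sub h').const_mul (κ' - κ)⁻¹
    have h2 : (fun δ : ℝ => (κ' - κ)⁻¹ * ((f δ - κ * Real.log δ) - (f δ - κ' * Real.log δ))) =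
        Real.log := by
      funext δ
      field_simp
      ring
    rw [h2] at h1
    exact not_tendsto_nhds_of_tendsto_atBot Real.tendsto_log_nhdsGT_zero _ h1

end Pool.Agent.HGR
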