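import Mathlib
import Pool.Agent.HGR.Defs

set_option autoImplicit false

/-!
# Project HGR, module Bnd: row and column sums of the differentials

PLAN. `b := 1 + ∑_{p ≤ d} ∑_{k : Fin (n (p+1))} ∑_{i : Fin (n p)} ∑_{g ∈ supp} |(C.D p k i).coeff g|`.
For `p > d` there are no rows (`C.n_zero`), all sums are `0`. Entry bound:
`|dV (v,k) (w,i)| ≤ ∑_g |coeff g| * [g⁻¹ • v = w]`. Row sum: for given `v`, `g` there is exactly one `w`.
Column sum: for given `w`, `g` there is exactly one `v` (`v = g • w`). Same structure as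
`Pool/Agent/LT/NormB.lean` (`nb_row`, `nb_column`).
-/

open scoped BigOperators

namespace Pool.Agent.HGR

open Pool.Agent.LT

/-- the `ℓ¹` norm of an entry of the matrix of the differential -/
private noncomputable def bnd_a {G : Type} [Group G] (C : FinRes G) (p : ℕ)
    (k : Fin (C.n (p + 1))) (i : Fin (C.n p)) : ℝ :=
  ∑ g ∈ (C.D p k i).coeff.support, |(((C.D p k i).coeff g : ℤ) : ℝ)|

/-- the `ℓ¹` norm of the matrix of the differential -/
private noncomputable def bnd_s {G : Type} [Group G] (C : FinRes G) (p : ℕ) : ℝ :=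
  ∑ k, ∑ i, bnd_a C p k i

private lemma bnd_a_nonneg {G : Type} [Group G] (C : FinRes G) (p : ℕ)
    (k : Fin (C.n (p + 1))) (i : Fin (C.n p)) : 0 ≤ bnd_a C p k i :=
  Finset.sum_nonneg fun _ _ => abs_nonneg _

private lemma bnd_s_nonneg {G : Type} [Group G] (C : FinRes G) (p : ℕ) : 0 ≤ bnd_s C p :=
  Finset.sum_nonneg fun k _ => Finset.sum_nonneg fun i _ => bnd_a_nonneg C p k i

private lemma bnd_abs {G : Type} [Group G] (C : FinRes G) (V : Type) [Fintype V] [DecidableEq V]
    [MulAction G V] (p : ℕ) (x : V × Fin (C.n (p + 1))) (y : V × Fin (C.n p)) :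
    |(dV C V p x y : ℝ)| ≤ ∑ g ∈ (C.D p x.2 y.2).coeff.support,
      if g⁻¹ • x.1 = y.1 then |(((C.D p x.2 y.2).coeff g : ℤ) : ℝ)| else 0 := by
  have h2 : dV C V p x y = ∑ g ∈ (C.D p x.2 y.2).coeff.support,
      if g⁻¹ • x.1 = y.1 then (C.D p x.2 y.2).coeff g else 0 := rfl
  rw [h2, Int.cast_sum]
  refine (Finset.abs_sum_le_sum_abs _ _).trans (Finset.sum_le_sum fun g _ => ?_)
  by_cases hz : g⁻¹ • x.1 = y.1
  · rw [if_pos hz, if_pos hz]
  · rw [if_neg hz, if_neg hz]
    simp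

private lemma bnd_row {G : Type} [Group G] (C : FinRes G) (V : Type) [Fintype V] [DecidableEq V]
    [MulAction G V] (p : ℕ) (x : V × Fin (C.n (p + 1))) :
    ∑ y, |(dV C V p x y : ℝ)| ≤ bnd_s C p := by
  calc ∑ y, |(dV C V p x y : ℝ)|
      ≤ ∑ y : V × Fin (C.n p), ∑ g ∈ (C.D p x.2 y.2).coeff.support,
          (if g⁻¹ • x.1 = y.1 then |(((C.D p x.2 y.2).coeff g : ℤ) : ℝ)| else 0) :=
        Finset.sum_le_sum fun y _ => bnd_abs C V p x y
    _ = ∑ i : Fin (C.n p), ∑ w : V, ∑ g ∈ (C.D p x.2 i).coeff.support,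
          (if g⁻¹ • x.1 = w then |(((C.D p x.2 i).coeff g : ℤ) : ℝ)| else 0) := by
        rw [Fintype.sum_prod_type, Finset.sum_comm]
    _ = ∑ i : Fin (C.n p), bnd_a C p x.2 i := by
        refine Finset.sum_congr rfl fun i _ => ?_
        rw [Finset.sum_comm]
        refine Finset.sum_congr rfl fun g _ => ?_
        rw [Finset.sum_ite_eq Finset.univ (g⁻¹ • x.1), if_pos (Finset.mem_univ _)]
    _ ≤ bnd_s C p := by
        unfold bnd_s
        exact Finset.single_le_sum (f := fun k => ∑ i : Fin (C.n p), bnd_a C p k i)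
          (fun k _ => Finset.sum_nonneg fun i _ => bnd_a_nonneg C p k i) (Finset.mem_univ x.2)

private lemma bnd_one {G : Type} [Group G] (V : Type) [Fintype V] [DecidableEq V]
    [MulAction G V] (g : G) (w : V) (K : ℝ) (hK : 0 ≤ K) :
    ∑ v : V, (if g⁻¹ • v = w then K else 0) ≤ K := by
  rw [← Finset.sum_filter, Finset.sum_const, nsmul_eq_mul]
  have h : (Finset.univ.filter fun v : V => g⁻¹ • v = w).card ≤ 1 := by
    rw [Finset.card_le_one]
    intro a ha b hb
    rw [Finset.mem_filter] at ha hb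
    exact MulAction.injective g⁻¹ (ha.2.trans hb.2.symm)
  have h' : ((Finset.univ.filter fun v : V => g⁻¹ • v = w).card : ℝ) ≤ 1 := by exact_mod_cast h
  nlinarith

private lemma bnd_column {G : Type} [Group G] (C : FinRes G) (V : Type) [Fintype V]
    [DecidableEq V] [MulAction G V] (p : ℕ) (y : V × Fin (C.n p)) :
    ∑ x, |(dV C V p x y : ℝ)| ≤ bnd_s C p := by
  calc ∑ x, |(dV C V p x y : ℝ)|
      ≤ ∑ x : V × Fin (C.n (p + 1)), ∑ g ∈ (C.D p x.2 y.2).coeff.support,
          (if g⁻¹ • x.1 = y.1 then |(((C.D p x.2 y.2).coeff g : ℤ) : ℝ)| else 0) :=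
        Finset.sum_le_sum fun x _ => bnd_abs C V p x y
    _ = ∑ k : Fin (C.n (p + 1)), ∑ v : V, ∑ g ∈ (C.D p k y.2).coeff.support,
          (if g⁻¹ • v = y.1 then |(((C.D p k y.2).coeff g : ℤ) : ℝ)| else 0) := by
        rw [Fintype.sum_prod_type, Finset.sum_comm]
    _ ≤ ∑ k : Fin (C.n (p + 1)), bnd_a C p k y.2 := by
        refine Finset.sum_le_sum fun k _ => ?_
        rw [Finset.sum_comm]
        exact Finset.sum_le_sum fun g _ => bnd_one V g y.1 _ (abs_nonneg _)
    _ ≤ bnd_s C p := by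
        unfold bnd_s
        refine Finset.sum_le_sum fun k _ => ?_
        exact Finset.single_le_sum (f := fun i => bnd_a C p k i)
          (fun i _ => bnd_a_nonneg C p k i) (Finset.mem_univ y.2)

theorem exists_bnd {G : Type} [Group G] (C : FinRes G) :
    ∃ b : ℝ, 1 ≤ b ∧ ∀ (V : Type) [Fintype V] [DecidableEq V] [MulAction G V] (p : ℕ),
      (∀ y, ∑ x, |(dV C V p x y : ℝ)| ≤ b) ∧ (∀ x, ∑ y, |(dV C V p x y : ℝ)| ≤ b) := by
  have h0 : 0 ≤ ∑ p ∈ Finset.range (C.d + 1), bnd_s C p :=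
    Finset.sum_nonneg fun p _ => bnd_s_nonneg C p
  refine ⟨1 + ∑ p ∈ Finset.range (C.d + 1), bnd_s C p, by linarith, ?_⟩
  intro V _ _ _ p
  have hs : bnd_s C p ≤ 1 + ∑ p ∈ Finset.range (C.d + 1), bnd_s C p := by
    by_cases hp : p < C.d + 1
    · have := Finset.single_le_sum (f := fun p => bnd_s C p)
        (fun p _ => bnd_s_nonneg C p) (Finset.mem_range.2 hp)
      linarith
    · have he : C.n (p + 1) = 0 := C.n_zero (p + 1) (by omega)
      have he' : IsEmpty (Fin (C.n (p + 1))) := by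
        rw [he]
        exact Fin.isEmpty
      have : bnd_s C p = 0 := by
        unfold bnd_s
        exact Finset.sum_eq_zero fun k _ => (he'.false k).elim
      linarith
  exact ⟨fun y => (bnd_column C V p y).trans hs, fun x => (bnd_row C V p x).trans hs⟩

end Pool.Agent.HGR
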