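import Mathlib
import Pool.Agent.LT.Base
import Pool.Agent.LT.LAVol
import Pool.Agent.LT.LAProj
import Pool.Agent.HGR.Defs

set_option autoImplicit false

/-!
# Project HGR, module Cmp: a basis of a saturated group can be completed to a unimodular matrix

The quotient of `n → ℤ` by the saturated group `L` is free, so a basis `k` of `L` and a lift of a basis of the
quotient give a basis of `n → ℤ`; the matrix with these rows is unimodular. The Gram determinant of a unimodular
matrix is a nonnegative unit, hence `1`.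
-/

open scoped BigOperators

namespace Pool.Agent.HGR

open Pool.Agent.LT

private theorem Cmp_of_basis {n ι : Type} [Fintype n] [DecidableEq n] [Fintype ι] [DecidableEq ι]
    (B : Module.Basis ι ℤ (n → ℤ)) (W : Matrix ι n ℤ) (hW : ∀ i j, W i j = B i j) :
    ∃ U : Matrix n ι ℤ, W * U = 1 ∧ U * W = 1 := by
  have hrow : ∀ i, W i = B i := fun i => funext fun j => hW i j
  refine ⟨Matrix.of fun y i => B.repr (Pi.single y 1) i, ?_, ?_⟩
  · ext i j
    have h1 : ∑ y, B i y • (Pi.single y (1 : ℤ) : n → ℤ) = B i := by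
      ext z
      simp [Finset.sum_apply, Pi.single_apply]
    have h2 : ∑ y, B i y • B.repr (Pi.single y (1 : ℤ) : n → ℤ) j = B.repr (B i) j := by
      conv_rhs => rw [← h1]
      rw [map_sum, Finsupp.finsetSum_apply]
      refine Finset.sum_congr rfl fun y _ => ?_
      rw [map_zsmul, Finsupp.smul_apply]
    rw [Matrix.mul_apply]
    have h3 : B.repr (B i) j = (1 : Matrix ι ι ℤ) i j := by
      rw [B.repr_self, Finsupp.single_apply, Matrix.one_apply]
    rw [← h3, ← h2]
    refine Finset.sum_congr rfl fun y _ => ?_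
    rw [hW, Matrix.of_apply, smul_eq_mul]
  · ext y z
    rw [Matrix.mul_apply]
    have h1 := B.sum_repr (Pi.single y (1 : ℤ) : n → ℤ)
    have h2 := congrFun h1 z
    rw [Finset.sum_apply] at h2
    have h3 : (Pi.single y (1 : ℤ) : n → ℤ) z = (1 : Matrix n n ℤ) y z := by
      rw [Pi.single_apply, Matrix.one_apply]
      by_cases h : y = z
      · rw [if_pos h, if_pos h.symm]
      · rw [if_neg h, if_neg (fun h' => h h'.symm)]
    rw [← h3, ← h2]
    refine Finset.sum_congr rfl fun i _ => ?_
    rw [Matrix.of_apply, hW, Pi.smul_apply, smul_eq_mul]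

theorem exists_compl {n : Type} [Fintype n] [DecidableEq n] (L : Submodule ℤ (n → ℤ))
    (hL : ∀ (k : ℤ) (x : n → ℤ), k ≠ 0 → k • x ∈ L → x ∈ L) {a : ℕ} (k : Matrix (Fin a) n ℤ)
    (hk : IsZB k L) :
    ∃ (b : ℕ) (c : Matrix (Fin b) n ℤ) (U : Matrix n (Fin a ⊕ Fin b) ℤ),
      Matrix.fromRows k c * U = 1 ∧ U * Matrix.fromRows k c = 1 := by
  obtain ⟨hli, hsp⟩ := hk
  have htf : Module.IsTorsionFree ℤ ((n → ℤ) ⧸ L) := by
    rw [Module.isTorsionFree_iff_smul_eq_zero]
    intro r q hq
    by_cases hr : r = 0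
    · exact Or.inl hr
    · right
      obtain ⟨x, rfl⟩ := Submodule.Quotient.mk_surjective L q
      rw [← Submodule.Quotient.mk_smul, Submodule.Quotient.mk_eq_zero] at hq
      rw [Submodule.Quotient.mk_eq_zero]
      exact hL r x hr hq
  obtain ⟨b, q⟩ : Σ b : ℕ, Module.Basis (Fin b) ℤ ((n → ℤ) ⧸ L) := Module.basisOfFiniteTypeTorsionFree'
  let w : Module.Basis (Fin a) ℤ L := (Module.Basis.span hli).map (LinearEquiv.ofEq _ _ hsp)
  have hw : ∀ i, (w i : n → ℤ) = k i := by
    intro i
    simp only [w, Module.Basis.map_apply, LinearEquiv.coe_ofEq_apply, Module.Basis.span_apply]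
    rfl
  let B : Module.Basis (Fin a ⊕ Fin b) ℤ (n → ℤ) := Module.Basis.sumQuot w q
  obtain ⟨U, h1, h2⟩ := Cmp_of_basis B (Matrix.fromRows k (Matrix.of fun i j => B (Sum.inr i) j)) (by
    rintro (i | i) j
    · rw [Matrix.fromRows_apply_inl]
      show k i j = (Module.Basis.sumQuot w q (Sum.inl i)) j
      rw [Module.Basis.sumQuot_inl, hw]
    · rw [Matrix.fromRows_apply_inr]
      rfl)
  exact ⟨b, _, U, h1, h2⟩

theorem vol_unimod {p n : Type} [Fintype p] [DecidableEq p] [Fintype n] [DecidableEq n]
    (W : Matrix p n ℤ) (U : Matrix n p ℤ) (h1 : W * U = 1) (h2 : U * W = 1) :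
    vol (toR W) = 1 ∧ LI (toR W) := by
  have hdet : (W * W.transpose).det * (U.transpose * U).det = 1 := by
    rw [← Matrix.det_mul]
    have h3 : W * W.transpose * (U.transpose * U) = 1 := by
      calc W * W.transpose * (U.transpose * U) = W * (W.transpose * U.transpose) * U := by
            simp only [Matrix.mul_assoc]
        _ = W * (U * W).transpose * U := by rw [Matrix.transpose_mul]
        _ = 1 := by rw [h2, Matrix.transpose_one, Matrix.mul_one, h1]
    rw [h3, Matrix.det_one]
  have hcast : ((W * W.transpose).det : ℝ) = (toR W * (toR W).transpose).det := by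
    rw [← toR_transpose, ← toR_mul]
    exact Int.cast_det _
  have hnn : 0 ≤ (W * W.transpose).det := by
    have h4 := (gram_posSemidef (toR W)).det_nonneg
    rw [← hcast] at h4
    exact_mod_cast h4
  have hone : (W * W.transpose).det = 1 := by
    rcases Int.isUnit_iff.1 (IsUnit.of_mul_eq_one _ hdet) with h | h
    · exact h
    · omega
  have hvol : vol (toR W) = 1 := by
    unfold vol
    rw [← hcast, hone, Int.cast_one, Real.sqrt_one]
  exact ⟨hvol, li_of_vol_pos _ (by rw [hvol]; exact one_pos)⟩

end Pool.Agent.HGR
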