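import Mathlib
import Pool.Agent.LT.Base
import Pool.Agent.LT.LAVol
import Pool.Agent.HGR.Defs

set_option autoImplicit false

/-!
# Project HGR, module Cov: covolumes of groups of integer vectors

Bases of subgroups of `ℤ ^ n`; the Gram determinant does not depend on the basis.
-/

open scoped BigOperators

namespace Pool.Agent.HGR

open Pool.Agent.LT

variable {n : Type} [Fintype n]

private lemma Cov_det {m : Type} [Fintype m] [DecidableEq m] (M : Matrix m m ℤ) :
    (toR M).det = ((M.det : ℤ) : ℝ) := by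
  rw [Int.cast_det]
  rfl

theorem vol_toR {m : Type} [Fintype m] [DecidableEq m] (A : Matrix m n ℤ) :
    vol (toR A) = Real.sqrt (((A * A.transpose).det : ℤ) : ℝ) := by
  unfold vol
  rw [← toR_transpose, ← toR_mul, Cov_det]

private lemma Cov_li {r : ℕ} (g : Matrix (Fin r) n ℤ)
    (h : ∀ c : Fin r → ℤ, Matrix.vecMul c g = 0 → c = 0) : LI (toR g) := by
  apply li_of_vol_pos
  have h1 : (g * g.transpose).det ≠ 0 := by
    intro h0
    rw [← Matrix.exists_vecMul_eq_zero_iff] at h0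
    obtain ⟨v, hv, hvg⟩ := h0
    apply hv
    apply h
    have h2 : Matrix.vecMul v g ⬝ᵥ Matrix.vecMul v g = 0 := by
      rw [← Matrix.dotProduct_mulVec, ← Matrix.vecMul_transpose, Matrix.vecMul_vecMul,
        dotProduct_comm, hvg, zero_dotProduct]
    funext j
    simp only [dotProduct] at h2
    have h3 := (Finset.sum_eq_zero_iff_of_nonneg (fun i _ => mul_self_nonneg _)).1 h2 j
      (Finset.mem_univ j)
    exact mul_self_eq_zero.1 h3
  have h2 : vol (toR g) ^ 2 = (((g * g.transpose).det : ℤ) : ℝ) := by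
    rw [vol_sq, ← toR_transpose, ← toR_mul, Cov_det]
  have h3 : vol (toR g) ≠ 0 := by
    intro h0
    rw [h0] at h2
    apply h1
    have : (((g * g.transpose).det : ℤ) : ℝ) = 0 := by rw [← h2]; norm_num
    exact_mod_cast this
  exact lt_of_le_of_ne (vol_nonneg _) (Ne.symm h3)

private lemma Cov_rs_le {m k : Type} [Fintype k] (A : Matrix m n ℤ) (B : Matrix k n ℤ)
    (h : ∀ i, ∃ c : k → ℤ, Matrix.vecMul c B = A i) : rs (toR A) ≤ rs (toR B) := by
  unfold rs
  rw [Submodule.span_le]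
  rintro _ ⟨i, rfl⟩
  obtain ⟨c, hc⟩ := h i
  have h1 : (toR A).row i = toV (A i) := rfl
  rw [h1, ← hc, toV_vecMul, Matrix.vecMul_eq_sum]
  refine Submodule.sum_mem _ fun j _ => Submodule.smul_mem _ _ ?_
  exact Submodule.subset_span ⟨j, rfl⟩

theorem exists_zb (L : Submodule ℤ (n → ℤ)) :
    ∃ (r : ℕ) (A : Matrix (Fin r) n ℤ), IsZB A L := by
  obtain ⟨r, b⟩ := Submodule.basisOfPid (Pi.basisFun ℤ n) L
  refine ⟨r, fun i => (b i : n → ℤ), ?_, ?_⟩
  · exact b.linearIndependent.map' L.subtype L.ker_subtype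
  · have h1 : Submodule.map L.subtype (Submodule.span ℤ (Set.range b)) = L := by
      rw [b.span_eq, Submodule.map_top, Submodule.range_subtype]
    rw [Submodule.map_span, ← Set.range_comp] at h1
    exact h1

theorem zb_mem {r : ℕ} {A : Matrix (Fin r) n ℤ} {L : Submodule ℤ (n → ℤ)} (hA : IsZB A L)
    (x : n → ℤ) : x ∈ L ↔ ∃ c : Fin r → ℤ, Matrix.vecMul c A = x := by
  rw [← hA.2, Submodule.mem_span_range_iff_exists_fun]
  constructor
  · rintro ⟨c, hc⟩
    exact ⟨c, by rw [Matrix.vecMul_eq_sum]; exact hc⟩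
  · rintro ⟨c, hc⟩
    rw [Matrix.vecMul_eq_sum] at hc
    exact ⟨c, hc⟩

theorem li_of_zb {r : ℕ} {A : Matrix (Fin r) n ℤ} {L : Submodule ℤ (n → ℤ)} (hA : IsZB A L) :
    LI (toR A) := by
  apply Cov_li
  intro c hc
  rw [Matrix.vecMul_eq_sum] at hc
  funext i
  exact Fintype.linearIndependent_iff.1 hA.1 c hc i

theorem vol_le_of_sub {r : ℕ} (A B : Matrix (Fin r) n ℤ) (hA : LI (toR A))
    (hAB : ∀ i, ∃ c : Fin r → ℤ, Matrix.vecMul c B = A i) : vol (toR B) ≤ vol (toR A) := by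
  choose U hU using hAB
  have h1 : A = (Matrix.of U) * B := by
    funext i
    rw [← hU i]
    rfl
  have h2 : vol (toR A) = |(toR (Matrix.of U)).det| * vol (toR B) := by
    rw [← vol_mul, ← toR_mul, ← h1]
  have h3 := vol_pos _ hA
  rw [h2] at h3
  have h4 : (toR (Matrix.of U)).det ≠ 0 := by
    intro h0
    rw [h0, abs_zero, zero_mul] at h3
    exact lt_irrefl _ h3
  rw [Cov_det] at h4 h2
  have h5 : (Matrix.of U).det ≠ 0 := by exact_mod_cast h4
  have h6 : (1 : ℤ) ≤ |(Matrix.of U).det| := Int.one_le_abs h5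
  have h7 : (1 : ℝ) ≤ |(((Matrix.of U).det : ℤ) : ℝ)| := by exact_mod_cast h6
  rw [h2]
  exact le_mul_of_one_le_left (vol_nonneg _) h7

theorem zb_unique {r s : ℕ} {A : Matrix (Fin r) n ℤ} {B : Matrix (Fin s) n ℤ}
    {L : Submodule ℤ (n → ℤ)} (hA : IsZB A L) (hB : IsZB B L) :
    r = s ∧ vol (toR A) = vol (toR B) := by
  have hAB : ∀ i, ∃ c : Fin s → ℤ, Matrix.vecMul c B = A i := by
    intro i
    rw [← zb_mem hB]
    rw [← hA.2]
    exact Submodule.subset_span ⟨i, rfl⟩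
  have hBA : ∀ i, ∃ c : Fin r → ℤ, Matrix.vecMul c A = B i := by
    intro i
    rw [← zb_mem hA]
    rw [← hB.2]
    exact Submodule.subset_span ⟨i, rfl⟩
  have hrs : rs (toR A) = rs (toR B) := le_antisymm (Cov_rs_le A B hAB) (Cov_rs_le B A hBA)
  have hLA := li_of_zb hA
  have hLB := li_of_zb hB
  have h1 := finrank_rs (toR A)
  have h2 := finrank_rs (toR B)
  rw [rank_of_li _ hLA, Fintype.card_fin] at h1
  rw [rank_of_li _ hLB, Fintype.card_fin] at h2
  have hr : r = s := by rw [← h1, ← h2, hrs]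
  subst hr
  exact ⟨rfl, le_antisymm (vol_le_of_sub B A hLB hBA) (vol_le_of_sub A B hLA hAB)⟩

theorem covol_iff (L : Submodule ℤ (n → ℤ)) (c : ℝ) :
    HasCovol L c ↔ ∃ (r : ℕ) (A : Matrix (Fin r) n ℤ), IsZB A L ∧ c = vol (toR A) := by
  constructor
  · rintro ⟨r, A, hA, hc⟩
    exact ⟨r, A, hA, by rw [vol_toR]; exact hc⟩
  · rintro ⟨r, A, hA, hc⟩
    exact ⟨r, A, hA, by rw [vol_toR] at hc; exact hc⟩

theorem covol_unique {L : Submodule ℤ (n → ℤ)} {c c' : ℝ} (h : HasCovol L c)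
    (h' : HasCovol L c') : c = c' := by
  obtain ⟨r, A, hA, hc⟩ := (covol_iff L c).1 h
  obtain ⟨s, B, hB, hc'⟩ := (covol_iff L c').1 h'
  rw [hc, hc']
  exact (zb_unique hA hB).2

theorem one_le_covol {L : Submodule ℤ (n → ℤ)} {c : ℝ} (h : HasCovol L c) : 1 ≤ c := by
  obtain ⟨r, A, hA, hc⟩ := (covol_iff L c).1 h
  rw [hc]
  exact one_le_vol_int A (li_of_zb hA)

theorem exists_covol (L : Submodule ℤ (n → ℤ)) : ∃ c, HasCovol L c := by
  obtain ⟨r, A, hA⟩ := exists_zb L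
  exact ⟨_, r, A, hA, rfl⟩

/-- covolumes and a bijection of the coordinates -/
theorem covol_reindex {m : Type} [Fintype m] (e : m ≃ n) (L : Submodule ℤ (n → ℤ)) (c : ℝ)
    (h : HasCovol L c) : HasCovol (L.map (LinearMap.funLeft ℤ ℤ e)) c := by
  obtain ⟨r, A, hA, hc⟩ := h
  refine ⟨r, A.submatrix id e, ⟨?_, ?_⟩, ?_⟩
  · exact hA.1.map' (LinearMap.funLeft ℤ ℤ e) (LinearMap.ker_eq_bot.2
      (LinearMap.funLeft_injective_of_surjective ℤ ℤ e e.surjective))
  · rw [← hA.2, Submodule.map_span, ← Set.range_comp]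
    rfl
  · rw [hc, Matrix.transpose_submatrix, Matrix.submatrix_mul_equiv, Matrix.submatrix_id_id]

end Pool.Agent.HGR
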