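import Mathlib
import Pool.Agent.LT.Base
import Pool.Agent.LT.ModB

set_option autoImplicit false

/-!
# Project HGR, module Dat1: the smaller good set

PLAN. `card_gs`: the complement of `gs` is contained in the union of `Aᶜ` (at most `K bad F`),
`(Gd q)ᶜ` (at most `K1 bad S`, `card_Gd`) and `{v : ∃ t ∈ T, act v t ∉ Gd (q+1)}` (at most `|T|` times
the cardinality of `(Gd (q+1))ᶜ`, `Mod.card_exists_not_mem`, `card_Gd`). `Mod.bad_mono` for
`F ∪ C.S`. `K` may be negative only if .. no: use `|K| + K1 + |T| K2`.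
-/

open scoped BigOperators

namespace Pool.Agent.HGR

open Pool.Agent.LT

open Classical in
/-- the vertices in `A` at which nothing is trimmed -/
noncomputable def gs {G : Type} [Group G] {ν : ℕ} (C : Cpl G) (M : Mod G ν) (q : ℕ) (T : Finset G)
    (A : Finset (Fin ν)) : Finset (Fin ν) :=
  A.filter fun v => v ∈ Gd C M q ∧ ∀ t ∈ T, M.act v t ∈ Gd C M (q + 1)

open Classical in
theorem card_gs {G : Type} [Group G] (C : Cpl G) (q : ℕ) (F T : Finset G) (K : ℝ) :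
    ∃ K' : ℝ, 0 ≤ K' ∧ ∀ (ν : ℕ) (M : Mod G ν) (A : Finset (Fin ν)),
      ((Aᶜ).card : ℝ) ≤ K * M.bad F →
      (((gs C M q T A)ᶜ).card : ℝ) ≤ K' * M.bad (F ∪ C.S) := by
  obtain ⟨K1, hK1⟩ := card_Gd C q
  obtain ⟨K2, hK2⟩ := card_Gd C (q + 1)
  refine ⟨|K| + K1 + T.card * K2, by positivity, fun ν M A hA => ?_⟩
  have hF : M.bad F ≤ M.bad (F ∪ C.S) := M.bad_mono Finset.subset_union_left
  have hS : M.bad C.S ≤ M.bad (F ∪ C.S) := M.bad_mono Finset.subset_union_right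
  have h1 : (gs C M q T A)ᶜ ⊆ (Aᶜ ∪ (Gd C M q)ᶜ) ∪
      Finset.univ.filter fun v => ∃ g ∈ T, M.act v g ∉ Gd C M (q + 1) := by
    intro v hv
    rw [Finset.mem_compl] at hv
    rw [Finset.mem_union, Finset.mem_union, Finset.mem_compl, Finset.mem_compl]
    by_contra hc
    rw [not_or, not_or, not_not, not_not] at hc
    apply hv
    unfold gs
    refine Finset.mem_filter.2 ⟨hc.1.1, hc.1.2, fun t ht => ?_⟩
    by_contra ht'
    exact hc.2 (Finset.mem_filter.2 ⟨Finset.mem_univ _, t, ht, ht'⟩)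
  have h2 : ((gs C M q T A)ᶜ).card ≤ ((Aᶜ).card + ((Gd C M q)ᶜ).card) +
      T.card * ((Gd C M (q + 1))ᶜ).card := by
    refine (Finset.card_le_card h1).trans ((Finset.card_union_le _ _).trans ?_)
    exact Nat.add_le_add (Finset.card_union_le _ _) (M.card_exists_not_mem _ _)
  have h3 : (((gs C M q T A)ᶜ).card : ℝ) ≤ (((Aᶜ).card : ℝ) + (((Gd C M q)ᶜ).card : ℝ)) +
      T.card * (((Gd C M (q + 1))ᶜ).card : ℝ) := by
    exact_mod_cast h2
  have h4 : ((Aᶜ).card : ℝ) ≤ |K| * M.bad (F ∪ C.S) := by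
    refine hA.trans ?_
    have h5 : (M.bad F : ℝ) ≤ M.bad (F ∪ C.S) := by exact_mod_cast hF
    calc K * (M.bad F : ℝ) ≤ |K| * M.bad F :=
          mul_le_mul_of_nonneg_right (le_abs_self K) (Nat.cast_nonneg _)
      _ ≤ |K| * M.bad (F ∪ C.S) := mul_le_mul_of_nonneg_left h5 (abs_nonneg K)
  have h6 : (((Gd C M q)ᶜ).card : ℝ) ≤ K1 * M.bad (F ∪ C.S) := by
    exact_mod_cast (hK1 ν M).trans (Nat.mul_le_mul_left K1 hS)
  have h7 : (((Gd C M (q + 1))ᶜ).card : ℝ) ≤ K2 * M.bad (F ∪ C.S) := by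
    exact_mod_cast (hK2 ν M).trans (Nat.mul_le_mul_left K2 hS)
  have h8 : (T.card : ℝ) * (((Gd C M (q + 1))ᶜ).card : ℝ) ≤
      T.card * (K2 * M.bad (F ∪ C.S)) :=
    mul_le_mul_of_nonneg_left h7 (Nat.cast_nonneg _)
  calc (((gs C M q T A)ᶜ).card : ℝ) ≤ _ := h3
    _ ≤ (|K| * M.bad (F ∪ C.S) + K1 * M.bad (F ∪ C.S)) + T.card * (K2 * M.bad (F ∪ C.S)) := by
        linarith
    _ = (|K| + K1 + T.card * K2) * M.bad (F ∪ C.S) := by ring

end Pool.Agent.HGR
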