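import Mathlib
import Pool.Agent.LT.Base
import Pool.Agent.LT.Bridge
import Pool.Agent.HGR.Defs

set_option autoImplicit false

/-!
# Project HGR, module Mdl: a finite `G`-set as a model

A finite `G`-set is an honest action, so a vertex is bad for `F` only if it is fixed by some
`h * g⁻¹`, `g ≠ h` in `F`; the push forward of the rows of the differentials along the orbit maps is
the matrix `dV`.
-/

open scoped BigOperators

namespace Pool.Agent.HGR

open Pool.Agent.LT

/-- the model of a finite `G`-set -/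
noncomputable def mdl {G : Type} [Group G] {V : Type} [MulAction G V] {ν : ℕ} (e : V ≃ Fin ν) :
    Mod G ν where
  act v g := e (g⁻¹ • e.symm v)
  act_one v := by simp
  inj g := by
    intro v w h
    simpa using h

theorem bad_mdl_le {G : Type} [Group G] (F : Finset G) :
    ∃ F' : Finset G, (1 : G) ∉ F' ∧ ∀ (V : Type) [Fintype V] [MulAction G V] (ν : ℕ)
      (e : V ≃ Fin ν), (mdl (G := G) e).bad F ≤ Nat.card {v : V // ∃ g ∈ F', g • v = v} := by
  classical
  refine ⟨F.offDiag.image fun x => x.2 * x.1⁻¹, ?_, ?_⟩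
  · intro h
    obtain ⟨x, hx, hx1⟩ := Finset.mem_image.1 h
    rw [Finset.mem_offDiag] at hx
    exact hx.2.2 (mul_inv_eq_one.1 hx1).symm
  · intro V _ _ ν e
    rw [Nat.card_eq_fintype_card, Fintype.card_subtype]
    unfold Mod.bad
    refine Finset.card_le_card_of_injOn (fun v => e.symm v) ?_ (fun v _ w _ h => e.symm.injective h)
    intro v hv
    have hv1 : v ∉ (mdl (G := G) e).good F := Finset.mem_compl.1 hv
    refine Finset.mem_coe.2 (Finset.mem_filter.2 ⟨Finset.mem_univ _, ?_⟩)
    by_contra hno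
    apply hv1
    unfold Mod.good
    refine Finset.mem_filter.2 ⟨Finset.mem_univ _, ?_, ?_⟩
    · intro g _ h _
      change e (h⁻¹ • e.symm (e (g⁻¹ • e.symm v))) = e ((g * h)⁻¹ • e.symm v)
      rw [Equiv.symm_apply_apply, mul_inv_rev, mul_smul]
    · intro g hg h hh hgh
      by_contra hne
      apply hno
      refine ⟨h * g⁻¹, Finset.mem_image.2 ⟨(g, h), Finset.mem_offDiag.2 ⟨hg, hh, hne⟩, rfl⟩, ?_⟩
      have h1 : g⁻¹ • e.symm v = h⁻¹ • e.symm v := e.injective hgh
      rw [mul_smul, h1, smul_inv_smul]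

private theorem mdl_push {G : Type} [Group G] {ν n : ℕ} (M : Mod G ν) (v : Fin ν)
    (a : G × Fin n →₀ ℤ) (y : Fin ν × Fin n) :
    push M v a y = a.sum fun z c => if (M.act v z.1, z.2) = y then c else 0 := by
  unfold push Finsupp.mapDomain
  rw [Finsupp.sum_apply, Finsupp.sum, Finsupp.sum]
  refine Finset.sum_congr rfl fun z _ => ?_
  rw [Finsupp.single_apply]

theorem push_dV {G : Type} [Group G] (C : FinRes G) (V : Type) [Fintype V] [DecidableEq V]
    [MulAction G V] {ν : ℕ} (e : V ≃ Fin ν) (p : ℕ) (v w : V) (k : Fin (C.n (p + 1)))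
    (i : Fin (C.n p)) :
    push (mdl (G := G) e) (e v) ((toCpl C).D (p + 1) k) (e w, i) = dV C V p (v, k) (w, i) := by
  suffices h1 : push (mdl (G := G) e) (e v) (toF (C.D p k)) (e w, i) = dV C V p (v, k) (w, i) from h1
  rw [mdl_push, toF_sum (C.D p k)
    (fun z c => if ((mdl (G := G) e).act (e v) z.1, z.2) = (e w, i) then c else 0)
    (fun a => ite_self 0) (fun a b c => by split_ifs <;> simp)]
  rw [Finset.sum_eq_single i]
  · change _ = (C.D p k i).coeff.sum fun g c => if g⁻¹ • v = w then c else 0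
    unfold Finsupp.sum
    refine Finset.sum_congr rfl fun g _ => ?_
    refine if_congr ?_ rfl rfl
    change (e (g⁻¹ • e.symm (e v)), i) = (e w, i) ↔ _
    rw [Equiv.symm_apply_apply, Prod.mk.injEq, e.apply_eq_iff_eq]
    exact and_iff_left rfl
  · intro j _ hj
    unfold Finsupp.sum
    refine Finset.sum_eq_zero fun g _ => if_neg ?_
    intro h
    exact hj (Prod.mk.inj h).2
  · intro h
    exact absurd (Finset.mem_univ i) h

end Pool.Agent.HGR
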