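import Mathlib
import Pool.Agent.LT.Base
import Pool.Agent.LT.Bridge
import Pool.Agent.HGR.Defs
import Pool.Agent.HGR.Mdl
import Pool.Agent.HGR.Dat1

set_option autoImplicit false

/-!
# Project HGR, module Dat2: property (H) for an honest action (paper tg_h51.md, section 2)

A cycle which vanishes outside the good set and satisfies the short equations is a boundary: the
homotopy `X.h` produces a chain supported in the set where the finite level differential is not
trimmed, and there the finite level differential is the differential of the complex `C(V)`.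
-/

open scoped BigOperators

namespace Pool.Agent.HGR

open Pool.Agent.LT

private lemma dat2_vecMul {G : Type} [Group G] (C : FinRes G) (V : Type) [Fintype V]
    [DecidableEq V] [MulAction G V] {ν : ℕ} (e : V ≃ Fin ν) (q : ℕ)
    (z : Fin ν × Fin (C.n (q + 1)) → ℤ)
    (hz : ∀ y, z y ≠ 0 → y.1 ∈ Gd (toCpl C) (mdl (G := G) e) (q + 1)) (w : V) (i : Fin (C.n q)) :
    (∑ y : Fin ν × Fin (C.n (q + 1)), z y * dM (toCpl C) (mdl (G := G) e) (q + 1) y (e w, i)) =
      ∑ y : V × Fin (C.n (q + 1)), z (e y.1, y.2) * dV C V q y (w, i) := by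
  rw [← Equiv.sum_comp (e.prodCongr (Equiv.refl (Fin (C.n (q + 1)))))]
  refine Finset.sum_congr rfl fun y _ => ?_
  change z (e y.1, y.2) * dM (toCpl C) (mdl (G := G) e) (q + 1) (e y.1, y.2) (e w, i) = _
  by_cases h : z (e y.1, y.2) = 0
  · rw [h, zero_mul, zero_mul]
  · have h1 : e y.1 ∈ Gd (toCpl C) (mdl (G := G) e) (q + 1) := hz _ h
    have h2 : dM (toCpl C) (mdl (G := G) e) (q + 1) (e y.1, y.2) (e w, i) =
        push (mdl (G := G) e) (e y.1) ((toCpl C).D (q + 1) y.2) (e w, i) := by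
      change (if e y.1 ∈ Gd (toCpl C) (mdl (G := G) e) (q + 1) then
        push (mdl (G := G) e) (e y.1) ((toCpl C).D (q + 1) y.2) else 0) (e w, i) = _
      rw [if_pos h1]
    rw [h2, push_dV]

theorem mem_bdy {G : Type} [Group G] (C : FinRes G) (p : ℕ) (V : Type) [Fintype V] [DecidableEq V]
    [MulAction G V] {ν : ℕ} (e : V ≃ Fin ν) (B F T : Finset G) (K θ : ℝ)
    (X : QD (toCpl C) (mdl (G := G) e) p B F T K θ) (x : V × Fin (C.n p) → ℤ)
    (hx : x ∈ Cyc C V p)
    (hA : ∀ y, e y.1 ∉ gs (toCpl C) (mdl (G := G) e) p T X.A → x y = 0)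
    (hphi : ∀ a, ∑ y : V × Fin (C.n p), X.phi a (e y.1, y.2) * x y = 0) :
    x ∈ Bdy C V p := by
  classical
  set x' : Fin ν × Fin ((toCpl C).nn (p + 1)) → ℤ := fun y => x (e.symm y.1, y.2) with hx'
  have hgs : ∀ y, x' y ≠ 0 → y.1 ∈ gs (toCpl C) (mdl (G := G) e) p T X.A := by
    intro y hy
    by_contra hc
    apply hy
    refine hA (e.symm y.1, y.2) ?_
    rw [Equiv.apply_symm_apply]
    exact hc
  have hgs2 : ∀ v, v ∈ gs (toCpl C) (mdl (G := G) e) p T X.A →
      v ∈ X.A ∧ v ∈ Gd (toCpl C) (mdl (G := G) e) p ∧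
        ∀ t ∈ T, (mdl (G := G) e).act v t ∈ Gd (toCpl C) (mdl (G := G) e) (p + 1) := by
    intro v hv
    unfold gs at hv
    exact Finset.mem_filter.1 hv
  have hin : InL X.A X.phi x' := by
    constructor
    · intro y hy
      by_contra hc
      exact hy (hgs2 _ (hgs y hc)).1
    · intro a
      rw [← hphi a]
      change ∑ y : Fin ν × Fin (C.n p), X.phi a y * x (e.symm y.1, y.2) = _
      rw [← Equiv.sum_comp (e.prodCongr (Equiv.refl (Fin (C.n p))))]
      refine Finset.sum_congr rfl fun y _ => ?_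
      change X.phi a (e y.1, y.2) * x (e.symm (e y.1), y.2) = _
      rw [Equiv.symm_apply_apply]
  obtain ⟨y, hy1, hy2⟩ := X.h_int x' hin
  have h1 : Matrix.vecMul x' (dM (toCpl C) (mdl (G := G) e) p) = 0 := by
    cases p with
    | zero =>
      funext w
      exact w.2.elim0
    | succ q =>
      have hx0 : Matrix.vecMul x (dV C V q) = 0 := LinearMap.mem_ker.1 hx
      funext w
      have h2 := dat2_vecMul C V e q x' (fun y hy => (hgs2 _ (hgs y hy)).2.1) (e.symm w.1) w.2
      rw [Equiv.apply_symm_apply] at h2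
      refine h2.trans ?_
      have h3 : (∑ y : V × Fin (C.n (q + 1)), x' (e y.1, y.2) * dV C V q y (e.symm w.1, w.2)) =
          ∑ y : V × Fin (C.n (q + 1)), x y * dV C V q y (e.symm w.1, w.2) := by
        refine Finset.sum_congr rfl fun y _ => ?_
        change x (e.symm (e y.1), y.2) * _ = _
        rw [Equiv.symm_apply_apply]
      refine h3.trans ?_
      exact congrFun hx0 (e.symm w.1, w.2)
  have h2 := hy2 h1
  have h3 : ∀ z, y z ≠ 0 → z.1 ∈ Gd (toCpl C) (mdl (G := G) e) (p + 1) := by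
    intro z hz
    have h4 : (∑ w, toV x' w * X.h w z) = (y z : ℝ) := congrFun hy1 z
    have h5 : (∑ w, toV x' w * X.h w z) ≠ 0 := by
      rw [h4]
      exact_mod_cast hz
    obtain ⟨w, -, hw⟩ := Finset.exists_ne_zero_of_sum_ne_zero h5
    have h6 : toV x' w ≠ 0 := left_ne_zero_of_mul hw
    have h7 : X.h w z ≠ 0 := right_ne_zero_of_mul hw
    obtain ⟨t, ht, hzt⟩ := X.h_loc w z h7
    rw [hzt]
    refine (hgs2 _ (hgs w ?_)).2.2 t ht
    intro h8
    apply h6
    unfold toV
    rw [h8]
    simp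
  refine LinearMap.mem_range.2 ⟨fun z => y (e z.1, z.2), ?_⟩
  funext w
  have h4 := dat2_vecMul C V e p y h3 w.1 w.2
  refine h4.symm.trans ?_
  have h5 : (∑ z : Fin ν × Fin (C.n (p + 1)), y z * dM (toCpl C) (mdl (G := G) e) (p + 1) z
      (e w.1, w.2)) = x' (e w.1, w.2) := congrFun h2 (e w.1, w.2)
  refine h5.trans ?_
  change x (e.symm (e w.1), w.2) = x w
  rw [Equiv.symm_apply_apply]

end Pool.Agent.HGR
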