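import Mathlib
import Pool.Agent.LT.Base
import Pool.Agent.LT.Amen
import Pool.Agent.LT.QBase
import Pool.Agent.LT.QStep

set_option autoImplicit false

/-!
# Project HGR, module Qs: the statement `Q_q` for all positions (copy of `LT.qs_all` with few imports)
-/

namespace Pool.Agent.HGR

open Pool.Agent.LT

theorem qs_all' {G : Type} [Group G] (C : Cpl G) (N : Subgroup G) [N.Normal] (hN : FN N)
    (hinf : (N : Set G).Infinite) : ∀ q, QS C N q
  | 0 => qs_zero C N hN hinf
  | q + 1 => qs_succ C N hN q (qs_all' C N hN hinf q)

end Pool.Agent.HGR
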