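import Mathlib
import Pool.Agent.LT.Base
import Pool.Agent.LT.Bridge

import Pool.Agent.HGR.Qs
import Pool.Agent.HGR.Defs
import Pool.Agent.HGR.Mdl
import Pool.Agent.HGR.Dat1
import Pool.Agent.HGR.Dat2

set_option autoImplicit false

/-!
# Project HGR, module Dat3: the short equations for a finite `G`-set (tg_h51.md, section 2)

PLAN. `qs_all' (toCpl C) N hN hinf p θ hθ` gives `B, F0, T, K0`; `K'` from `card_gs` (for `K0`), `F` from
`bad_mdl_le (F0 ∪ C.S)`; `K := K0 + K' * C.n p`. For `V` let `e : V ≃ Fin (card V)`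
(`Fintype.equivFin`), `X : QD ..`. `I := X.ι ⊕ {y : V × Fin (C.n p) // e y.1 ∉ gs ..}` with
`Φ (inl a) y := X.phi a (e y.1, y.2)`, `Φ (inr y0) := Pi.single y0 1`. All rows are nonzero; the `ℓ¹` norm
of the row `inr y0` is `1`, so its cost is `1 + log 1 = 1`, and the number of such rows is
`|gsᶜ| * C.n p`. The rows `inl a` have the same `ℓ¹` norms as `X.phi a` (reindexing). The cost is at
most `θ ν + K0 bad F0 + n K' bad (F0 ∪ S) ≤ θ ν + K * Nat.card {..}` (`bad_mono`). The last property is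
`mem_bdy` (`Φ.mulVec x = 0` at `inr y0` says `x y0 = 0`).
-/

open scoped BigOperators

namespace Pool.Agent.HGR

open Pool.Agent.LT

open Classical in
private theorem Dat3_card {V : Type} [Fintype V] {ν n : ℕ} (e : V ≃ Fin ν) (g : Finset (Fin ν)) :
    Fintype.card {y : V × Fin n // e y.1 ∉ g} ≤ (gᶜ).card * n := by
  have h1 : (gᶜ).card * n = (gᶜ ×ˢ (Finset.univ : Finset (Fin n))).card := by
    rw [Finset.card_product, Finset.card_univ, Fintype.card_fin]
  rw [h1, Fintype.card_subtype]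
  refine Finset.card_le_card_of_injOn (fun y => (e y.1, y.2)) ?_ ?_
  · intro y hy
    have hy' := (Finset.mem_filter.1 (Finset.mem_coe.1 hy)).2
    exact Finset.mem_coe.2 (Finset.mem_product.2 ⟨Finset.mem_compl.2 hy', Finset.mem_univ _⟩)
  · intro y _ z _ h
    have h' : (e y.1, y.2) = (e z.1, z.2) := h
    exact Prod.ext (e.injective (Prod.mk.inj h').1) (Prod.mk.inj h').2

private theorem Dat3_sum {V : Type} [Fintype V] {ν n : ℕ} (e : V ≃ Fin ν)
    (f : Fin ν × Fin n → ℝ) : ∑ y : V × Fin n, f (e y.1, y.2) = ∑ y, f y :=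
  Equiv.sum_comp (e.prodCongr (Equiv.refl (Fin n))) f

theorem exists_data {G : Type} [Group G] (C : FinRes G) (N : Subgroup G) [N.Normal] (hN : FN N)
    (hinf : (N : Set G).Infinite) (p : ℕ) (θ : ℝ) (hθ : 0 < θ) :
    ∃ (F : Finset G) (K : ℝ), (1 : G) ∉ F ∧ 0 ≤ K ∧
      ∀ (V : Type) [Fintype V] [DecidableEq V] [MulAction G V],
        ∃ (I : Type) (_ : Fintype I) (_ : DecidableEq I) (Φ : Matrix I (V × Fin (C.n p)) ℤ),
          (∀ a, Φ a ≠ 0) ∧
          (∑ a, (1 + Real.log (∑ x, |(Φ a x : ℝ)|)) ≤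
            θ * Fintype.card V + K * Nat.card {v : V // ∃ g ∈ F, g • v = v}) ∧
          ∀ x ∈ Cyc C V p, Φ.mulVec x = 0 → x ∈ Bdy C V p := by
  classical
  obtain ⟨B, F0, T, K0, -, hK0, hX⟩ := qs_all' (toCpl C) N hN hinf p θ hθ
  obtain ⟨K', hK', hgs⟩ := card_gs (toCpl C) p F0 T K0
  obtain ⟨F, hF1, hF⟩ := bad_mdl_le (G := G) (F0 ∪ (toCpl C).S)
  refine ⟨F, K0 + K' * C.n p, hF1, by positivity, ?_⟩
  intro V _ _ _
  obtain ⟨e⟩ : Nonempty (V ≃ Fin (Fintype.card V)) := ⟨Fintype.equivFin V⟩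
  obtain ⟨X⟩ := hX (Fintype.card V) (mdl (G := G) e)
  have hb := hF V (Fintype.card V) e
  have hg := hgs (Fintype.card V) (mdl (G := G) e) X.A X.A_card
  have hbad : (mdl (G := G) e).bad F0 ≤ (mdl (G := G) e).bad (F0 ∪ (toCpl C).S) :=
    Mod.bad_mono _ Finset.subset_union_left
  letI : Fintype X.ι := X.inst
  set g : Finset (Fin (Fintype.card V)) := gs (toCpl C) (mdl (G := G) e) p T X.A with hgdef
  let Φ : Matrix (X.ι ⊕ {y : V × Fin (C.n p) // e y.1 ∉ g}) (V × Fin (C.n p)) ℤ :=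
    fun i y => Sum.elim (fun a => X.phi a (e y.1, y.2)) (fun y0 => if y = y0.1 then 1 else 0) i
  have hl : ∀ a y, Φ (Sum.inl a) y = X.phi a (e y.1, y.2) := fun a y => rfl
  have hr : ∀ y0 y, Φ (Sum.inr y0) y = if y = y0.1 then 1 else 0 := fun y0 y => rfl
  refine ⟨X.ι ⊕ {y : V × Fin (C.n p) // e y.1 ∉ g}, inferInstance, Classical.decEq _, Φ,
    ?_, ?_, ?_⟩
  · rintro (a | y0) h0
    · refine X.phi_ne a (funext fun x => ?_)
      have h1 := congrFun h0 (e.symm x.1, x.2)
      rw [hl, Equiv.apply_symm_apply] at h1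
      exact h1
    · have h1 := congrFun h0 y0.1
      rw [hr, if_pos rfl] at h1
      exact one_ne_zero h1
  · rw [Fintype.sum_sum_type]
    have h1 : ∑ a : X.ι, (1 + Real.log (∑ x, |(Φ (Sum.inl a) x : ℝ)|)) =
        ∑ a : X.ι, (1 + Real.log (∑ x, |(X.phi a x : ℝ)|)) := by
      refine Finset.sum_congr rfl fun a _ => ?_
      congr 2
      exact Dat3_sum e fun x => |(X.phi a x : ℝ)|
    have h2 : ∑ y0 : {y : V × Fin (C.n p) // e y.1 ∉ g},
        (1 + Real.log (∑ x, |(Φ (Sum.inr y0) x : ℝ)|)) ≤ (gᶜ).card * (C.n p : ℝ) := by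
      have h3 : ∀ y0 : {y : V × Fin (C.n p) // e y.1 ∉ g},
          (1 + Real.log (∑ x, |(Φ (Sum.inr y0) x : ℝ)|)) = 1 := by
        intro y0
        have h4 : ∑ x, |(Φ (Sum.inr y0) x : ℝ)| = 1 := by
          rw [Finset.sum_eq_single y0.1]
          · rw [hr, if_pos rfl]
            norm_num
          · intro x _ hx
            rw [hr, if_neg hx]
            norm_num
          · intro h
            exact absurd (Finset.mem_univ _) h
        rw [h4, Real.log_one, add_zero]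
      rw [Finset.sum_congr rfl fun y0 _ => h3 y0, Finset.sum_const, Finset.card_univ, nsmul_eq_mul,
        mul_one]
      exact_mod_cast Dat3_card e g
    have h5 : (mdl (G := G) e).bad F0 ≤ Nat.card {v : V // ∃ g ∈ F, g • v = v} := hbad.trans hb
    have h5' : ((mdl (G := G) e).bad F0 : ℝ) ≤ (Nat.card {v : V // ∃ g ∈ F, g • v = v} : ℝ) := by
      exact_mod_cast h5
    have hb' : ((mdl (G := G) e).bad (F0 ∪ (toCpl C).S) : ℝ) ≤
        (Nat.card {v : V // ∃ g ∈ F, g • v = v} : ℝ) := by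
      exact_mod_cast hb
    have h6 := X.cost
    have h7 : ((gᶜ).card : ℝ) * (C.n p : ℝ) ≤
        K' * (Nat.card {v : V // ∃ g ∈ F, g • v = v} : ℝ) * (C.n p : ℝ) :=
      mul_le_mul_of_nonneg_right (hg.trans (mul_le_mul_of_nonneg_left hb' hK')) (Nat.cast_nonneg _)
    have h8 : K0 * ((mdl (G := G) e).bad F0 : ℝ) ≤
        K0 * (Nat.card {v : V // ∃ g ∈ F, g • v = v} : ℝ) := mul_le_mul_of_nonneg_left h5' hK0
    rw [h1]
    refine (add_le_add h6 h2).trans ?_
    linarith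
  · intro x hx h0
    refine mem_bdy C p V e B F0 T K0 θ X x hx ?_ ?_
    · intro y hy
      have h1 := congrFun h0 (Sum.inr ⟨y, hy⟩)
      rw [Matrix.mulVec, dotProduct, Finset.sum_eq_single y] at h1
      · rw [hr, if_pos rfl, one_mul] at h1
        exact h1
      · intro z _ hz
        rw [hr, if_neg hz, zero_mul]
      · intro h
        exact absurd (Finset.mem_univ _) h
    · intro a
      exact congrFun h0 (Sum.inl a)

end Pool.Agent.HGR
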