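import Mathlib
import Pool.Agent.LT.Base
import Pool.Agent.LT.LAVol
import Pool.Agent.LT.LADet
import Pool.Agent.LT.LAExt
import Pool.Agent.HGR.Defs
import Pool.Agent.HGR.Asy

set_option autoImplicit false

/-!
# Project HGR, module DetA: `ldet'` as a volume (tg_h51.md, D2)

PLAN. `M := D Dᵀ`. By `LT.exists_ext_on (A := O)` (its rows are independent, `li_of_on`) there is `O2`
(`Fin l`), `ON`, `O * O2ᵀ = 0`, `r + l = card m`. The rows `w` of `O2` satisfy `O w = 0`, so `w D = 0`
and `O2 * D = 0`. `W := fromRows O O2` is `ON` (`Matrix.fromRows_mul_fromCols`..) and square up to an equivalence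
`Fin r ⊕ Fin l ≃ m`, so `det (W (M + δ²) Wᵀ) = det (M + δ²)` (`det (W Wᵀ) = 1`; e.g. reindex `W` to a
square matrix `W'` with `W' W'ᵀ = 1`). `W (M + δ²) Wᵀ` is block diagonal with the blocks `O M Oᵀ + δ²`
and `δ²`. So `log det (M + δ²) = log det (O M Oᵀ + δ²) + 2 l log δ`. `O M Oᵀ = (O D) (O D)ᵀ` is positive
definite: `u O D = 0` implies (by `hker`) `O (u O) = 0`, i.e. `u = 0`; so its determinant is positive and
`log det (O M Oᵀ + δ²) → log det (O M Oᵀ) = 2 log vol (O D)` (continuity of the determinant). Conclude with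
`tendsto_ldet` and `asy_unique`.
-/

open scoped BigOperators Topology

namespace Pool.Agent.HGR

open Pool.Agent.LT

private theorem DetA_li {m n : Type} [Fintype m] [DecidableEq m] [Fintype n] [DecidableEq n]
    (D : Matrix m n ℝ) {r : ℕ} (O : Matrix (Fin r) m ℝ) (hO : ON O)
    (hker : ∀ x : m → ℝ, Matrix.vecMul x D = 0 ↔ O.mulVec x = 0) : LI (O * D) := by
  rw [li_iff_vecMul_injective]
  intro u v huv
  have h1 : Matrix.vecMul (u - v) (O * D) = 0 := by
    rw [Matrix.sub_vecMul]
    exact sub_eq_zero.mpr huv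
  rw [← Matrix.vecMul_vecMul] at h1
  have h2 := (hker _).1 h1
  have h3 : O.mulVec (Matrix.vecMul (u - v) O) = u - v := by
    rw [← Matrix.mulVec_transpose, Matrix.mulVec_mulVec]
    unfold ON at hO
    rw [hO, Matrix.one_mulVec]
  rw [h3] at h2
  exact sub_eq_zero.mp h2

private theorem DetA_det {m : Type} [Fintype m] [DecidableEq m] {r l : ℕ}
    (W : Matrix (Fin r ⊕ Fin l) m ℝ) (hW : ON W) (hc : r + l = Fintype.card m)
    (X : Matrix m m ℝ) : (W * X * W.transpose).det = X.det := by
  have hcard : Fintype.card (Fin r ⊕ Fin l) = Fintype.card m := by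
    rw [Fintype.card_sum, Fintype.card_fin, Fintype.card_fin, hc]
  let e : Fin r ⊕ Fin l ≃ m := Fintype.equivOfCardEq hcard
  let W' : Matrix m m ℝ := W.submatrix e.symm id
  have h1 : W' * W'.transpose = 1 := by
    show (W.submatrix e.symm id) * (W.submatrix e.symm id).transpose = 1
    rw [Matrix.transpose_submatrix]
    have h2 : (W.submatrix e.symm id) * (W.transpose.submatrix id e.symm) =
        (W * W.transpose).submatrix e.symm e.symm := by
      ext i j
      simp [Matrix.mul_apply, Matrix.submatrix_apply]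
    rw [h2]
    unfold ON at hW
    rw [hW]
    exact Matrix.submatrix_one_equiv e.symm
  have h3 : W' * X * W'.transpose = (W * X * W.transpose).submatrix e.symm e.symm := by
    ext i j
    simp [W', Matrix.mul_apply, Matrix.submatrix_apply]
  have h4 : W'.det * W'.det = 1 := by
    have := congrArg Matrix.det h1
    rwa [Matrix.det_mul, Matrix.det_transpose, Matrix.det_one] at this
  have h5 : (W * X * W.transpose).det = (W' * X * W'.transpose).det := by
    rw [h3, Matrix.det_submatrix_equiv_self]
  rw [h5, Matrix.det_mul, Matrix.det_mul, Matrix.det_transpose]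
  calc W'.det * X.det * W'.det = (W'.det * W'.det) * X.det := by ring
    _ = X.det := by rw [h4, one_mul]

private theorem DetA_block {m n : Type} [Fintype m] [DecidableEq m] [Fintype n] [DecidableEq n]
    (D : Matrix m n ℝ) {r l : ℕ} (O : Matrix (Fin r) m ℝ) (O2 : Matrix (Fin l) m ℝ)
    (hO : ON O) (hO2 : ON O2) (h12 : O * O2.transpose = 0) (hD : O2 * D = 0)
    (hc : r + l = Fintype.card m) (t : ℝ) :
    (D * D.transpose + t • (1 : Matrix m m ℝ)).det =
      ((O * D) * (O * D).transpose + t • (1 : Matrix (Fin r) (Fin r) ℝ)).det * t ^ l := by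
  have h21 : O2 * O.transpose = 0 := by
    have := congrArg Matrix.transpose h12
    rwa [Matrix.transpose_mul, Matrix.transpose_transpose, Matrix.transpose_zero] at this
  have hDt : D.transpose * O2.transpose = 0 := by
    rw [← Matrix.transpose_mul, hD, Matrix.transpose_zero]
  unfold ON at hO hO2
  have hW : ON (Matrix.fromRows O O2) := by
    unfold ON
    rw [Matrix.transpose_fromRows, Matrix.fromRows_mul_fromCols, hO, hO2, h12, h21,
      Matrix.fromBlocks_one]
  rw [← DetA_det (Matrix.fromRows O O2) hW hc]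
  have hA : O * (D * D.transpose + t • (1 : Matrix m m ℝ)) * O.transpose =
      (O * D) * (O * D).transpose + t • (1 : Matrix (Fin r) (Fin r) ℝ) := by
    rw [Matrix.mul_add, Matrix.add_mul, Matrix.mul_smul, Matrix.smul_mul, Matrix.mul_one, hO,
      Matrix.transpose_mul, Matrix.mul_assoc, Matrix.mul_assoc, Matrix.mul_assoc]
  have hB : O * (D * D.transpose + t • (1 : Matrix m m ℝ)) * O2.transpose = 0 := by
    rw [Matrix.mul_add, Matrix.add_mul, Matrix.mul_smul, Matrix.smul_mul, Matrix.mul_one, h12,
      smul_zero, add_zero, Matrix.mul_assoc, Matrix.mul_assoc, hDt, Matrix.mul_zero,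
      Matrix.mul_zero]
  have hC : O2 * (D * D.transpose + t • (1 : Matrix m m ℝ)) * O.transpose = 0 := by
    rw [Matrix.mul_add, Matrix.add_mul, Matrix.mul_smul, Matrix.smul_mul, Matrix.mul_one, h21,
      smul_zero, add_zero, ← Matrix.mul_assoc, hD, Matrix.zero_mul, Matrix.zero_mul]
  have hE : O2 * (D * D.transpose + t • (1 : Matrix m m ℝ)) * O2.transpose =
      t • (1 : Matrix (Fin l) (Fin l) ℝ) := by
    rw [Matrix.mul_add, Matrix.add_mul, Matrix.mul_smul, Matrix.smul_mul, Matrix.mul_one, hO2,
      ← Matrix.mul_assoc, hD, Matrix.zero_mul, Matrix.zero_mul, zero_add]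
  rw [Matrix.transpose_fromRows, Matrix.fromRows_mul, Matrix.fromRows_mul_fromCols, hA, hB, hC, hE,
    Matrix.det_fromBlocks_zero₁₂, Matrix.det_smul, Matrix.det_one, mul_one, Fintype.card_fin]

theorem vol_on_ker {m n : Type} [Fintype m] [DecidableEq m] [Fintype n] [DecidableEq n]
    (D : Matrix m n ℝ) {r : ℕ} (O : Matrix (Fin r) m ℝ) (hO : ON O)
    (hker : ∀ x : m → ℝ, Matrix.vecMul x D = 0 ↔ O.mulVec x = 0) :
    Real.log (vol (O * D)) = 1 / 2 * ldet' (D * D.transpose) := by
  obtain ⟨l, O2, hO2, h12, hc⟩ := exists_ext_on O (li_of_on O hO)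
  rw [Fintype.card_fin] at hc
  have hD : O2 * D = 0 := by
    ext i j
    have h1 : O.mulVec (O2 i) = 0 := by
      funext a
      have h2 := congrFun (congrFun h12 a) i
      rw [Matrix.mul_apply] at h2
      exact h2
    have h3 := congrFun ((hker (O2 i)).2 h1) j
    exact h3
  have hli := DetA_li D O hO hker
  have hpd := gram_posDef _ hli
  obtain ⟨κ, hκ⟩ := tendsto_ldet (D * D.transpose) (gram_posSemidef D)
  have hlim : Filter.Tendsto (fun δ : ℝ =>
      Real.log (D * D.transpose + (δ ^ 2) • (1 : Matrix m m ℝ)).det - (2 * l) * Real.log δ)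
      (𝓝[>] 0) (𝓝 (Real.log ((O * D) * (O * D).transpose).det)) := by
    have h0 : Filter.Tendsto (fun δ : ℝ =>
        ((O * D) * (O * D).transpose + (δ ^ 2) • (1 : Matrix (Fin r) (Fin r) ℝ)).det)
        (𝓝 0) (𝓝 ((O * D) * (O * D).transpose).det) := by
      have h1 : Continuous (fun δ : ℝ =>
          ((O * D) * (O * D).transpose + (δ ^ 2) • (1 : Matrix (Fin r) (Fin r) ℝ)).det) := by
        refine Continuous.matrix_det ?_
        exact continuous_const.add ((continuous_pow 2).smul continuous_const)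
      have h2 := h1.tendsto 0
      have h3 : ((O * D) * (O * D).transpose +
          ((0 : ℝ) ^ 2) • (1 : Matrix (Fin r) (Fin r) ℝ)) = (O * D) * (O * D).transpose := by
        rw [zero_pow two_ne_zero, zero_smul, add_zero]
      rw [h3] at h2
      exact h2
    have h4 := (h0.log hpd.det_pos.ne').mono_left (nhdsWithin_le_nhds (s := Set.Ioi 0))
    have h5 := (h0.mono_left (nhdsWithin_le_nhds (s := Set.Ioi 0))).eventually
      (lt_mem_nhds hpd.det_pos)
    refine h4.congr' ?_
    filter_upwards [self_mem_nhdsWithin, h5] with δ hδ hδ2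
    have hδ0 : (0 : ℝ) < δ := hδ
    rw [DetA_block D O O2 hO hO2 h12 hD hc, Real.log_mul hδ2.ne' (by positivity), ← pow_mul,
      Real.log_pow]
    push_cast
    ring
  have h6 := asy_unique _ _ _ _ _ hκ hlim
  rw [h6]
  unfold vol
  rw [Real.log_sqrt hpd.det_pos.le]
  ring

end Pool.Agent.HGR
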