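import Mathlib
import Pool.Agent.LT.Base
import Pool.Agent.LT.LAVol
import Pool.Agent.LT.LAProj
import Pool.Agent.LT.LAExt
import Pool.Agent.HGR.Defs
import Pool.Agent.HGR.DetA
import Pool.Agent.HGR.Cmp

set_option autoImplicit false

/-!
# Project HGR, module DetB: the volume of the image of a complement of the kernel (tg_h51.md, D2)

`Q = toR c * prj (toR k)` has volume `1 / vol (toR k)` and `Q * toR D = toR (c * D)`; with an orthonormal
basis `O` of the row space of `Q`, `Q = T * O`, the volume of `O * toR D` is given by `vol_on_ker`.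
-/

open scoped BigOperators

namespace Pool.Agent.HGR

open Pool.Agent.LT

private theorem DetB_fac {X : Type} [Fintype X] {b : ℕ} (Q O : Matrix (Fin b) X ℝ) (h : rs O = rs Q) :
    ∃ T : Matrix (Fin b) (Fin b) ℝ, Q = T * O := by
  have h1 : ∀ i, ∃ c : Fin b → ℝ, Matrix.vecMul c O = Q i := by
    intro i
    have h2 : Q i ∈ rs Q := Submodule.subset_span ⟨i, rfl⟩
    rw [← h, mem_rs] at h2
    exact h2
  choose T hT using h1
  refine ⟨Matrix.of T, ?_⟩
  ext i j
  rw [← hT i]
  rfl

private theorem DetB_on {X : Type} [Fintype X] [DecidableEq X] {b : ℕ} (Q : Matrix (Fin b) X ℝ) (h : LI Q) :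
    ∃ O : Matrix (Fin b) X ℝ, ON O ∧ rs O = rs Q := by
  have h1 := exists_on_basis (rs Q)
  have h2 : Module.finrank ℝ (rs Q) = b := by
    rw [finrank_rs, rank_of_li Q h, Fintype.card_fin]
  rw [h2] at h1
  exact h1

private theorem DetB_inj {m n : Type} [Fintype m] [Fintype n] (A : Matrix m n ℝ) (h : LI A) (v : m → ℝ)
    (hv : Matrix.vecMul v A = 0) : v = 0 := by
  have h1 := (li_iff_vecMul_injective A).1 h
  apply h1
  simp only [hv, Matrix.zero_vecMul]

private theorem DetB_gram {m n : Type} [Fintype m] [DecidableEq m] [Fintype n] (A : Matrix m n ℝ) (h : LI A) (v : m → ℝ)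
    (hv : A.mulVec (Matrix.vecMul v A) = 0) : v = 0 := by
  apply DetB_inj A h
  have h1 : Matrix.vecMul v A ⬝ᵥ Matrix.vecMul v A = 0 := by
    rw [← Matrix.dotProduct_mulVec, hv, dotProduct_zero]
  exact dotProduct_self_eq_zero.1 h1

theorem vol_compl {X W : Type} [Fintype X] [DecidableEq X] [Fintype W] [DecidableEq W] {a b : ℕ}
    (k : Matrix (Fin a) X ℤ) (c : Matrix (Fin b) X ℤ) (U : Matrix X (Fin a ⊕ Fin b) ℤ)
    (h1 : Matrix.fromRows k c * U = 1) (h2 : U * Matrix.fromRows k c = 1) (D : Matrix X W ℤ)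
    (hk : k * D = 0) (hc : LI (toR (c * D))) :
    Real.log (vol (toR (c * D))) =
      1 / 2 * ldet' (toR D * (toR D).transpose) - Real.log (vol (toR k)) := by
  obtain ⟨hv1, hliW⟩ := vol_unimod (Matrix.fromRows k c) U h1 h2
  have hfr : toR (Matrix.fromRows k c) = Matrix.fromRows (toR k) (toR c) := by
    ext i j
    rcases i with i | i <;> rfl
  have hUW : toR U * Matrix.fromRows (toR k) (toR c) = 1 := by
    rw [← hfr, ← toR_mul, h2]
    ext i j
    simp [toR, Matrix.one_apply]
  rw [hfr] at hv1 hliW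
  have hliK : LI (toR k) := by
    have h := hliW.comp (Sum.inl : Fin a → Fin a ⊕ Fin b) Sum.inl_injective
    exact h
  have hKD : toR k * toR D = 0 := by
    rw [← toR_mul, hk]
    ext i j
    simp [toR]
  have hcD : toR (c * D) = toR c * toR D := toR_mul c D
  rw [hcD] at hc ⊢
  generalize toR k = K at *
  generalize toR c = C at *
  generalize toR D = E at *
  generalize toR U = V at *
  rw [vol_fromRows K C hliK] at hv1
  have hprjE : prj K * E = E := by
    unfold prj
    rw [Matrix.sub_mul, Matrix.one_mul, Matrix.mul_assoc _ K E, hKD, Matrix.mul_zero, sub_zero]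
  have hQE : C * prj K * E = C * E := by
    rw [Matrix.mul_assoc, hprjE]
  have hQK : C * prj K * K.transpose = 0 := by
    have h3 := congrArg Matrix.transpose (mul_prj K hliK)
    rw [Matrix.transpose_mul, prj_transpose, Matrix.transpose_zero] at h3
    rw [Matrix.mul_assoc, h3, Matrix.mul_zero]
  have hCQ : C = C * prj K + C * (K.transpose * (K * K.transpose)⁻¹) * K := by
    have h3 : prj K + K.transpose * (K * K.transpose)⁻¹ * K = 1 := by
      unfold prj
      rw [sub_add_cancel]
    calc C = C * (prj K + K.transpose * (K * K.transpose)⁻¹ * K) := by rw [h3, Matrix.mul_one]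
      _ = C * prj K + C * (K.transpose * (K * K.transpose)⁻¹) * K := by
        rw [Matrix.mul_add, ← Matrix.mul_assoc]
  have hvK := vol_pos K hliK
  have hvQ : 0 < vol (C * prj K) := by
    have h3 := vol_nonneg (C * prj K)
    rcases h3.lt_or_eq with h4 | h4
    · exact h4
    · rw [← h4, mul_zero] at hv1
      exact absurd hv1 zero_ne_one
  have hliQ : LI (C * prj K) := li_of_vol_pos _ hvQ
  generalize hQ : C * prj K = Q at *
  obtain ⟨O, hO1, hO2⟩ := DetB_on Q hliQ
  obtain ⟨T, hT⟩ := DetB_fac Q O hO2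
  have hvT : vol Q = |T.det| := by
    rw [hT, vol_mul, vol_of_on O hO1, mul_one]
  have hdT : T.det ≠ 0 := by
    intro h3
    rw [hvT, h3, abs_zero] at hvQ
    exact lt_irrefl _ hvQ
  have hdec : ∀ x : X → ℝ, ∃ u v, x = Matrix.vecMul u K + Matrix.vecMul v Q := by
    intro x
    have h3 : Matrix.vecMul (Matrix.vecMul x V) (Matrix.fromRows K C) = x := by
      rw [Matrix.vecMul_vecMul, hUW, Matrix.vecMul_one]
    rw [Matrix.vecMul_fromRows] at h3
    generalize Matrix.vecMul x V ∘ Sum.inl = u at h3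
    generalize Matrix.vecMul x V ∘ Sum.inr = v at h3
    refine ⟨u + Matrix.vecMul v (C * (K.transpose * (K * K.transpose)⁻¹)), v, ?_⟩
    rw [hCQ, Matrix.vecMul_add] at h3
    rw [Matrix.add_vecMul, Matrix.vecMul_vecMul, ← h3]
    abel
  have hker : ∀ x : X → ℝ, Matrix.vecMul x E = 0 ↔ O.mulVec x = 0 := by
    intro x
    obtain ⟨u, v, rfl⟩ := hdec x
    have e1 : Matrix.vecMul (Matrix.vecMul u K + Matrix.vecMul v Q) E = Matrix.vecMul v (C * E) := by
      rw [Matrix.add_vecMul, Matrix.vecMul_vecMul, Matrix.vecMul_vecMul, hKD, Matrix.vecMul_zero, zero_add, hQE]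
    have e2 : Q.mulVec (Matrix.vecMul u K + Matrix.vecMul v Q) = Q.mulVec (Matrix.vecMul v Q) := by
      rw [Matrix.mulVec_add]
      have h3 : Q.mulVec (Matrix.vecMul u K) = 0 := by
        rw [← Matrix.mulVec_transpose, Matrix.mulVec_mulVec, hQK, Matrix.zero_mulVec]
      rw [h3, zero_add]
    constructor
    · intro h3
      rw [e1] at h3
      have h4 := DetB_inj _ hc v h3
      have h5 : Q.mulVec (Matrix.vecMul u K + Matrix.vecMul v Q) = 0 := by
        rw [e2, h4, Matrix.zero_vecMul, Matrix.mulVec_zero]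
      have h8 : ∀ y, Q.mulVec y = T.mulVec (O.mulVec y) := by
        intro y
        rw [Matrix.mulVec_mulVec, ← hT]
      rw [h8] at h5
      by_contra h6
      exact hdT (Matrix.exists_mulVec_eq_zero_iff.1 ⟨_, h6, h5⟩)
    · intro h3
      have h5 : Q.mulVec (Matrix.vecMul u K + Matrix.vecMul v Q) = 0 := by
        conv_lhs => lhs; rw [hT]
        rw [← Matrix.mulVec_mulVec, h3, Matrix.mulVec_zero]
      rw [e2] at h5
      have h6 := DetB_gram Q hliQ v h5
      rw [e1, h6, Matrix.zero_vecMul]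
  have hfin := vol_on_ker E O hO1 hker
  have hvC : vol (C * E) = |T.det| * vol (O * E) := by
    rw [← hQE, hT, Matrix.mul_assoc, vol_mul]
  have hpos := vol_pos _ hc
  have hOE : vol (O * E) ≠ 0 := by
    intro h3
    rw [hvC, h3, mul_zero] at hpos
    exact lt_irrefl _ hpos
  rw [hvC, Real.log_mul (abs_ne_zero.2 hdT) hOE, hfin, ← hvT]
  have h7 := congrArg Real.log hv1
  rw [Real.log_mul hvK.ne' hvQ.ne', Real.log_one] at h7
  linarith

end Pool.Agent.HGR
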