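import Mathlib
import Pool.Agent.LT.Base
import Pool.Agent.LT.LAVol
import Pool.Agent.LT.LAExt
import Pool.Agent.HGR.Defs

set_option autoImplicit false

/-!
# Project HGR, module Rat: real row spaces of integer matrices and integer vectors

PLAN. `int_mem_rs_li`: `toV x = c' ᵥ* toR A` (`mem_rs`), `k := (A * Aᵀ).det ≠ 0` (`vol_pos`, `vol_sq`, `LI`),
`c := x ᵥ* (Aᵀ * (A * Aᵀ).adjugate)`; over `ℝ`: `c ᵥ* A = c' A Aᵀ adj(A Aᵀ) A = det • (c' A) = k • x`;
go back to `ℤ` with `toV_injective`.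
`int_mem_rs`: choose a subset `s` of the rows of `A` which is `LI` and spans `rs (toR A)` (`LT.exists_ext`
applied to an empty matrix, `Fin 0`), apply `int_mem_rs_li` to `A.submatrix Subtype.val id` (reindexed by
`Fin`, or state the first lemma for general finite index types as here) and extend `c` by `0`.
`mem_sat_iff`: `x ∈ Sat (range A.vecMulLinear)` iff `k • x = c ᵥ* A` for some `k ≠ 0`, `c`; `→` divide by `k`.
`sat_le`: `Z` saturated, `B ≤ Z` implies `Sat B ≤ Z`. `sat_sat`: `Sat B` is saturated.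
`rs_zb_sat`: if the rows of `y` are a basis of `Sat (range A.vecMulLinear)` then
`rs (toR y) = rs (toR A)`.
`mem_of_rs_zb`: if the rows of `z` are a basis of the saturated group `Z` and `toV x ∈ rs (toR z)`
then `x ∈ Z`.
-/

open scoped BigOperators

namespace Pool.Agent.HGR

open Pool.Agent.LT

private lemma Rat_det {m : Type} [Fintype m] [DecidableEq m] (M : Matrix m m ℤ) :
    (toR M).det = ((M.det : ℤ) : ℝ) := by
  have := (Int.castRingHom ℝ).map_det M
  simpa [toR] using this.symm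

private lemma Rat_smul {n : Type} (k : ℤ) (x : n → ℤ) : toV (k • x) = (k : ℝ) • toV x := by
  funext i
  show (((k • x) i : ℤ) : ℝ) = (k : ℝ) * (x i : ℝ)
  rw [Pi.smul_apply, smul_eq_mul, Int.cast_mul]

theorem int_mem_rs_li {m n : Type} [Fintype m] [DecidableEq m] [Fintype n] (A : Matrix m n ℤ)
    (hA : LI (toR A)) (x : n → ℤ) (h : toV x ∈ rs (toR A)) :
    ∃ (k : ℤ) (c : m → ℤ), k ≠ 0 ∧ Matrix.vecMul c A = k • x := by
  obtain ⟨c', hc'⟩ := (mem_rs _ _).1 h
  refine ⟨(A * A.transpose).det,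
    Matrix.vecMul x (A.transpose * (A * A.transpose).adjugate), ?_, ?_⟩
  · intro h0
    have h1 := vol_pos _ hA
    have h2 := vol_sq (toR A)
    rw [← toR_transpose, ← toR_mul, Rat_det, h0, Int.cast_zero] at h2
    have h3 : 0 < vol (toR A) ^ 2 := pow_pos h1 2
    rw [h2] at h3
    exact lt_irrefl _ h3
  · apply toV_injective
    have h1 : toR A * toR (A.transpose * (A * A.transpose).adjugate) =
        ((A * A.transpose).det : ℝ) • (1 : Matrix m m ℝ) := by
      rw [← toR_mul, ← Matrix.mul_assoc, Matrix.mul_adjugate]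
      ext i j
      show (((((A * A.transpose).det • (1 : Matrix m m ℤ)) i j : ℤ)) : ℝ) = _
      rw [Matrix.smul_apply, Matrix.smul_apply, smul_eq_mul, smul_eq_mul, Int.cast_mul]
      congr 1
      rw [Matrix.one_apply, Matrix.one_apply]
      split_ifs
      · exact Int.cast_one
      · exact Int.cast_zero
    rw [toV_vecMul, toV_vecMul, ← hc', Matrix.vecMul_vecMul c', h1, Rat_smul, ← hc',
      Matrix.vecMul_smul, Matrix.vecMul_one, Matrix.smul_vecMul]

theorem int_mem_rs {m n : Type} [Fintype m] [DecidableEq m] [Fintype n] [DecidableEq n]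
    (A : Matrix m n ℤ) (x : n → ℤ) (h : toV x ∈ rs (toR A)) :
    ∃ (k : ℤ) (c : m → ℤ), k ≠ 0 ∧ Matrix.vecMul c A = k • x := by
  classical
  set A0 : Matrix (Fin 0) n ℤ := 0 with hA0
  have hLI0 : LI (toR A0) := by
    unfold LI
    exact linearIndependent_empty_type
  obtain ⟨s, hs1, hs2, -⟩ := exists_ext (toR A0) hLI0 (toR A)
  set A' : Matrix (Fin 0 ⊕ s) n ℤ :=
    Matrix.fromRows A0 (A.submatrix (Subtype.val : s → m) id) with hA'
  have h1 : Matrix.fromRows (toR A0) ((toR A).submatrix (Subtype.val : s → m) id) = toR A' := by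
    ext i j
    rcases i with i | i
    · exact i.elim0
    · rfl
  rw [h1] at hs1 hs2
  have h2 : toV x ∈ rs (toR A') := by
    rw [hs2]
    exact (le_sup_right : rs (toR A) ≤ _) h
  obtain ⟨k, c, hk, hc⟩ := int_mem_rs_li A' hs1 x h2
  refine ⟨k, fun i => if h : i ∈ s then c (Sum.inr ⟨i, h⟩) else 0, hk, ?_⟩
  rw [← hc]
  funext j
  show ∑ i, (if h : i ∈ s then c (Sum.inr ⟨i, h⟩) else 0) * A i j = ∑ z, c z * A' z j
  have h0 : ∑ z, c z * A' z j = ∑ i : s, c (Sum.inr i) * A' (Sum.inr i) j := by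
    rw [Fintype.sum_sum_type, Fin.sum_univ_zero, zero_add]
  rw [h0]
  have h3 : ∑ i, (if h : i ∈ s then c (Sum.inr ⟨i, h⟩) else 0) * A i j =
      ∑ i ∈ s, (if h : i ∈ s then c (Sum.inr ⟨i, h⟩) else 0) * A i j := by
    symm
    refine Finset.sum_subset (Finset.subset_univ s) fun i _ hi => ?_
    rw [dif_neg hi, zero_mul]
  rw [h3, ← Finset.sum_coe_sort s]
  refine Finset.sum_congr rfl fun i _ => ?_
  rw [dif_pos i.2]
  rfl

theorem mem_sat_iff {m n : Type} [Fintype m] [DecidableEq m] [Fintype n] [DecidableEq n]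
    (A : Matrix m n ℤ) (x : n → ℤ) :
    x ∈ Sat (LinearMap.range A.vecMulLinear) ↔ toV x ∈ rs (toR A) := by
  constructor
  · rintro ⟨k, hk, c, hc⟩
    have hc' : Matrix.vecMul c A = k • x := hc
    have h1 : Matrix.vecMul (toV c) (toR A) = (k : ℝ) • toV x := by
      rw [← toV_vecMul, hc', Rat_smul]
    have h2 : (k : ℝ) • toV x ∈ rs (toR A) := (mem_rs _ _).2 ⟨toV c, h1⟩
    have h3 := (rs (toR A)).smul_mem ((k : ℝ)⁻¹) h2
    rwa [smul_smul, inv_mul_cancel₀ (Int.cast_ne_zero.2 hk), one_smul] at h3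
  · intro h
    obtain ⟨k, c, hk, hc⟩ := int_mem_rs A x h
    exact ⟨k, hk, c, hc⟩

theorem sat_le {n : Type} (Z B : Submodule ℤ (n → ℤ))
    (hZ : ∀ (k : ℤ) (x : n → ℤ), k ≠ 0 → k • x ∈ Z → x ∈ Z) (h : B ≤ Z) : Sat B ≤ Z := by
  rintro x ⟨k, hk, hx⟩
  exact hZ k x hk (h hx)

theorem le_sat {n : Type} (B : Submodule ℤ (n → ℤ)) : B ≤ Sat B := by
  intro x hx
  exact ⟨1, one_ne_zero, by rw [one_smul]; exact hx⟩

theorem sat_sat {n : Type} (B : Submodule ℤ (n → ℤ)) (k : ℤ) (x : n → ℤ) (hk : k ≠ 0)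
    (h : k • x ∈ Sat B) : x ∈ Sat B := by
  obtain ⟨l, hl, hx⟩ := h
  exact ⟨l * k, mul_ne_zero hl hk, by rw [mul_smul]; exact hx⟩

private lemma Rat_span {m n : Type} [Fintype m] (y : Matrix m n ℤ) (x : n → ℤ)
    (h : x ∈ Submodule.span ℤ (Set.range y.row)) : toV x ∈ rs (toR y) := by
  induction h using Submodule.span_induction with
  | mem x hx =>
    obtain ⟨i, rfl⟩ := hx
    exact Submodule.subset_span ⟨i, rfl⟩
  | zero =>
    have h0 : toV (0 : n → ℤ) = 0 := by
      funext i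
      exact Int.cast_zero
    rw [h0]
    exact Submodule.zero_mem _
  | add a b _ _ ha hb =>
    have h0 : toV (a + b) = toV a + toV b := by
      funext i
      exact Int.cast_add _ _
    rw [h0]
    exact Submodule.add_mem _ ha hb
  | smul k a _ ha =>
    rw [Rat_smul]
    exact Submodule.smul_mem _ _ ha

theorem rs_zb_sat {m n : Type} [Fintype m] [DecidableEq m] [Fintype n] [DecidableEq n]
    (A : Matrix m n ℤ) {r : ℕ} (y : Matrix (Fin r) n ℤ)
    (hy : IsZB y (Sat (LinearMap.range A.vecMulLinear))) : rs (toR y) = rs (toR A) := by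
  apply le_antisymm
  · refine Submodule.span_le.2 ?_
    rintro _ ⟨i, rfl⟩
    have h1 : y.row i ∈ Sat (LinearMap.range A.vecMulLinear) := by
      rw [← hy.2]
      exact Submodule.subset_span ⟨i, rfl⟩
    exact (mem_sat_iff A _).1 h1
  · refine Submodule.span_le.2 ?_
    rintro _ ⟨i, rfl⟩
    have h1 : A.row i ∈ Sat (LinearMap.range A.vecMulLinear) :=
      le_sat _ ⟨Pi.single i 1, by
        show Matrix.vecMul (Pi.single i 1) A = A.row i
        rw [Matrix.single_one_vecMul]⟩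
    rw [← hy.2] at h1
    exact Rat_span y _ h1

theorem mem_of_rs_zb {n : Type} [Fintype n] [DecidableEq n] (Z : Submodule ℤ (n → ℤ))
    (hZ : ∀ (k : ℤ) (x : n → ℤ), k ≠ 0 → k • x ∈ Z → x ∈ Z) {r : ℕ} (z : Matrix (Fin r) n ℤ)
    (hz : IsZB z Z) (x : n → ℤ) (h : toV x ∈ rs (toR z)) : x ∈ Z := by
  obtain ⟨k, c, hk, hc⟩ := int_mem_rs z x h
  refine hZ k x hk ?_
  rw [← hc, Matrix.vecMul_eq_sum]
  refine Submodule.sum_mem _ fun i _ => Z.smul_mem _ ?_
  rw [← hz.2]
  exact Submodule.subset_span ⟨i, rfl⟩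

end Pool.Agent.HGR
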