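import Mathlib
import Pool.Agent.LT.Base
import Pool.Agent.LT.LAVol
import Pool.Agent.HGR.Defs
import Pool.Agent.HGR.Cov
import Pool.Agent.HGR.Rat
import Pool.Agent.HGR.Abs4
import Pool.Agent.HGR.Cmp
import Pool.Agent.HGR.DetB

set_option autoImplicit false

/-!
# Project HGR, module DetC: the determinant formula (tg_h51.md, D2)

The torsion subgroup of `(W → ℤ)/B` is the image of `Sat B`, a quotient of `ℤ ^ b` by the lattice spanned by the rows
of `P`. The determinant formula follows with a complement of the kernel of `D` (`exists_compl`, `vol_compl`).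
-/

open scoped BigOperators

namespace Pool.Agent.HGR

open Pool.Agent.LT

private lemma DetC_inj {W : Type} [Fintype W] {b : ℕ} {L : Submodule ℤ (W → ℤ)}
    {y : Matrix (Fin b) W ℤ} (hy : IsZB y L) {u v : Fin b → ℤ}
    (h : Matrix.vecMul u y = Matrix.vecMul v y) : u = v :=
  Matrix.vecMul_injective_iff.2 hy.1 h

private lemma DetC_det {m : Type} [Fintype m] [DecidableEq m] (M : Matrix m m ℤ) :
    (toR M).det = ((M.det : ℤ) : ℝ) := by
  rw [Int.cast_det]
  rfl

private lemma DetC_natAbs (z : ℤ) : ((z.natAbs : ℕ) : ℝ) = |(z : ℝ)| := by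
  rw [Nat.cast_natAbs, Int.cast_abs]

theorem tors_det {W : Type} [Fintype W] [DecidableEq W] (B : Submodule ℤ (W → ℤ)) {b : ℕ}
    (y : Matrix (Fin b) W ℤ) (hy : IsZB y (Sat B)) (P : Matrix (Fin b) (Fin b) ℤ)
    (hP : P.det ≠ 0) (hB : IsZB (P * y) B) :
    Nat.card (Submodule.torsion ℤ ((W → ℤ) ⧸ B)) = P.det.natAbs := by
  obtain ⟨-, hcard⟩ := card_quot_det P.transpose (by rwa [Matrix.det_transpose])
  rw [Matrix.det_transpose] at hcard
  set f : (Fin b → ℤ) →ₗ[ℤ] ((W → ℤ) ⧸ B) := B.mkQ ∘ₗ y.vecMulLinear with hf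
  have hfa : ∀ v, f v = B.mkQ (Matrix.vecMul v y) := fun v => rfl
  have hker : LinearMap.ker f = LinearMap.range P.transpose.mulVecLin := by
    ext v
    rw [LinearMap.mem_ker, hfa, Submodule.mkQ_apply, Submodule.Quotient.mk_eq_zero, zb_mem hB,
      LinearMap.mem_range]
    constructor
    · rintro ⟨u, hu⟩
      refine ⟨u, ?_⟩
      rw [← Matrix.vecMul_vecMul] at hu
      rw [Matrix.mulVecLin_apply, Matrix.mulVec_transpose]
      exact DetC_inj hy hu
    · rintro ⟨u, hu⟩
      refine ⟨u, ?_⟩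
      rw [Matrix.mulVecLin_apply, Matrix.mulVec_transpose] at hu
      rw [← hu, Matrix.vecMul_vecMul]
  have hrange : LinearMap.range f = Submodule.torsion ℤ ((W → ℤ) ⧸ B) := by
    ext q
    rw [LinearMap.mem_range, Submodule.mem_torsion_iff]
    constructor
    · rintro ⟨v, rfl⟩
      have h1 : Matrix.vecMul v y ∈ Sat B := (zb_mem hy _).2 ⟨v, rfl⟩
      obtain ⟨k, hk, hkB⟩ := h1
      refine ⟨⟨k, mem_nonZeroDivisors_of_ne_zero hk⟩, ?_⟩
      show k • f v = 0
      rw [hfa, Submodule.mkQ_apply, ← Submodule.Quotient.mk_smul, Submodule.Quotient.mk_eq_zero]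
      exact hkB
    · rintro ⟨⟨k, hk⟩, hkq⟩
      obtain ⟨x, rfl⟩ := Submodule.Quotient.mk_surjective B q
      have h1 : k • (Submodule.Quotient.mk x : (W → ℤ) ⧸ B) = 0 := hkq
      rw [← Submodule.Quotient.mk_smul, Submodule.Quotient.mk_eq_zero] at h1
      obtain ⟨v, hv⟩ := (zb_mem hy x).1 ⟨k, nonZeroDivisors.ne_zero hk, h1⟩
      exact ⟨v, by rw [hfa, hv]; rfl⟩
  rw [← hcard, ← hker, ← hrange]
  exact Nat.card_congr f.quotKerEquivRange.symm.toEquiv

theorem det_formula {X W : Type} [Fintype X] [DecidableEq X] [Fintype W] [DecidableEq W]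
    (D : Matrix X W ℤ) (ck cy : ℝ) (hk : HasCovol (LinearMap.ker D.vecMulLinear) ck)
    (hy : HasCovol (Sat (LinearMap.range D.vecMulLinear)) cy) :
    1 / 2 * ldet' (toR D * (toR D).transpose) =
      Real.log (Nat.card (Submodule.torsion ℤ ((W → ℤ) ⧸ LinearMap.range D.vecMulLinear))) +
        Real.log cy + Real.log ck := by
  obtain ⟨a, k, hkZ, rfl⟩ := (covol_iff _ _).1 hk
  obtain ⟨b', y, hyZ, rfl⟩ := (covol_iff _ _).1 hy
  have hsat : ∀ (j : ℤ) (x : X → ℤ), j ≠ 0 → j • x ∈ LinearMap.ker D.vecMulLinear →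
      x ∈ LinearMap.ker D.vecMulLinear := by
    intro j x hj hx
    rw [LinearMap.mem_ker, map_smul] at hx
    rw [LinearMap.mem_ker]
    exact (smul_eq_zero.1 hx).resolve_left hj
  obtain ⟨b, c, U, h1, h2⟩ := exists_compl _ hsat k hkZ
  have hker : ∀ u : Fin a → ℤ, Matrix.vecMul (Matrix.vecMul u k) D = 0 := by
    intro u
    have h3 : Matrix.vecMul u k ∈ LinearMap.ker D.vecMulLinear := (zb_mem hkZ _).2 ⟨u, rfl⟩
    exact h3
  have hkD : k * D = 0 := by
    ext i j
    have h3 := congrFun (hker (Pi.single i 1)) j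
    rw [Matrix.vecMul_vecMul, Matrix.single_one_vecMul] at h3
    exact h3
  -- the rows of `c * D` are a basis of the range of `D`
  have hli : LinearIndependent ℤ (c * D).row := by
    rw [← Matrix.vecMul_injective_iff]
    intro v v' hvv
    have h3 : Matrix.vecMul (v - v') (c * D) = 0 := by
      rw [Matrix.sub_vecMul]
      exact sub_eq_zero.2 hvv
    rw [← Matrix.vecMul_vecMul] at h3
    obtain ⟨u, hu⟩ := (zb_mem hkZ (Matrix.vecMul (v - v') c)).1 h3
    have h4 : Matrix.vecMul (Sum.elim (-u) (v - v')) (Matrix.fromRows k c) = 0 := by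
      rw [Matrix.vecMul_fromRows, Sum.elim_comp_inl, Sum.elim_comp_inr, Matrix.neg_vecMul, hu]
      exact neg_add_cancel _
    have h5 : Sum.elim (-u) (v - v') = 0 := by
      rw [← Matrix.vecMul_one (Sum.elim (-u) (v - v')), ← h1, ← Matrix.vecMul_vecMul, h4,
        Matrix.zero_vecMul]
    have h6 : v - v' = 0 := by
      have h7 := congrArg (fun z => z ∘ Sum.inr) h5
      exact h7
    exact sub_eq_zero.1 h6
  have hrg : LinearMap.range (c * D).vecMulLinear = LinearMap.range D.vecMulLinear := by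
    apply le_antisymm
    · rintro _ ⟨v, rfl⟩
      refine ⟨Matrix.vecMul v c, ?_⟩
      show Matrix.vecMul (Matrix.vecMul v c) D = Matrix.vecMul v (c * D)
      rw [Matrix.vecMul_vecMul]
    · rintro _ ⟨w, rfl⟩
      refine ⟨Matrix.vecMul w U ∘ Sum.inr, ?_⟩
      show Matrix.vecMul (Matrix.vecMul w U ∘ Sum.inr) (c * D) = Matrix.vecMul w D
      have h3 : Matrix.vecMul (Matrix.vecMul w U) (Matrix.fromRows k c) = w := by
        rw [Matrix.vecMul_vecMul, h2, Matrix.vecMul_one]
      rw [Matrix.vecMul_fromRows] at h3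
      conv_rhs => rw [← h3]
      rw [Matrix.add_vecMul, hker, zero_add, Matrix.vecMul_vecMul]
  have hgZ : IsZB (c * D) (LinearMap.range D.vecMulLinear) := by
    refine ⟨hli, ?_⟩
    rw [← hrg, _root_.range_vecMulLinear]
  have hgL := li_of_zb hgZ
  have hyL := li_of_zb hyZ
  have hrs : rs (toR y) = rs (toR (c * D)) := by
    apply rs_zb_sat
    rw [hrg]
    exact hyZ
  have hbb : b' = b := by
    have h3 := finrank_rs (toR y)
    have h4 := finrank_rs (toR (c * D))
    rw [rank_of_li _ hyL, Fintype.card_fin] at h3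
    rw [rank_of_li _ hgL, Fintype.card_fin] at h4
    rw [← h3, ← h4, hrs]
  subst hbb
  have hex : ∀ i, ∃ p : Fin b' → ℤ, Matrix.vecMul p y = (c * D) i := by
    intro i
    rw [← zb_mem hyZ]
    apply le_sat
    rw [← hgZ.2]
    exact Submodule.subset_span ⟨i, rfl⟩
  choose P hP using hex
  have hgP : c * D = Matrix.of P * y := by
    funext i
    rw [← hP i]
    rfl
  have hvol : vol (toR (c * D)) = |(toR (Matrix.of P)).det| * vol (toR y) := by
    rw [← vol_mul, ← toR_mul, ← hgP]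
  have hpos := vol_pos _ hgL
  have hdet : (toR (Matrix.of P)).det ≠ 0 := by
    intro h0
    rw [hvol, h0, abs_zero, zero_mul] at hpos
    exact lt_irrefl _ hpos
  have hdetZ : (Matrix.of P).det ≠ 0 := by
    intro h0
    rw [DetC_det, h0, Int.cast_zero] at hdet
    exact hdet rfl
  have htors := tors_det (LinearMap.range D.vecMulLinear) y hyZ (Matrix.of P) hdetZ
    (by rw [← hgP]; exact hgZ)
  have hfin := vol_compl k c U h1 h2 D hkD hgL
  rw [htors, DetC_natAbs, ← DetC_det]
  rw [hvol, Real.log_mul (abs_ne_zero.2 hdet) (vol_pos _ hyL).ne'] at hfin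
  linarith

end Pool.Agent.HGR
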