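import Mathlib
import Pool.Agent.LT.Base
import Pool.Agent.LT.LAVol
import Pool.Agent.HGR.Defs
import Pool.Agent.HGR.Cov
import Pool.Agent.HGR.Cmp

set_option autoImplicit false

/-!
# Project HGR, module Dua1: the covolume of the orthogonal group (tg_h51.md, D1)

PLAN. Let `y` (`Fin a`) be a basis of `L` (`covol_iff`), `c, U` from `exists_compl`, `W = fromRows y c`,
`U = fromCols U1 U2` (`Matrix.fromCols`, `U2 : Matrix n (Fin b) ℤ`), `w := U2ᵀ`. `W U = 1` gives
`y U2 = 0`, `c U2 = 1`, `U W = 1` gives `Wᵀ Uᵀ = 1`. The rows of `w` are a basis of `orthL L`: for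
`x ∈ orthL L`, `x = (x ᵥ* Wᵀ) ᵥ* Uᵀ` and the first `a` coordinates of `x ᵥ* Wᵀ` (products with the rows of `y`)
vanish, so `x = v ᵥ* w`; conversely `y U2 = 0`; independence from `c U2 = 1`.
`det (w wᵀ) = det (y yᵀ)`: `G := W Wᵀ` with blocks `G11 = y yᵀ` etc., `H := Uᵀ U` with the block
`H22 = w wᵀ`, `G H = W Wᵀ Uᵀ U = 1`. Over `ℝ` (or `ℚ`): `G11` is invertible (`LI`), `det G = det G11 *
det (G22 - G21 G11⁻¹ G12)` (`Matrix.det_fromBlocks₁₁`), `G11 H12 + G12 H22 = 0`,
`G21 H12 + G22 H22 = 1` give `(G22 - G21 G11⁻¹ G12) H22 = 1`; `det G = 1` (`vol_unimod`). So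
`det H22 = det G11`.
-/

open scoped BigOperators

namespace Pool.Agent.HGR

open Pool.Agent.LT

/-- the integer vectors orthogonal to `L` -/
def orthL {n : Type} [Fintype n] (L : Submodule ℤ (n → ℤ)) : Submodule ℤ (n → ℤ) where
  carrier := {x | ∀ y ∈ L, x ⬝ᵥ y = 0}
  add_mem' := by
    intro x x' h h' y hy
    rw [add_dotProduct, h y hy, h' y hy, add_zero]
  zero_mem' := fun y _ => zero_dotProduct y
  smul_mem' := by
    intro c x h y hy
    rw [smul_dotProduct, h y hy, smul_zero]

private lemma dua1_det {a b : ℕ} (G11 : Matrix (Fin a) (Fin a) ℤ) (G12 : Matrix (Fin a) (Fin b) ℤ)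
    (G21 : Matrix (Fin b) (Fin a) ℤ) (G22 : Matrix (Fin b) (Fin b) ℤ)
    (H12 : Matrix (Fin a) (Fin b) ℤ) (H22 : Matrix (Fin b) (Fin b) ℤ)
    (h1 : G11 * H12 + G12 * H22 = 0) (h2 : G21 * H12 + G22 * H22 = 1)
    (hG : (Matrix.fromBlocks G11 G12 G21 G22).det = 1) : H22.det = G11.det := by
  have h3 : Matrix.fromBlocks G11 G12 G21 G22 * Matrix.fromBlocks 1 H12 0 H22 =
      Matrix.fromBlocks G11 0 G21 1 := by
    rw [Matrix.fromBlocks_multiply]
    rw [h1, h2]
    simp
  have h4 := congrArg Matrix.det h3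
  rw [Matrix.det_mul, hG, Matrix.det_fromBlocks_zero₂₁, Matrix.det_fromBlocks_zero₁₂,
    Matrix.det_one, Matrix.det_one, one_mul, one_mul, mul_one] at h4
  exact h4

theorem covol_orth {n : Type} [Fintype n] [DecidableEq n] (L : Submodule ℤ (n → ℤ))
    (hL : ∀ (k : ℤ) (x : n → ℤ), k ≠ 0 → k • x ∈ L → x ∈ L) (c : ℝ) (h : HasCovol L c) :
    HasCovol (orthL L) c := by
  obtain ⟨a, y, hy, rfl⟩ := (covol_iff L c).1 h
  obtain ⟨b, k, U, h1, h2⟩ := exists_compl L hL y hy
  obtain ⟨U1, U2, rfl⟩ : ∃ (U1 : Matrix n (Fin a) ℤ) (U2 : Matrix n (Fin b) ℤ),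
      U = Matrix.fromCols U1 U2 := ⟨U.toCols₁, U.toCols₂, (Matrix.fromCols_toCols U).symm⟩
  have hvol := (vol_unimod _ _ h1 h2).1
  have h1' := h1
  rw [Matrix.fromRows_mul_fromCols, ← Matrix.fromBlocks_one, Matrix.fromBlocks_inj] at h1'
  obtain ⟨e11, e12, e21, e22⟩ := h1'
  rw [Matrix.fromCols_mul_fromRows] at h2
  have hrow : ∀ i j, y j ⬝ᵥ U2.transpose i = 0 := fun i j => congrFun (congrFun e12 j) i
  have hmul : ∀ x : n → ℤ, x ∈ orthL L → Matrix.vecMul (k.mulVec x) U2.transpose = x := by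
    intro x hx
    have h3 : (U1 * y + U2 * k).mulVec x = x := by rw [h2, Matrix.one_mulVec]
    rw [Matrix.add_mulVec, ← Matrix.mulVec_mulVec, ← Matrix.mulVec_mulVec] at h3
    have h4 : y.mulVec x = 0 := by
      funext j
      change y j ⬝ᵥ x = 0
      rw [dotProduct_comm]
      refine hx (y j) ?_
      rw [zb_mem hy]
      exact ⟨Pi.single j 1, Matrix.single_one_vecMul j y⟩
    rw [h4, Matrix.mulVec_zero, zero_add] at h3
    rw [Matrix.vecMul_transpose]
    exact h3
  refine (covol_iff _ _).2 ⟨b, U2.transpose, ⟨?_, ?_⟩, ?_⟩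
  · rw [Fintype.linearIndependent_iff]
    intro g hg
    have h5 : U2.mulVec g = 0 := by
      rw [← Matrix.vecMul_transpose, Matrix.vecMul_eq_sum]
      exact hg
    have h6 : (k * U2).mulVec g = 0 := by rw [← Matrix.mulVec_mulVec, h5, Matrix.mulVec_zero]
    rw [e22, Matrix.one_mulVec] at h6
    exact fun i => congrFun h6 i
  · apply le_antisymm
    · rw [Submodule.span_le]
      rintro _ ⟨i, rfl⟩ l hl
      obtain ⟨v, rfl⟩ := (zb_mem hy l).1 hl
      rw [dotProduct_comm, ← Matrix.dotProduct_mulVec]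
      have h7 : y.mulVec (U2.transpose.row i) = 0 := by
        funext j
        exact hrow i j
      rw [h7, dotProduct_zero]
    · intro x hx
      rw [← hmul x hx, Matrix.vecMul_eq_sum]
      exact Submodule.sum_mem _ fun i _ =>
        Submodule.smul_mem _ _ (Submodule.subset_span ⟨i, rfl⟩)
  · rw [vol_toR, vol_toR]
    congr 2
    rw [vol_toR] at hvol
    have hG : ((Matrix.fromRows y k) * (Matrix.fromRows y k).transpose).det = 1 := by
      have h8 := Real.sqrt_eq_one.1 hvol
      exact_mod_cast h8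
    rw [Matrix.transpose_fromRows, Matrix.fromRows_mul_fromCols] at hG
    have h2t : y.transpose * U1.transpose + k.transpose * U2.transpose = 1 := by
      have h9 := congrArg Matrix.transpose h2
      rw [Matrix.transpose_add, Matrix.transpose_mul, Matrix.transpose_mul,
        Matrix.transpose_one] at h9
      exact h9
    symm
    refine dua1_det (y * y.transpose) (y * k.transpose) (k * y.transpose) (k * k.transpose)
      (U1.transpose * U2) (U2.transpose * U2.transpose.transpose) ?_ ?_ hG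
    · have h10 : y * y.transpose * (U1.transpose * U2) +
          y * k.transpose * (U2.transpose * U2.transpose.transpose) =
          y * (y.transpose * U1.transpose + k.transpose * U2.transpose) * U2 := by
        rw [Matrix.transpose_transpose, Matrix.mul_add, Matrix.add_mul]
        simp only [Matrix.mul_assoc]
      rw [h10, h2t, Matrix.mul_one, e12]
    · have h10 : k * y.transpose * (U1.transpose * U2) +
          k * k.transpose * (U2.transpose * U2.transpose.transpose) =
          k * (y.transpose * U1.transpose + k.transpose * U2.transpose) * U2 := by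
        rw [Matrix.transpose_transpose, Matrix.mul_add, Matrix.add_mul]
        simp only [Matrix.mul_assoc]
      rw [h10, h2t, Matrix.mul_one, e22]

end Pool.Agent.HGR
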