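import Mathlib
import Pool.Agent.LT.Base
import Pool.Agent.LT.LAVol
import Pool.Agent.LT.LAKer
import Pool.Agent.HGR.Defs
import Pool.Agent.HGR.Cov
import Pool.Agent.HGR.Rat
import Pool.Agent.HGR.Dua1

set_option autoImplicit false

/-!
# Project HGR, module Dua2: kernel and saturated image of a transposed matrix

PLAN. `ker_trans`: `x Mᵀ = 0` iff `x` is orthogonal to all rows of `M`, i.e. to `range M`.
`orth_sat`: `orthL (Sat B) = orthL B` (`k (x ⬝ y) = x ⬝ (k y) = 0`). `sat_trans`: `⊆`: a column of `M` is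
orthogonal to every `x` with `x M = 0`, saturate. `⊇`: let `z` be orthogonal to `L := ker`. By `mem_sat_iff`
(for `Mᵀ`) it suffices that `toV z` lies in the real row space of `Mᵀ`, i.e. in the real column space of
`M`, which is the orthogonal complement of `{x real : x M = 0}`; the integer kernel spans this real space:
use `LT.exists_kernel_basis` (LT/LAKer) for `A := Mᵀ`: it gives integer rows `s i` with `s i ⬝ᵥ Mᵀ j = 0`
(so `s i ∈ L`) which span all real `x` with `x M = 0`. A real vector orthogonal to the whole real kernel lies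
in the row space of `Mᵀ` (e.g. via `LT.exists_on_basis`/orthogonal projections in `EuclideanSpace`, or
`x - x (prj ..)`, or `Submodule.orthogonal_orthogonal`).
-/

open scoped BigOperators

namespace Pool.Agent.HGR

open Pool.Agent.LT

variable {m n : Type} [Fintype m] [DecidableEq m] [Fintype n] [DecidableEq n]

private lemma Dua2_mem_rs {k : Type} (A : Matrix k m ℝ) (v : m → ℝ)
    (h : ∀ x : m → ℝ, (∀ j, x ⬝ᵥ A j = 0) → x ⬝ᵥ v = 0) : v ∈ rs A := by
  unfold rs
  rw [← Subspace.forall_mem_dualAnnihilator_apply_eq_zero_iff]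
  intro φ hφ
  rw [Submodule.mem_dualAnnihilator] at hφ
  have h1 : ∀ u, φ u = (fun i => φ (Pi.single i 1)) ⬝ᵥ u := by
    intro u
    rw [LinearMap.pi_apply_eq_sum_univ φ u]
    unfold dotProduct
    refine Finset.sum_congr rfl fun i _ => ?_
    rw [smul_eq_mul, mul_comm]
    congr 2
    funext j
    rw [Pi.single_apply]
    simp only [eq_comm]
  rw [h1]
  apply h
  intro j
  rw [← h1]
  exact hφ _ (Submodule.subset_span ⟨j, rfl⟩)

private lemma Dua2_dot_toV (x y : m → ℤ) : toV x ⬝ᵥ toV y = ((x ⬝ᵥ y : ℤ) : ℝ) := by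
  simp [toV, dotProduct]

private lemma Dua2_rs_dot {k : Type} (A : Matrix k m ℝ) (v : m → ℝ) (h : ∀ i, A i ⬝ᵥ v = 0)
    (x : m → ℝ) (hx : x ∈ rs A) : x ⬝ᵥ v = 0 := by
  unfold rs at hx
  induction hx using Submodule.span_induction with
  | mem x hx =>
    obtain ⟨i, rfl⟩ := hx
    exact h i
  | zero => exact zero_dotProduct v
  | add x y _ _ hx hy => rw [add_dotProduct, hx, hy, add_zero]
  | smul a x _ hx => rw [smul_dotProduct, hx, smul_zero]

private lemma Dua2_mem_orthL (L : Submodule ℤ (n → ℤ)) (x : n → ℤ) :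
    x ∈ orthL L ↔ ∀ y ∈ L, x ⬝ᵥ y = 0 := Iff.rfl

private lemma Dua2_orth_sat (L : Submodule ℤ (n → ℤ)) (k : ℤ) (x : n → ℤ) (hk : k ≠ 0)
    (h : k • x ∈ orthL L) : x ∈ orthL L := by
  intro y hy
  have h1 := h y hy
  rw [smul_dotProduct, smul_eq_mul] at h1
  exact (mul_eq_zero.1 h1).resolve_left hk

private lemma Dua2_dot (M : Matrix m n ℤ) (x : n → ℤ) (y : m → ℤ) :
    x ⬝ᵥ Matrix.vecMul y M = Matrix.mulVec M x ⬝ᵥ y := by
  rw [dotProduct_comm, ← Matrix.dotProduct_mulVec, dotProduct_comm]

theorem ker_trans (M : Matrix m n ℤ) :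
    LinearMap.ker M.transpose.vecMulLinear = orthL (LinearMap.range M.vecMulLinear) := by
  ext x
  rw [LinearMap.mem_ker, Dua2_mem_orthL, Matrix.vecMulLinear_apply, Matrix.vecMul_transpose]
  constructor
  · rintro h _ ⟨y, rfl⟩
    rw [Matrix.vecMulLinear_apply, Dua2_dot, h, zero_dotProduct]
  · intro h
    ext i
    have h1 := h _ ⟨Pi.single i 1, rfl⟩
    rw [Matrix.vecMulLinear_apply, Dua2_dot, dotProduct_single, mul_one] at h1
    exact h1

theorem orth_sat (B : Submodule ℤ (n → ℤ)) : orthL (Sat B) = orthL B := by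
  ext x
  constructor
  · intro h y hy
    exact h y (le_sat B hy)
  · rintro h y ⟨k, hk, hy⟩
    have h1 := h _ hy
    rw [dotProduct_smul, smul_eq_mul] at h1
    exact (mul_eq_zero.1 h1).resolve_left hk

theorem sat_trans (M : Matrix m n ℤ) :
    Sat (LinearMap.range M.transpose.vecMulLinear) = orthL (LinearMap.ker M.vecMulLinear) := by
  apply le_antisymm
  · refine sat_le _ _ (fun k x hk h => Dua2_orth_sat _ k x hk h) ?_
    rintro _ ⟨y, rfl⟩ w hw
    rw [LinearMap.mem_ker, Matrix.vecMulLinear_apply] at hw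
    rw [Matrix.vecMulLinear_apply, Matrix.vecMul_transpose, ← Dua2_dot, hw, dotProduct_zero]
  · intro z hz
    rw [mem_sat_iff]
    apply Dua2_mem_rs
    intro x hx
    obtain ⟨l, s, -, hs1, hs2, -, -⟩ := exists_kernel_basis M.transpose
    refine Dua2_rs_dot (toR s) (toV z) ?_ x (hs2 x hx)
    intro i
    have h1 : s i ∈ LinearMap.ker M.vecMulLinear := by
      rw [LinearMap.mem_ker, Matrix.vecMulLinear_apply]
      ext j
      exact hs1 i j
    have h2 := hz _ h1
    have h3 := Dua2_dot_toV (s i) z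
    rw [dotProduct_comm (s i) z, h2, Int.cast_zero] at h3
    exact h3

/-- the covolume of the kernel of `Mᵀ` is the covolume of the saturated image of `M` -/
theorem covol_ker_trans (M : Matrix m n ℤ) (c : ℝ)
    (h : HasCovol (Sat (LinearMap.range M.vecMulLinear)) c) :
    HasCovol (LinearMap.ker M.transpose.vecMulLinear) c := by
  rw [ker_trans, ← orth_sat]
  exact covol_orth _ (fun k x hk hx => sat_sat _ k x hk hx) c h

/-- the covolume of the saturated image of `Mᵀ` is the covolume of the kernel of `M` -/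
theorem covol_sat_trans (M : Matrix m n ℤ) (c : ℝ)
    (h : HasCovol (LinearMap.ker M.vecMulLinear) c) :
    HasCovol (Sat (LinearMap.range M.transpose.vecMulLinear)) c := by
  rw [sat_trans]
  refine covol_orth _ (fun k x hk hx => ?_) c h
  rw [LinearMap.mem_ker] at hx ⊢
  rw [map_smul] at hx
  exact (smul_eq_zero.1 hx).resolve_left hk

end Pool.Agent.HGR
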