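import Mathlib
import Pool.Agent.HGR.Defs

set_option autoImplicit false

/-!
# Project HGR, module Sq: the square of the differential is zero; cycles are saturated

PLAN. For `a : MonoidAlgebra ℤ G` put `aM a v w := a.coeff.sum fun g c => if g⁻¹ • v = w then c else 0`
(a private definition). It is additive in `a` and `∑_u aM a v u * aM b u w = aM (a * b) v w`: check on
`single g c`, `single h c'` (`MonoidAlgebra.induction_linear` twice): both sides are `c c'` if
`h⁻¹ g⁻¹ v = w`, `0` otherwise (`(g h)⁻¹ = h⁻¹ g⁻¹`). So `dV (p+1) * dV p` has the entries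
`aM ((D (p+1) * D p) k i) v w`, and `D (p+1) * D p = 0`: the row `k` of `D (p+1)` is `Pi.single k 1 ᵥ* D (p+1)`,
so it is killed by `D p` (`C.exact_succ p`, see `DOf_sq` in LT/Bridge). `bdy_le_cyc`: `p = 0` trivial,
`p = q + 1`: `(y ᵥ* dV (q+1)) ᵥ* dV q = y ᵥ* (dV (q+1) * dV q)`. `sat_cyc`: a kernel of a map to a torsion
free module.
-/

open scoped BigOperators

namespace Pool.Agent.HGR

open Pool.Agent.LT

section act

variable {G : Type} [Group G] {V : Type} [Fintype V] [DecidableEq V] [MulAction G V]

private noncomputable def sq_aM (v w : V) : MonoidAlgebra ℤ G →+ ℤ where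
  toFun a := a.coeff.sum fun g c => if g⁻¹ • v = w then c else 0
  map_zero' := by
    change ((0 : G →₀ ℤ).sum fun g c => if g⁻¹ • v = w then c else (0 : ℤ)) = 0
    exact Finsupp.sum_zero_index
  map_add' := by
    intro a b
    change ((a.coeff + b.coeff).sum fun g c => if g⁻¹ • v = w then c else (0 : ℤ)) = _
    refine Finsupp.sum_add_index' ?_ ?_
    · intro g
      split_ifs <;> rfl
    · intro g c c'
      split_ifs
      · rfl
      · rfl

private lemma sq_single (v w : V) (g : G) (c : ℤ) :
    sq_aM v w (MonoidAlgebra.single g c) = if g⁻¹ • v = w then c else 0 := by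
  change ((MonoidAlgebra.single g c).coeff.sum fun g c => if g⁻¹ • v = w then c else (0 : ℤ)) = _
  rw [MonoidAlgebra.coeff_single]
  exact Finsupp.sum_single_index (by split_ifs <;> rfl)

private lemma sq_mul (a b : MonoidAlgebra ℤ G) (v w : V) :
    ∑ u, sq_aM v u a * sq_aM u w b = sq_aM v w (a * b) := by
  induction a using MonoidAlgebra.induction_linear with
  | zero => simp
  | add a a' ha ha' =>
    rw [add_mul, map_add, ← ha, ← ha', ← Finset.sum_add_distrib]
    refine Finset.sum_congr rfl fun u _ => ?_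
    rw [map_add, add_mul]
  | single g c =>
    induction b using MonoidAlgebra.induction_linear with
    | zero => simp
    | add b b' hb hb' =>
      rw [mul_add, map_add, ← hb, ← hb', ← Finset.sum_add_distrib]
      refine Finset.sum_congr rfl fun u _ => ?_
      rw [map_add, mul_add]
    | single h c' =>
      rw [MonoidAlgebra.single_mul_single, sq_single]
      simp only [sq_single]
      rw [Finset.sum_eq_single (g⁻¹ • v)]
      · rw [if_pos rfl, mul_inv_rev, mul_smul]
        split_ifs <;> simp
      · intro u _ hu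
        rw [if_neg (Ne.symm hu), zero_mul]
      · intro hn
        exact absurd (Finset.mem_univ _) hn

end act

variable {G : Type} [Group G] (C : FinRes G) (V : Type) [Fintype V] [DecidableEq V] [MulAction G V]

private lemma sq_DD (p : ℕ) : C.D (p + 1) * C.D p = 0 := by
  ext k i
  have h : Matrix.vecMul (C.D (p + 1) k) (C.D p) = 0 := by
    rw [C.exact_succ p]
    exact ⟨Pi.single k 1, (Matrix.single_one_vecMul k (C.D (p + 1))).symm⟩
  have h2 := congrFun h i
  rw [Matrix.mul_apply]
  exact congrArg MonoidAlgebra.coeff h2 ▸ rfl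

theorem dV_sq (p : ℕ) : dV C V (p + 1) * dV C V p = 0 := by
  ext x y
  obtain ⟨v, k⟩ := x
  obtain ⟨w, i⟩ := y
  rw [Matrix.mul_apply, Fintype.sum_prod_type_right]
  have h1 : ∀ j : Fin (C.n (p + 1)), ∑ u : V, dV C V (p + 1) (v, k) (u, j) * dV C V p (u, j) (w, i) =
      sq_aM v w (C.D (p + 1) k j * C.D p j i) := fun j =>
    sq_mul (C.D (p + 1) k j) (C.D p j i) v w
  rw [Finset.sum_congr rfl fun j _ => h1 j, ← map_sum]
  have h2 : ∑ j, C.D (p + 1) k j * C.D p j i = 0 := by
    have h3 := congrFun (congrFun (sq_DD C p) k) i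
    rw [Matrix.mul_apply] at h3
    exact h3
  rw [h2, map_zero]
  rfl

theorem bdy_le_cyc (p : ℕ) : Bdy C V p ≤ Cyc C V p := by
  cases p with
  | zero => exact le_top
  | succ p =>
    rintro x ⟨y, rfl⟩
    change Matrix.vecMul (Matrix.vecMul y (dV C V (p + 1))) (dV C V p) = 0
    rw [Matrix.vecMul_vecMul, dV_sq, Matrix.vecMul_zero]

theorem sat_cyc (p : ℕ) (k : ℤ) (x : V × Fin (C.n p) → ℤ) (hk : k ≠ 0) (h : k • x ∈ Cyc C V p) :
    x ∈ Cyc C V p := by
  cases p with
  | zero => exact Submodule.mem_top
  | succ p =>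
    change Matrix.vecMul x (dV C V p) = 0
    have h1 : Matrix.vecMul (k • x) (dV C V p) = 0 := h
    rw [Matrix.smul_vecMul] at h1
    exact (smul_eq_zero.1 h1).resolve_left hk

end Pool.Agent.HGR
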