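import Mathlib
import Pool.Agent.LT.Base
import Pool.Agent.HGR.Defs
import Pool.Agent.HGR.Sq
import Pool.Agent.HGR.Cov
import Pool.Agent.HGR.Dua2

set_option autoImplicit false

/-!
# Project HGR, module Dua3: duality for the complexes of a finite `G`-set (tg_h51.md, D1)

PLAN. `dV_dual`: for `p + 1 + q = C.d`:
`dV C' V p (v, i) (w, j) = dV C V q (w, e p (q+1) _ j) (v, e (p+1) q h i)`: by `D_eq` the coefficient sum is over
`g ↦ g⁻¹` (`Finsupp.sum` reindexed by the inversion: e.g. write both sums over a common finset, or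
`Finsupp.sum` of `coeff` as `finsum`/`Finset.sum` over `(C.D ..).coeff.support` and its image), and
`g • v = w ↔ g⁻¹ • w = v`. So `dV C' V p` is `(dV C V q)ᵀ` reindexed on both sides by the equivalences
`Prod.map id (e ..)`. `dual_cyc` (`p + q = C.d`): `p = 0`: then `q = C.d`, `Cyc C' V 0 = ⊤`, `Bdy C V C.d`
is zero (`C.n (C.d+1) = 0`), its saturation is zero, so `c = 1`, and `⊤` has covolume `1` (basis: the
identity matrix; reindexed by `Fin`). `p = p' + 1`: `Cyc C' V (p'+1)` is the kernel of `dV C' V p'`, i.e. of the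
reindexed transposed matrix of `dV C V q`; `covol_ker_trans`, `covol_reindex` (`Cyc C' V p` is the image of
`ker (dV C V q)ᵀ` under `LinearMap.funLeft ℤ ℤ e` with `e` the equivalence of the index sets).
`dual_bdy`: `q = 0`: `p = C.d`, `Cyc C V 0 = ⊤` has covolume `1`, `Bdy C' V C.d` is zero (`C'.n (C'.d+1) = 0`,
`d_eq`). `q = q' + 1`: `Cyc C V (q'+1) = ker (dV C V q')`, `p + 1 + q' = C.d`; `covol_sat_trans`, reindex
(`Sat` and `range` commute with the reindexing).
-/

open scoped BigOperators

namespace Pool.Agent.HGR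

open Pool.Agent.LT

variable {G : Type} [Group G] {C C' : FinRes G}

theorem dV_dual (D : Dual C C') (V : Type) [Fintype V] [DecidableEq V] [MulAction G V] (p q : ℕ)
    (h : p + 1 + q = C.d) (v w : V) (i : Fin (C'.n (p + 1))) (j : Fin (C'.n p)) :
    dV C' V p (v, i) (w, j) =
      dV C V q (w, D.e p (q + 1) (by omega) j) (v, D.e (p + 1) q h i) := by
  have h1 : (C'.D p i j).coeff = Finsupp.equivMapDomain (Equiv.inv G)
      (C.D q (D.e p (q + 1) (by omega) j) (D.e (p + 1) q h i)).coeff := by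
    ext g
    rw [Finsupp.equivMapDomain_apply]
    exact D.D_eq p q h i j g
  simp only [dV, Matrix.of_apply]
  rw [h1, Finsupp.sum_equivMapDomain]
  refine Finsupp.sum_congr fun g _ => ?_
  have h2 : ((Equiv.inv G) g)⁻¹ • v = w ↔ g⁻¹ • w = v := by
    simp only [Equiv.inv_apply, inv_inv]
    constructor
    · rintro rfl
      rw [inv_smul_smul]
    · rintro rfl
      rw [smul_inv_smul]
  by_cases h3 : g⁻¹ • w = v
  · rw [if_pos h3, if_pos (h2.2 h3)]
  · rw [if_neg h3, if_neg fun h4 => h3 (h2.1 h4)]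

/-- the bijection of the index sets -/
private def Dua3_E (D : Dual C C') (V : Type) (p q : ℕ) (h : p + q = C.d) :
    V × Fin (C'.n p) ≃ V × Fin (C.n q) :=
  Equiv.prodCongr (Equiv.refl V) (D.e p q h)

private lemma Dua3_mat (D : Dual C C') (V : Type) [Fintype V] [DecidableEq V] [MulAction G V]
    (p q : ℕ) (h : p + 1 + q = C.d) :
    dV C' V p = (dV C V q).transpose.submatrix (Dua3_E D V (p + 1) q h)
      (Dua3_E D V p (q + 1) (by omega)) := by
  ext ⟨v, i⟩ ⟨w, j⟩
  exact dV_dual D V p q h v w i j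

private lemma Dua3_vecMul {a b a' b' : Type} [Fintype a] [Fintype a'] (M : Matrix a b ℤ)
    (e : a' ≃ a) (f : b' ≃ b) (x : a → ℤ) :
    Matrix.vecMul (x ∘ e) (M.submatrix e f) = (Matrix.vecMul x M) ∘ f := by
  funext j
  simp only [Matrix.vecMul, dotProduct, Matrix.submatrix_apply, Function.comp_apply]
  exact Equiv.sum_comp e fun i => x i * M i (f j)

private lemma Dua3_ker {a b a' b' : Type} [Fintype a] [Fintype a'] (M : Matrix a b ℤ)
    (e : a' ≃ a) (f : b' ≃ b) :
    LinearMap.ker (M.submatrix e f).vecMulLinear =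
      (LinearMap.ker M.vecMulLinear).map (LinearMap.funLeft ℤ ℤ e) := by
  ext x
  rw [LinearMap.mem_ker, Submodule.mem_map]
  constructor
  · intro hx
    refine ⟨x ∘ e.symm, ?_, ?_⟩
    · rw [LinearMap.mem_ker]
      have h1 := Dua3_vecMul M e f (x ∘ e.symm)
      have h2 : (x ∘ e.symm) ∘ e = x := by
        funext i
        simp
      rw [h2] at h1
      rw [Matrix.vecMulLinear_apply] at hx ⊢
      rw [hx] at h1
      funext j
      have h3 := congrFun h1 (f.symm j)
      simp only [Function.comp_apply, Equiv.apply_symm_apply] at h3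
      exact h3.symm
    · funext i
      simp [LinearMap.funLeft_apply]
  · rintro ⟨y, hy, rfl⟩
    rw [LinearMap.mem_ker, Matrix.vecMulLinear_apply] at hy
    rw [Matrix.vecMulLinear_apply]
    have h1 := Dua3_vecMul M e f y
    rw [hy] at h1
    exact h1

private lemma Dua3_range {a b a' b' : Type} [Fintype a] [Fintype a'] (M : Matrix a b ℤ)
    (e : a' ≃ a) (f : b' ≃ b) :
    LinearMap.range (M.submatrix e f).vecMulLinear =
      (LinearMap.range M.vecMulLinear).map (LinearMap.funLeft ℤ ℤ f) := by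
  ext x
  rw [LinearMap.mem_range, Submodule.mem_map]
  constructor
  · rintro ⟨y, rfl⟩
    refine ⟨_, ⟨y ∘ e.symm, rfl⟩, ?_⟩
    have h1 := Dua3_vecMul M e f (y ∘ e.symm)
    have h2 : (y ∘ e.symm) ∘ e = y := by
      funext i
      simp
    rw [h2] at h1
    exact h1.symm
  · rintro ⟨_, ⟨y, rfl⟩, rfl⟩
    exact ⟨y ∘ e, Dua3_vecMul M e f y⟩

private lemma Dua3_sat {a a' : Type} (e : a' ≃ a) (B : Submodule ℤ (a → ℤ)) :
    Sat (B.map (LinearMap.funLeft ℤ ℤ e)) = (Sat B).map (LinearMap.funLeft ℤ ℤ e) := by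
  ext x
  rw [Submodule.mem_map]
  constructor
  · rintro ⟨k, hk, y, hy, hyx⟩
    refine ⟨x ∘ e.symm, ⟨k, hk, ?_⟩, ?_⟩
    · have h1 : k • (x ∘ e.symm) = y := by
        funext i
        have h2 := congrFun hyx (e.symm i)
        simp only [LinearMap.funLeft_apply, Equiv.apply_symm_apply, Pi.smul_apply] at h2
        rw [h2]
        rfl
      rw [h1]
      exact hy
    · funext i
      simp [LinearMap.funLeft_apply]
  · rintro ⟨y, ⟨k, hk, hy⟩, rfl⟩
    refine ⟨k, hk, k • y, hy, ?_⟩
    rw [map_smul]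

private lemma Dua3_top {n : Type} [Fintype n] [DecidableEq n] :
    HasCovol (⊤ : Submodule ℤ (n → ℤ)) 1 := by
  refine ⟨Fintype.card n, (1 : Matrix n n ℤ).submatrix (Fintype.equivFin n).symm id, ⟨?_, ?_⟩, ?_⟩
  · have h1 : LinearIndependent ℤ (1 : Matrix n n ℤ).row := by
      have h2 := (Pi.basisFun ℤ n).linearIndependent
      have h3 : (1 : Matrix n n ℤ).row = ⇑(Pi.basisFun ℤ n) := by
        funext i j
        rw [Pi.basisFun_apply, Matrix.row, Matrix.one_apply, Pi.single_apply]
        simp only [eq_comm]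
      rw [h3]
      exact h2
    exact h1.comp _ (Fintype.equivFin n).symm.injective
  · rw [eq_top_iff, ← (Pi.basisFun ℤ n).span_eq]
    refine Submodule.span_mono ?_
    rintro _ ⟨i, rfl⟩
    refine ⟨Fintype.equivFin n i, ?_⟩
    funext j
    rw [Pi.basisFun_apply, Pi.single_apply, Matrix.row, Matrix.submatrix_apply,
      Equiv.symm_apply_apply, Matrix.one_apply, id]
    simp only [eq_comm]
  · rw [Matrix.transpose_submatrix]
    have h1 : ((1 : Matrix n n ℤ).submatrix (Fintype.equivFin n).symm id) *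
        ((1 : Matrix n n ℤ).transpose.submatrix id (Fintype.equivFin n).symm) =
        (1 : Matrix n n ℤ).submatrix (Fintype.equivFin n).symm (Fintype.equivFin n).symm := by
      rw [← Matrix.submatrix_mul _ _ _ _ _ Function.bijective_id, Matrix.transpose_one, mul_one]
    rw [h1, Matrix.submatrix_one_equiv, Matrix.det_one]
    simp

private lemma Dua3_bot {n : Type} [Fintype n] : HasCovol (⊥ : Submodule ℤ (n → ℤ)) 1 := by
  refine ⟨0, Matrix.of fun i _ => i.elim0, ⟨?_, ?_⟩, ?_⟩
  · exact linearIndependent_empty_type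
  · rw [Set.range_eq_empty, Submodule.span_empty]
  · rw [Matrix.det_fin_zero]
    simp

private lemma Dua3_range_bot {a b : Type} [Fintype a] [IsEmpty a] (M : Matrix a b ℤ) :
    Sat (LinearMap.range M.vecMulLinear) = ⊥ := by
  rw [eq_bot_iff]
  rintro x ⟨k, hk, y, hy⟩
  rw [Submodule.mem_bot]
  rw [Subsingleton.elim y 0, map_zero] at hy
  exact (smul_eq_zero.1 hy.symm).resolve_left hk

theorem dual_cyc (D : Dual C C') (V : Type) [Fintype V] [DecidableEq V] [MulAction G V] (p q : ℕ)
    (h : p + q = C.d) (c : ℝ) (hc : HasCovol (Sat (Bdy C V q)) c) :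
    HasCovol (Cyc C' V p) c := by
  cases p with
  | zero =>
    have hq : q = C.d := by omega
    have hE : IsEmpty (Fin (C.n (q + 1))) := by
      rw [C.n_zero (q + 1) (by omega)]
      exact Fin.isEmpty
    have h1 : Sat (Bdy C V q) = ⊥ := Dua3_range_bot _
    rw [h1] at hc
    rw [covol_unique hc Dua3_bot]
    exact Dua3_top
  | succ p =>
    have h1 := covol_ker_trans (dV C V q) c hc
    have h2 := covol_reindex (Dua3_E D V (p + 1) q h) _ c h1
    rw [← Dua3_ker _ _ (Dua3_E D V p (q + 1) (by omega)), ← Dua3_mat D V p q h] at h2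
    exact h2

theorem dual_bdy (D : Dual C C') (V : Type) [Fintype V] [DecidableEq V] [MulAction G V] (p q : ℕ)
    (h : p + q = C.d) (c : ℝ) (hc : HasCovol (Cyc C V q) c) :
    HasCovol (Sat (Bdy C' V p)) c := by
  cases q with
  | zero =>
    have hp : p = C'.d := by
      have := D.d_eq
      omega
    have hE : IsEmpty (Fin (C'.n (p + 1))) := by
      rw [C'.n_zero (p + 1) (by omega)]
      exact Fin.isEmpty
    have h1 : Sat (Bdy C' V p) = ⊥ := Dua3_range_bot _
    rw [h1, covol_unique hc Dua3_top]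
    exact Dua3_bot
  | succ q =>
    have h0 : p + 1 + q = C.d := by omega
    have h1 := covol_sat_trans (dV C V q) c hc
    have h2 := covol_reindex (Dua3_E D V p (q + 1) h) _ c h1
    rw [← Dua3_sat, ← Dua3_range _ (Dua3_E D V (p + 1) q h0), ← Dua3_mat D V p q h0] at h2
    exact h2

end Pool.Agent.HGR
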