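import Mathlib
import Pool.Agent.LT.Defs
import Pool.Agent.HGR.Defs

set_option autoImplicit false

/-!
# Project HGR, module Far: Farber sequences

PLAN. `farber_few`: the set of points fixed by some element of `F` is the union over `g ∈ F`, so the
proportion is at most the finite sum of the proportions, which tends to `0`.
`farber_sofic`: given `F`, `e` apply `farber_few` to `F.erase 1` (or the elements `≠ 1`), `δ := e`; take `V i`,
`n := card (V i) > 0`, `σ g := (Fintype.equivFin (V i))` conjugate of `MulAction.toPerm g`; it is a homomorphism,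
so the first set is empty; `{v : σ g v = v}` has the cardinality of `{v // g • v = v}`, at most the number of
points fixed by some element of `F`, `≤ e * n`.
`chain_farber`: `g ≠ 1`: by `⨅ = ⊥` there is `j` with `g ∉ Γ j`, so `g ∉ Γ i` for `i ≥ j`; then no point of
`G ⧸ Γ i` is fixed by `g` (`g • ↑a = ↑a ↔ a⁻¹ g a ∈ Γ i ↔ g ∈ Γ i`, normality), so the proportion is
eventually `0`.
-/

open scoped BigOperators

namespace Pool.Agent.HGR

open Pool.Agent.LT

private theorem far_card {V : Type} [Fintype V] (p : V → Prop) [DecidablePred p] :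
    Nat.card {v : V // p v} = (Finset.univ.filter p).card := by
  rw [Nat.card_eq_fintype_card, Fintype.card_subtype]

private theorem far_union {G : Type} [Group G] (V : Type) [Fintype V] [MulAction G V]
    (F : Finset G) : Nat.card {v : V // ∃ g ∈ F, g • v = v} ≤
      ∑ g ∈ F, Nat.card {v : V // g • v = v} := by
  classical
  rw [far_card]
  have h1 : Finset.univ.filter (fun v : V => ∃ g ∈ F, g • v = v) =
      F.biUnion fun g => Finset.univ.filter (fun v : V => g • v = v) := by
    ext v
    simp only [Finset.mem_filter, Finset.mem_univ, true_and, Finset.mem_biUnion]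
  rw [h1]
  refine Finset.card_biUnion_le.trans (le_of_eq ?_)
  exact Finset.sum_congr rfl fun g _ => (far_card _).symm

private theorem far_mono {G : Type} [Group G] (V : Type) [Fintype V] [MulAction G V]
    (F : Finset G) {g : G} (hg : g ∈ F) : Nat.card {v : V // g • v = v} ≤
      Nat.card {v : V // ∃ g ∈ F, g • v = v} := by
  classical
  rw [far_card, far_card]
  refine Finset.card_le_card ?_
  intro v hv
  rw [Finset.mem_filter] at hv ⊢
  exact ⟨hv.1, g, hg, hv.2⟩

theorem farber_few {G : Type} [Group G] (V : ℕ → Type) [∀ i, Fintype (V i)]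
    [∀ i, MulAction G (V i)] (hV : IsFarber G V) (F : Finset G) (hF : (1 : G) ∉ F) (δ : ℝ)
    (hδ : 0 < δ) : ∀ᶠ i in Filter.atTop, FewFix F δ (V i) := by
  obtain ⟨hpos, hlim⟩ := hV
  have h1 : Filter.Tendsto
      (fun i => ∑ g ∈ F, (Nat.card {v : V i // g • v = v} : ℝ) / Fintype.card (V i))
      Filter.atTop (nhds (∑ _g ∈ F, (0 : ℝ))) :=
    tendsto_finsetSum _ fun g hg => hlim g fun h => hF (h ▸ hg)
  rw [Finset.sum_const_zero] at h1
  filter_upwards [h1.eventually_lt_const hδ] with i hi
  have h2 : (0 : ℝ) < Fintype.card (V i) := by exact_mod_cast hpos i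
  unfold FewFix
  rw [← Finset.sum_div, div_lt_iff₀ h2] at hi
  have h3 : ((Nat.card {v : V i // ∃ g ∈ F, g • v = v} : ℕ) : ℝ) ≤
      ∑ g ∈ F, (Nat.card {v : V i // g • v = v} : ℝ) := by
    exact_mod_cast far_union (V i) F
  linarith

theorem farber_sofic {G : Type} [Group G] (V : ℕ → Type) [∀ i, Fintype (V i)]
    [∀ i, MulAction G (V i)] (hV : IsFarber G V) : IsSofic G := by
  classical
  intro F e he
  obtain ⟨i, hi⟩ := (farber_few V hV (F.erase 1) (Finset.notMem_erase 1 F) e he).exists
  have hpos := hV.1 i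
  unfold FewFix at hi
  refine ⟨Fintype.card (V i), fun g => (Fintype.equivFin (V i)).permCongr (MulAction.toPerm g),
    hpos, ?_, ?_⟩
  · intro g _ h _
    have h1 : Finset.univ.filter (fun v : Fin (Fintype.card (V i)) =>
        (Fintype.equivFin (V i)).permCongr (MulAction.toPerm (g * h)) v ≠
        (Fintype.equivFin (V i)).permCongr (MulAction.toPerm g)
          ((Fintype.equivFin (V i)).permCongr (MulAction.toPerm h) v)) = ∅ := by
      rw [Finset.filter_eq_empty_iff]
      intro v _
      rw [not_not]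
      simp only [Equiv.permCongr_apply, MulAction.toPerm_apply, Equiv.symm_apply_apply, mul_smul]
    rw [h1, Finset.card_empty, Nat.cast_zero]
    positivity
  · intro g hg hg1
    have h1 : (Finset.univ.filter (fun v : Fin (Fintype.card (V i)) =>
        (Fintype.equivFin (V i)).permCongr (MulAction.toPerm g) v = v)).card =
        Nat.card {v : V i // g • v = v} := by
      rw [far_card]
      refine (Finset.card_bij (fun v _ => Fintype.equivFin (V i) v) ?_ ?_ ?_).symm
      · intro v hv
        rw [Finset.mem_filter] at hv ⊢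
        refine ⟨Finset.mem_univ _, ?_⟩
        rw [Equiv.permCongr_apply, Equiv.symm_apply_apply, MulAction.toPerm_apply, hv.2]
      · intro v _ w _ h
        exact (Fintype.equivFin (V i)).injective h
      · intro w hw
        rw [Finset.mem_filter] at hw
        refine ⟨(Fintype.equivFin (V i)).symm w, ?_, Equiv.apply_symm_apply _ _⟩
        rw [Finset.mem_filter]
        refine ⟨Finset.mem_univ _, ?_⟩
        have h2 := hw.2
        rw [Equiv.permCongr_apply, MulAction.toPerm_apply] at h2
        apply (Fintype.equivFin (V i)).injective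
        rw [h2, Equiv.apply_symm_apply]
    rw [h1]
    have h2 : ((Nat.card {v : V i // g • v = v} : ℕ) : ℝ) ≤
        ((Nat.card {v : V i // ∃ g ∈ F.erase 1, g • v = v} : ℕ) : ℝ) := by
      exact_mod_cast far_mono (V i) (F.erase 1) (Finset.mem_erase.2 ⟨hg1, hg⟩)
    exact h2.trans hi

theorem chain_farber {G : Type} [Group G] (Γ : ℕ → Subgroup G) [∀ i, Fintype (G ⧸ Γ i)]
    (hn : ∀ i, (Γ i).Normal) (ha : Antitone Γ) (hi : ⨅ i, Γ i = ⊥) :
    IsFarber G fun i => G ⧸ Γ i := by
  refine ⟨fun i => Fintype.card_pos, fun g hg => ?_⟩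
  have h1 : ∃ j, g ∉ Γ j := by
    by_contra hcon
    push Not at hcon
    apply hg
    have h2 : g ∈ ⨅ i, Γ i := by
      rw [Subgroup.mem_iInf]
      exact hcon
    rw [hi, Subgroup.mem_bot] at h2
    exact h2
  obtain ⟨j, hj⟩ := h1
  refine tendsto_const_nhds.congr' ?_
  filter_upwards [Filter.eventually_ge_atTop j] with i hij
  have h2 : g ∉ Γ i := fun h => hj (ha hij h)
  have h3 : IsEmpty {v : G ⧸ Γ i // g • v = v} := by
    refine ⟨?_⟩
    rintro ⟨v, hv⟩
    obtain ⟨a, rfl⟩ := QuotientGroup.mk_surjective v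
    have h4 : ((g * a : G) : G ⧸ Γ i) = (a : G ⧸ Γ i) := hv
    have h5 : (g * a)⁻¹ * a ∈ Γ i := QuotientGroup.eq.1 h4
    have h6 := (hn i).conj_mem _ (inv_mem h5) a
    have h7 : a * ((g * a)⁻¹ * a)⁻¹ * a⁻¹ = g := by group
    rw [h7] at h6
    exact h2 h6
  rw [Nat.card_of_isEmpty, Nat.cast_zero, zero_div]

/-- from an estimate for almost free actions to a limit -/
theorem farber_limit {G : Type} [Group G] (V : ℕ → Type) [∀ i, Fintype (V i)]
    [∀ i, MulAction G (V i)] (hV : IsFarber G V) (f : ℕ → ℝ)
    (h : ∀ ε : ℝ, 0 < ε → ∃ (F : Finset G) (δ : ℝ), (1 : G) ∉ F ∧ 0 < δ ∧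
      ∀ i, FewFix F δ (V i) → |f i| ≤ ε * Fintype.card (V i)) :
    Filter.Tendsto (fun i => f i / Fintype.card (V i)) Filter.atTop (nhds 0) := by
  rw [Metric.tendsto_nhds]
  intro ε hε
  obtain ⟨F, δ, hF, hδ, hfe⟩ := h (ε / 2) (by positivity)
  filter_upwards [farber_few V hV F hF δ hδ] with i hi
  have h1 : (0 : ℝ) < Fintype.card (V i) := by exact_mod_cast hV.1 i
  rw [Real.dist_eq, sub_zero, abs_div, abs_of_pos h1, div_lt_iff₀ h1]
  have h2 := hfe i hi
  nlinarith

end Pool.Agent.HGR
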