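import Mathlib
import Pool.Agent.HGR.Defs

set_option autoImplicit false

/-!
# Project HGR, module PubA: definitions used in the final statement of Theorem A
-/

open scoped BigOperators

namespace Pool.Agent.HGR

open Pool.Agent.LT

variable {G : Type} [Group G] (C : FinRes G) (V : Type) [Fintype V] [DecidableEq V] [MulAction G V]

/-- the integral homology group `H_p(V) = Cyc / Bdy` is generated by `k` elements, the classes of
the cycles `z i` -/
def GenBy (p k : ℕ) : Prop :=
  ∃ z : Fin k → (V × Fin (C.n p) → ℤ), (∀ i, z i ∈ Cyc C V p) ∧
    ∀ x ∈ Cyc C V p, ∃ c : Fin k → ℤ, x - ∑ i, c i • z i ∈ Bdy C V p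

/-- the minimal number of generators of `H_p(V)` -/
noncomputable def genNum (p : ℕ) : ℕ := sInf {k | GenBy C V p k}

/-- the order of the torsion subgroup of `H_p(V) = Cyc / Bdy`: the torsion subgroup is
`Sat (Bdy) / Bdy` (all elements of the saturation of the group of boundaries are cycles), so its
order is the index of the group of boundaries in its saturation -/
noncomputable def torsOrd (p : ℕ) : ℕ :=
  (Bdy C V p).toAddSubgroup.relIndex (Sat (Bdy C V p)).toAddSubgroup

end Pool.Agent.HGR
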