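import Mathlib
import Pool.Agent.LT.Base
import Pool.Agent.LT.LAVol
import Pool.Agent.LT.LAKer

set_option autoImplicit false

/-!
# Project HGR, module Reg1: the kernel of several short forms on a lattice (tg_h51.md, L4)

PLAN. Induction on a finset `J` of indices (as in the proof of `LT/LAKer.exists_kernel_basis`), each
step is `LT.one_form` (applied with `φ := Φ a`): for every `J : Finset I` there are `l', s` with
`LI (toR s)`, `s i ⬝ᵥ Φ a = 0` for `a ∈ J` (rows of the new matrix lie in the real row space of the old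
one, so they stay orthogonal: use `rs_dot`-like argument or carry the statement
`∀ x ∈ rs (toR s), ∀ a ∈ J, x ⬝ᵥ toV (Φ a) = 0`), `rs (toR s) ≤ rs (toR z)`, `l ≤ l' + J.card`,
`vol (toR s) ≤ vol (toR z) * ∏ a ∈ J, max 1 ..`.
-/

open scoped BigOperators

namespace Pool.Agent.HGR

open Pool.Agent.LT

private lemma Reg1_dot {X : Type} [Fintype X] (x y : X → ℤ) :
    toV x ⬝ᵥ toV y = ((x ⬝ᵥ y : ℤ) : ℝ) := by
  simp [toV, dotProduct]

private lemma Reg1_rs {k X : Type} [Fintype X] (A : Matrix k X ℝ) (v : X → ℝ)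
    (h : ∀ i, A i ⬝ᵥ v = 0) (x : X → ℝ) (hx : x ∈ rs A) : x ⬝ᵥ v = 0 := by
  unfold rs at hx
  induction hx using Submodule.span_induction with
  | mem x hx =>
    obtain ⟨i, rfl⟩ := hx
    exact h i
  | zero => exact zero_dotProduct v
  | add x y _ _ hx hy => rw [add_dotProduct, hx, hy, add_zero]
  | smul a x _ hx => rw [smul_dotProduct, hx, smul_zero]

theorem ker_forms {X I : Type} [Fintype X] [DecidableEq X] [Fintype I] [DecidableEq I] {l : ℕ}
    (z : Matrix (Fin l) X ℤ) (hz : LI (toR z)) (Φ : Matrix I X ℤ) :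
    ∃ (l' : ℕ) (s : Matrix (Fin l') X ℤ), LI (toR s) ∧ (∀ i, Φ.mulVec (s i) = 0) ∧
      rs (toR s) ≤ rs (toR z) ∧ l ≤ l' + Fintype.card I ∧
      vol (toR s) ≤ vol (toR z) * ∏ a, max 1 (∑ x, |(Φ a x : ℝ)|) := by
  have key : ∀ J : Finset I, ∃ (l' : ℕ) (s : Matrix (Fin l') X ℤ), LI (toR s) ∧
      (∀ i, ∀ a ∈ J, s i ⬝ᵥ Φ a = 0) ∧ rs (toR s) ≤ rs (toR z) ∧ l ≤ l' + J.card ∧
      vol (toR s) ≤ vol (toR z) * ∏ a ∈ J, max 1 (∑ x, |(Φ a x : ℝ)|) := by
    intro J
    induction J using Finset.induction_on with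
    | empty =>
      refine ⟨l, z, hz, fun i a ha => absurd ha (Finset.notMem_empty a), le_rfl, ?_, ?_⟩
      · rw [Finset.card_empty, add_zero]
      · rw [Finset.prod_empty, mul_one]
    | insert a J ha ih =>
      obtain ⟨l₁, s, k1, k2, k3, k4, k5⟩ := ih
      obtain ⟨l', s', j1, j2, j3, _, j5, j6⟩ := one_form s k1 (Φ a)
      refine ⟨l', s', j1, ?_, j3.trans k3, ?_, ?_⟩
      · intro i c hc
        rcases Finset.mem_insert.1 hc with rfl | hc
        · exact j2 i
        · have h1 : (toR s') i ∈ rs (toR s) := j3 (Submodule.subset_span ⟨i, rfl⟩)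
          have h2 := Reg1_rs (toR s) (toV (Φ c)) (fun i => by
            have h3 := Reg1_dot (s i) (Φ c)
            rw [k2 i c hc, Int.cast_zero] at h3
            exact h3) _ h1
          have h4 : toV (s' i) ⬝ᵥ toV (Φ c) = 0 := h2
          rw [Reg1_dot] at h4
          exact_mod_cast h4
      · rw [Finset.card_insert_of_notMem ha]
        omega
      · rw [Finset.prod_insert ha, mul_comm (max 1 _), ← mul_assoc]
        exact j6.trans (mul_le_mul_of_nonneg_right k5 (le_trans zero_le_one (le_max_left _ _)))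
  obtain ⟨l', s, k1, k2, k3, k4, k5⟩ := key Finset.univ
  refine ⟨l', s, k1, fun i => ?_, k3, k4, k5⟩
  funext a
  show Φ a ⬝ᵥ s i = 0
  rw [dotProduct_comm]
  exact k2 i a (Finset.mem_univ a)

end Pool.Agent.HGR
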