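import Mathlib
import Pool.Agent.LT.Base
import Pool.Agent.LT.LAVol
import Pool.Agent.LT.LAProj
import Pool.Agent.LT.LAExt
import Pool.Agent.HGR.Defs
import Pool.Agent.HGR.Cov
import Pool.Agent.HGR.Rat

set_option autoImplicit false

/-!
# Project HGR, module Reg2: extension by boundaries (tg_h51.md, L4, upper bound)

PLAN. `y` is a basis of the saturation of `range E`, so `rs (toR y) = rs (toR E)` (`rs_zb_sat`). All rows of
`s` lie in `rs (toR E)` (`mem_sat_iff`). By `LT.exists_ext (toR s) hs (toR E)` rows `E (j 0), .., E (j (t-1))` extend `s` to a real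
basis of `rs (toR E)` (number of rows `l + t = r`, by dimension). The integer matrix
`W = fromRows s (E.submatrix j id)` (reindexed by `Fin r`) has rows in `Sat (range E)`, so
`vol (toR y) ≤ vol (toR W)` by `vol_le_of_sub`; `vol_fromRows` and `vol_prj_le_pow` (or `prj_norm_le` and
`vol_le_prod`) give `vol (toR W) ≤ vol (toR s) * b ^ t`, as the Euclidean norm of a row of `E` is at most its
`ℓ¹` norm, at most `b`.
-/

open scoped BigOperators

namespace Pool.Agent.HGR

open Pool.Agent.LT

private theorem Reg2_row {X : Type} [Fintype X] (a : X → ℝ) (b : ℝ) (hb : 0 ≤ b)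
    (h : ∑ x, |a x| ≤ b) : a ⬝ᵥ a ≤ b ^ 2 := by
  have h1 : ∀ x, |a x| ≤ b := fun x =>
    (Finset.single_le_sum (f := fun x => |a x|) (fun x _ => abs_nonneg _)
      (Finset.mem_univ x)).trans h
  calc a ⬝ᵥ a = ∑ x, |a x| * |a x| := by
        unfold dotProduct
        exact Finset.sum_congr rfl fun x _ => (abs_mul_abs_self (a x)).symm
    _ ≤ ∑ x, |a x| * b := Finset.sum_le_sum fun x _ =>
        mul_le_mul_of_nonneg_left (h1 x) (abs_nonneg _)
    _ = (∑ x, |a x|) * b := by rw [Finset.sum_mul]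
    _ ≤ b * b := mul_le_mul_of_nonneg_right h hb
    _ = b ^ 2 := by ring

theorem ext_bdy {X Y : Type} [Fintype X] [DecidableEq X] [Fintype Y] [DecidableEq Y]
    (E : Matrix Y X ℤ) (b : ℝ) (hb : 1 ≤ b) (hE : ∀ y, ∑ x, |(E y x : ℝ)| ≤ b) {l r : ℕ}
    (s : Matrix (Fin l) X ℤ) (hs : LI (toR s))
    (hsE : ∀ i, s i ∈ Sat (LinearMap.range E.vecMulLinear)) (y : Matrix (Fin r) X ℤ)
    (hy : IsZB y (Sat (LinearMap.range E.vecMulLinear))) :
    l ≤ r ∧ vol (toR y) ≤ vol (toR s) * b ^ (r - l) := by
  classical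
  have hb0 : 0 ≤ b := zero_le_one.trans hb
  have h1 : rs (toR y) = rs (toR E) := rs_zb_sat E y hy
  have h2 : rs (toR s) ≤ rs (toR E) := by
    refine Submodule.span_le.2 ?_
    rintro _ ⟨i, rfl⟩
    exact (mem_sat_iff E _).1 (hsE i)
  obtain ⟨j, hj1, -, hj3⟩ := exists_ext (toR s) hs (toR E)
  have h3 : l + j.card = r := by
    rw [sup_eq_right.2 h2, ← h1, finrank_rs, rank_of_li _ (li_of_zb hy), Fintype.card_fin,
      Fintype.card_fin] at hj3
    exact hj3
  refine ⟨by omega, ?_⟩
  -- the integer matrix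
  set W : Matrix (Fin l ⊕ j) X ℤ :=
    Matrix.fromRows s (E.submatrix (Subtype.val : j → Y) id) with hW
  have hWR : toR W = Matrix.fromRows (toR s) ((toR E).submatrix (Subtype.val : j → Y) id) := by
    ext a x
    rcases a with a | a <;> rfl
  have hcard : Fintype.card (Fin r) = Fintype.card (Fin l ⊕ j) := by
    rw [Fintype.card_fin, Fintype.card_sum, Fintype.card_fin, Fintype.card_coe, h3]
  obtain ⟨e⟩ := Fintype.card_eq.1 hcard
  have hv : vol (toR (W.submatrix e id)) = vol (toR W) := by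
    have h4 : toR (W.submatrix e id) = (toR W).submatrix e (Equiv.refl X) := rfl
    rw [h4, vol_submatrix]
  have hLI : LI (toR (W.submatrix e id)) := by
    apply li_of_vol_pos
    rw [hv]
    apply vol_pos
    rw [hWR]
    exact hj1
  have hrow : ∀ a, W a ∈ Sat (LinearMap.range E.vecMulLinear) := by
    intro a
    rcases a with a | a
    · exact hsE a
    · apply le_sat
      refine ⟨Pi.single (a : Y) 1, ?_⟩
      show Matrix.vecMul (Pi.single (a : Y) 1) E = E a
      rw [Matrix.single_one_vecMul]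
      rfl
  have h5 := vol_le_of_sub (W.submatrix e id) y hLI fun i => (zb_mem hy _).1 (hrow (e i))
  refine h5.trans ?_
  rw [hv, hWR, vol_fromRows _ _ hs]
  refine mul_le_mul_of_nonneg_left ?_ (vol_nonneg _)
  have h6 := vol_prj_le_pow (toR s) hs ((toR E).submatrix (Subtype.val : j → Y) id) b hb0
    fun i => Reg2_row _ b hb0 (hE i)
  have h7 : Fintype.card j = r - l := by
    rw [Fintype.card_coe]
    omega
  rwa [h7] at h6

end Pool.Agent.HGR
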