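import Mathlib
import Pool.Agent.LT.Base
import Pool.Agent.LT.LAVol
import Pool.Agent.HGR.Defs
import Pool.Agent.HGR.Cov
import Pool.Agent.HGR.Rat
import Pool.Agent.HGR.Reg1
import Pool.Agent.HGR.Reg2

set_option autoImplicit false

/-!
# Project HGR, module Reg3: the covolume inequality (tg_h51.md, L4)

PLAN. `z` (`Fin a`) a basis of `Z`, `y` (`Fin r`) a basis of `Sat B`, `B := range E.vecMulLinear`. `ker_forms`
gives `s` (`Fin l'`). Each row of `s` is an integer vector in `rs (toR z)`, so it lies in `Z` (`mem_of_rs_zb`);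
it is killed by `Φ`, so it lies in `B ⊆ Sat B`. `ext_bdy` gives `vol y ≤ vol s * b^(r - l')` and `r ≤ a ≤ l' + card I` (`Sat B ≤ Z` as
`Z` is saturated; `LI` rows in the row space: ranks), so `r - l' ≤ card I`. With `vol s ≤ vol z ∏ max 1 ..`,
`max 1 (‖Φ a‖₁) = ‖Φ a‖₁` (`Φ a ≠ 0` integral). Take logarithms:
`log cb ≤ log cz + ∑ log ‖Φ a‖₁ + card I * log b ≤ log cz + (1 + log b) ∑ (1 + log ‖Φ a‖₁)`.
-/

open scoped BigOperators

namespace Pool.Agent.HGR

open Pool.Agent.LT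

private theorem reg3_rank {a r : ℕ} {X : Type} [Fintype X] (z : Matrix (Fin a) X ℝ)
    (y : Matrix (Fin r) X ℝ) (hy : LI y) (h : rs y ≤ rs z) : r ≤ a := by
  have h1 : Module.finrank ℝ (rs y) = r := by
    have h2 := finrank_span_eq_card hy
    rw [Fintype.card_fin] at h2
    exact h2
  have h3 : Module.finrank ℝ (rs z) ≤ a := by
    have h4 := finrank_range_le_card (R := ℝ) z.row
    rw [Fintype.card_fin] at h4
    exact h4
  have h5 : Module.finrank ℝ (rs y) ≤ Module.finrank ℝ (rs z) := Submodule.finrank_mono h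
  omega

private theorem reg3_row {m X : Type} (s : Matrix m X ℤ) (i : m) : toV (s i) ∈ rs (toR s) :=
  Submodule.subset_span ⟨i, rfl⟩

theorem covol_le {X Y I : Type} [Fintype X] [DecidableEq X] [Fintype Y] [DecidableEq Y]
    [Fintype I] [DecidableEq I] (Z : Submodule ℤ (X → ℤ))
    (hZ : ∀ (k : ℤ) (x : X → ℤ), k ≠ 0 → k • x ∈ Z → x ∈ Z) (E : Matrix Y X ℤ)
    (hEZ : LinearMap.range E.vecMulLinear ≤ Z) (Φ : Matrix I X ℤ) (hΦ : ∀ a, Φ a ≠ 0)
    (h : ∀ x ∈ Z, Φ.mulVec x = 0 → x ∈ LinearMap.range E.vecMulLinear)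
    (b : ℝ) (hb : 1 ≤ b) (hE : ∀ y, ∑ x, |(E y x : ℝ)| ≤ b) (cz cb : ℝ) (hz : HasCovol Z cz)
    (hcb : HasCovol (Sat (LinearMap.range E.vecMulLinear)) cb) :
    Real.log cb ≤ Real.log cz + (1 + Real.log b) * ∑ a, (1 + Real.log (∑ x, |(Φ a x : ℝ)|)) := by
  obtain ⟨a, z, hz1, rfl⟩ := (covol_iff _ _).1 hz
  obtain ⟨r, y, hy1, rfl⟩ := (covol_iff _ _).1 hcb
  have hzLI := li_of_zb hz1
  have hyLI := li_of_zb hy1
  obtain ⟨l', s, hs1, hs2, hs3, hs4, hs5⟩ := ker_forms z hzLI Φ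
  have hsZ : ∀ i, s i ∈ Z := fun i => mem_of_rs_zb Z hZ z hz1 (s i) (hs3 (reg3_row s i))
  have hsE : ∀ i, s i ∈ Sat (LinearMap.range E.vecMulLinear) := fun i =>
    le_sat _ (h (s i) (hsZ i) (hs2 i))
  obtain ⟨hlr, hvol⟩ := ext_bdy E b hb hE s hs1 hsE y hy1
  have hrs : rs (toR y) ≤ rs (toR z) := by
    unfold rs
    rw [Submodule.span_le]
    rintro _ ⟨i, rfl⟩
    have h1 : y i ∈ Sat (LinearMap.range E.vecMulLinear) := by
      rw [zb_mem hy1]
      exact ⟨Pi.single i 1, by rw [Matrix.single_one_vecMul]; rfl⟩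
    have h2 : y i ∈ Z := sat_le Z _ hZ hEZ h1
    obtain ⟨c, hc⟩ := (zb_mem hz1 (y i)).1 h2
    have h3 : toV (y i) ∈ rs (toR z) := by
      rw [mem_rs]
      exact ⟨toV c, by rw [← toV_vecMul, hc]⟩
    exact h3
  have hra : r ≤ a := reg3_rank _ _ hyLI hrs
  have hrl : r - l' ≤ Fintype.card I := by omega
  -- the norms of the forms
  have hone : ∀ i, 1 ≤ ∑ x, |(Φ i x : ℝ)| := by
    intro i
    obtain ⟨x, hx⟩ := Function.ne_iff.1 (hΦ i)
    have h1 : (1 : ℝ) ≤ |(Φ i x : ℝ)| := by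
      have h2 : (1 : ℤ) ≤ |Φ i x| := Int.one_le_abs hx
      have h3 : ((1 : ℤ) : ℝ) ≤ ((|Φ i x| : ℤ) : ℝ) := by exact_mod_cast h2
      rw [Int.cast_one, Int.cast_abs] at h3
      exact h3
    exact h1.trans (Finset.single_le_sum (f := fun x => |(Φ i x : ℝ)|)
      (fun x _ => abs_nonneg _) (Finset.mem_univ x))
  have hprod : ∏ i, max 1 (∑ x, |(Φ i x : ℝ)|) = ∏ i, ∑ x, |(Φ i x : ℝ)| :=
    Finset.prod_congr rfl fun i _ => max_eq_right (hone i)
  rw [hprod] at hs5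
  have hvz := vol_pos _ hzLI
  have hvy := vol_pos _ hyLI
  have hvs := vol_pos _ hs1
  have hb0 : 0 < b := by linarith
  have hlb : 0 ≤ Real.log b := Real.log_nonneg hb
  have hPpos : 0 < ∏ i, ∑ x, |(Φ i x : ℝ)| :=
    Finset.prod_pos fun i _ => by linarith [hone i]
  have h1 : Real.log (vol (toR y)) ≤ Real.log (vol (toR s)) + (r - l' : ℕ) * Real.log b := by
    have h2 := Real.log_le_log hvy hvol
    rw [Real.log_mul hvs.ne' (pow_pos hb0 _).ne', Real.log_pow] at h2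
    exact h2
  have h2 : Real.log (vol (toR s)) ≤
      Real.log (vol (toR z)) + ∑ i, Real.log (∑ x, |(Φ i x : ℝ)|) := by
    have h3 := Real.log_le_log hvs hs5
    rw [Real.log_mul hvz.ne' hPpos.ne',
      Real.log_prod (fun i _ => (by linarith [hone i] : (0 : ℝ) < _).ne')] at h3
    exact h3
  have h3 : ((r - l' : ℕ) : ℝ) * Real.log b ≤ Fintype.card I * Real.log b :=
    mul_le_mul_of_nonneg_right (by exact_mod_cast hrl) hlb
  have h4 : ∑ i, (1 + Real.log (∑ x, |(Φ i x : ℝ)|)) =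
      Fintype.card I + ∑ i, Real.log (∑ x, |(Φ i x : ℝ)|) := by
    rw [Finset.sum_add_distrib, Finset.sum_const, Finset.card_univ, nsmul_eq_mul, mul_one]
  have h5 : 0 ≤ ∑ i, Real.log (∑ x, |(Φ i x : ℝ)|) :=
    Finset.sum_nonneg fun i _ => Real.log_nonneg (hone i)
  have h6 : (0 : ℝ) ≤ Fintype.card I := Nat.cast_nonneg _
  rw [h4]
  nlinarith [mul_nonneg hlb h5]

end Pool.Agent.HGR
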