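import Mathlib
import Pool.Agent.LT.Amen
import Pool.Agent.HGR.Defs
import Pool.Agent.HGR.Sq
import Pool.Agent.HGR.Bnd
import Pool.Agent.HGR.Dat3
import Pool.Agent.HGR.Abs1
import Pool.Agent.HGR.Abs2
import Pool.Agent.HGR.Abs6
import Pool.Agent.HGR.Reg3

set_option autoImplicit false

/-!
# Project HGR, module ThmA: homology growth and the lower bound for the regulators

PLAN. `exists_main` (one degree `p`): `b` from `exists_bnd`, `θ := ε / (2 (1 + log b))`, `F, K` from
`exists_data`, `δ := ε / (2 (1 + log b) (K + 1))`; for `FewFix F δ V` the cost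
`s := ∑ a, (1 + log ‖Φ a‖₁)` satisfies `(1 + log b) s ≤ ε |V|`, and `card I ≤ s` (every summand is `≥ 1`
since `Φ a ≠ 0` is integral, so its `ℓ¹` norm is `≥ 1`). Then
(1) `gen_le` with `f := Φ.mulVecLin` (2) `tors_finite` (3) `log_tors_le` with `E := dV C V p` (column sums;
`Bdy C V p = range E.vecMulLinear` by `rfl`), (4) `covol_le` (row sums, `sat_cyc`, `bdy_le_cyc`).
`thm_A`: take `F := ⋃_{p ≤ d} F_p`, `δ := min` (`FewFix` is monotone: smaller `F`, larger `δ`); for
`p > C.d` the type `Fin (C.n p)` is empty (`C.n_zero`), so the chain group, `Hmg` are trivial (subsingletons):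
`s = ∅`, torsion has one element, both covolumes are `1` (matrices with `r = 0` rows: a basis of the
zero group is empty).
-/

open scoped BigOperators

namespace Pool.Agent.HGR

open Pool.Agent.LT

/-- the four statements of the theorem in degree `p` -/
def Concl {G : Type} [Group G] (C : FinRes G) (V : Type) [Fintype V] [DecidableEq V]
    [MulAction G V] (ε : ℝ) (p : ℕ) : Prop :=
  (∃ s : Finset (Hmg C V p), (s.card : ℝ) ≤ ε * Fintype.card V ∧
    Submodule.span ℤ (s : Set (Hmg C V p)) = ⊤) ∧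
  Finite (Tors C V p) ∧ Real.log (Nat.card (Tors C V p)) ≤ ε * Fintype.card V ∧
  ∀ cz cb : ℝ, HasCovol (Cyc C V p) cz → HasCovol (Sat (Bdy C V p)) cb →
    Real.log cb ≤ Real.log cz + ε * Fintype.card V

private theorem thmA_one {X I : Type} [Fintype X] (Φ : Matrix I X ℤ) (a : I) (h : Φ a ≠ 0) :
    (1 : ℝ) ≤ ∑ x, |(Φ a x : ℝ)| := by
  obtain ⟨x, hx⟩ := Function.ne_iff.1 h
  have h1 : (1 : ℝ) ≤ |(Φ a x : ℝ)| := by
    have h2 : (1 : ℤ) ≤ |Φ a x| := Int.one_le_abs hx
    exact_mod_cast h2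
  exact h1.trans (Finset.single_le_sum (f := fun x => |(Φ a x : ℝ)|)
    (fun _ _ => abs_nonneg _) (Finset.mem_univ x))

theorem exists_main {G : Type} [Group G] (C : FinRes G) (N : Subgroup G) [N.Normal] (hN : FN N)
    (hinf : (N : Set G).Infinite) (p : ℕ) (ε : ℝ) (hε : 0 < ε) :
    ∃ (F : Finset G) (δ : ℝ), (1 : G) ∉ F ∧ 0 < δ ∧
      ∀ (V : Type) [Fintype V] [DecidableEq V] [MulAction G V], FewFix F δ V →
        Concl C V ε p := by
  obtain ⟨b, hb, hbnd⟩ := exists_bnd C
  have hlb : 0 ≤ Real.log b := Real.log_nonneg hb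
  have hl0 : 0 < 1 + Real.log b := by linarith
  obtain ⟨F, K, hF, hK, hdat⟩ := exists_data C N hN hinf p (ε / (2 * (1 + Real.log b)))
    (by positivity)
  have hK1 : 0 < K + 1 := by linarith
  refine ⟨F, ε / (2 * (1 + Real.log b) * (K + 1)), hF, by positivity, ?_⟩
  intro V _ _ _ hV
  obtain ⟨I, iI, dI, Φ, hΦ, hcost, hker⟩ := hdat V
  obtain ⟨hcol, hrow⟩ := hbnd V p
  have hS : ∀ a, 0 ≤ Real.log (∑ x, |(Φ a x : ℝ)|) := fun a =>
    Real.log_nonneg (thmA_one Φ a (hΦ a))
  have hV0 : (0 : ℝ) ≤ Fintype.card V := Nat.cast_nonneg _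
  have hmain : (1 + Real.log b) * ∑ a, (1 + Real.log (∑ x, |(Φ a x : ℝ)|)) ≤
      ε * Fintype.card V := by
    unfold FewFix at hV
    have h1 : ∑ a, (1 + Real.log (∑ x, |(Φ a x : ℝ)|)) ≤
        ε / (2 * (1 + Real.log b)) * Fintype.card V +
          K * (ε / (2 * (1 + Real.log b) * (K + 1)) * Fintype.card V) :=
      hcost.trans (add_le_add le_rfl (mul_le_mul_of_nonneg_left hV hK))
    refine (mul_le_mul_of_nonneg_left h1 hl0.le).trans ?_
    have h2 : (1 + Real.log b) * (ε / (2 * (1 + Real.log b)) * Fintype.card V +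
          K * (ε / (2 * (1 + Real.log b) * (K + 1)) * Fintype.card V)) =
        ε * Fintype.card V * (1 / 2 + K / (2 * (K + 1))) := by
      field_simp
    rw [h2]
    have h3 : 1 / 2 + K / (2 * (K + 1)) ≤ 1 := by
      have h4 : K / (2 * (K + 1)) ≤ 1 / 2 := by
        rw [div_le_div_iff₀ (by positivity) (by norm_num)]
        linarith
      linarith
    have h5 : 0 ≤ ε * Fintype.card V := mul_nonneg hε.le hV0
    exact mul_le_of_le_one_right h5 h3
  have hker' : ∀ x ∈ Cyc C V p, Φ.mulVec x = 0 →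
      x ∈ LinearMap.range (dV C V p).vecMulLinear := hker
  have hle : LinearMap.range (dV C V p).vecMulLinear ≤ Cyc C V p := bdy_le_cyc C V p
  refine ⟨?_, tors_finite (Cyc C V p) (Bdy C V p), ?_, ?_⟩
  · obtain ⟨s, hs1, hs2⟩ := gen_le (Cyc C V p) (Bdy C V p) Φ.mulVecLin fun x hx h0 => hker x hx h0
    refine ⟨s, ?_, hs2⟩
    have h1 : (s.card : ℝ) ≤ Fintype.card I := by exact_mod_cast hs1
    have h2 : (Fintype.card I : ℝ) ≤ ∑ a, (1 + Real.log (∑ x, |(Φ a x : ℝ)|)) := by
      rw [Finset.sum_add_distrib, Finset.sum_const, Finset.card_univ, nsmul_eq_mul, mul_one]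
      have h3 : 0 ≤ ∑ a, Real.log (∑ x, |(Φ a x : ℝ)|) := Finset.sum_nonneg fun a _ => hS a
      linarith
    have h4 : 0 ≤ ∑ a, (1 + Real.log (∑ x, |(Φ a x : ℝ)|)) :=
      Finset.sum_nonneg fun a _ => by linarith [hS a]
    have h5 : ∑ a, (1 + Real.log (∑ x, |(Φ a x : ℝ)|)) ≤
        (1 + Real.log b) * ∑ a, (1 + Real.log (∑ x, |(Φ a x : ℝ)|)) :=
      le_mul_of_one_le_left h4 (by linarith)
    exact h1.trans (h2.trans (h5.trans hmain))
  · exact (log_tors_le (Cyc C V p) (dV C V p) hle Φ hΦ hker' b hb hcol).trans hmain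
  · intro cz cb hz hcb
    have h1 := covol_le (Cyc C V p) (sat_cyc C V p) (dV C V p) hle Φ hΦ hker' b hb hrow cz cb hz hcb
    linarith

private theorem thmA_covol {X : Type} [Fintype X] [IsEmpty X] {L : Submodule ℤ (X → ℤ)} {c : ℝ}
    (h : HasCovol L c) : c = 1 := by
  obtain ⟨r, A, hA, rfl⟩ := h
  have hr : r = 0 := by
    by_contra h0
    have h1 := hA.1.ne_zero (⟨0, Nat.pos_of_ne_zero h0⟩ : Fin r)
    exact h1 (Subsingleton.elim _ _)
  subst hr
  rw [Matrix.det_isEmpty, Int.cast_one, Real.sqrt_one]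

theorem concl_top {G : Type} [Group G] (C : FinRes G) (V : Type) [Fintype V] [DecidableEq V]
    [MulAction G V] (ε : ℝ) (hε : 0 < ε) (p : ℕ) (hp : C.d < p) : Concl C V ε p := by
  have hn : C.n p = 0 := C.n_zero p hp
  have hE : IsEmpty (Fin (C.n p)) := by
    rw [hn]
    exact Fin.isEmpty
  have hX : IsEmpty (V × Fin (C.n p)) := inferInstance
  have hS : Subsingleton (V × Fin (C.n p) → ℤ) := inferInstance
  have hC : Subsingleton (Cyc C V p) := inferInstance
  have hH : Subsingleton (Hmg C V p) := by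
    constructor
    intro x y
    obtain ⟨x', rfl⟩ := Submodule.Quotient.mk_surjective _ x
    obtain ⟨y', rfl⟩ := Submodule.Quotient.mk_surjective _ y
    rw [Subsingleton.elim x' y']
  have hT : Subsingleton (Tors C V p) := ⟨fun x y => Subtype.ext (Subsingleton.elim _ _)⟩
  have hV0 : 0 ≤ ε * Fintype.card V := mul_nonneg hε.le (Nat.cast_nonneg _)
  refine ⟨⟨∅, ?_, ?_⟩, inferInstance, ?_, ?_⟩
  · rw [Finset.card_empty, Nat.cast_zero]
    exact hV0
  · rw [eq_top_iff]
    rintro x -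
    rw [Subsingleton.elim x 0]
    exact Submodule.zero_mem _
  · have h1 : Nat.card (Tors C V p) = 1 := Nat.card_eq_one_iff_unique.2 ⟨hT, ⟨0⟩⟩
    rw [h1, Nat.cast_one, Real.log_one]
    exact hV0
  · intro cz cb hz hcb
    rw [thmA_covol hz, thmA_covol hcb]
    linarith

private theorem thmA_few {G : Type} [Group G] {F F' : Finset G} {δ δ' : ℝ} (V : Type) [Fintype V]
    [MulAction G V] (hF : F' ⊆ F) (hδ : δ ≤ δ') (h : FewFix F δ V) : FewFix F' δ' V := by
  unfold FewFix at h ⊢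
  have h1 : Nat.card {v : V // ∃ g ∈ F', g • v = v} ≤ Nat.card {v : V // ∃ g ∈ F, g • v = v} := by
    have h0 : ∀ v : {v : V // ∃ g ∈ F', g • v = v}, ∃ g ∈ F, g • v.1 = v.1 := fun v => by
      obtain ⟨g, hg, hv⟩ := v.2
      exact ⟨g, hF hg, hv⟩
    refine Nat.card_le_card_of_injective
      (fun v => (⟨v.1, h0 v⟩ : {v : V // ∃ g ∈ F, g • v = v})) ?_
    intro v w hvw
    have h1 : v.1 = w.1 := (Subtype.mk.injEq _ _ _ _).mp hvw
    exact Subtype.ext h1
  have h2 : (Nat.card {v : V // ∃ g ∈ F', g • v = v} : ℝ) ≤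
      Nat.card {v : V // ∃ g ∈ F, g • v = v} := by exact_mod_cast h1
  exact h2.trans (h.trans (mul_le_mul_of_nonneg_right hδ (Nat.cast_nonneg _)))

theorem thm_A {G : Type} [Group G] (C : FinRes G) (N : Subgroup G) [N.Normal] [Infinite N]
    (hN : IsAmenable N) (ε : ℝ) (hε : 0 < ε) :
    ∃ (F : Finset G) (δ : ℝ), (1 : G) ∉ F ∧ 0 < δ ∧
      ∀ (V : Type) [Fintype V] [DecidableEq V] [MulAction G V], FewFix F δ V →
        ∀ p, Concl C V ε p := by
  classical
  have hinf : (N : Set G).Infinite := Set.infinite_coe_iff.1 (inferInstance : Infinite N)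
  have hm := fun p => exists_main C N (fn_of_isAmenable N hN) hinf p ε hε
  choose F δ hF hδ hm using hm
  have hne : (Finset.range (C.d + 1)).Nonempty := Finset.nonempty_range_add_one
  refine ⟨(Finset.range (C.d + 1)).biUnion F, (Finset.range (C.d + 1)).inf' hne δ, ?_, ?_, ?_⟩
  · intro h
    obtain ⟨p, -, hp⟩ := Finset.mem_biUnion.1 h
    exact hF p hp
  · exact (Finset.lt_inf'_iff hne).2 fun p _ => hδ p
  · intro V _ _ _ hV p
    by_cases hp : p ≤ C.d
    · have hp' : p ∈ Finset.range (C.d + 1) := Finset.mem_range.2 (Nat.lt_succ_of_le hp)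
      exact hm p V (thmA_few V (Finset.subset_biUnion_of_mem F hp') (Finset.inf'_le δ hp') hV)
    · exact concl_top C V ε hε p (not_le.1 hp)

end Pool.Agent.HGR
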