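import Mathlib
import Pool.Agent.HGR.Defs
import Pool.Agent.HGR.PubA
import Pool.Agent.HGR.Sq
import Pool.Agent.HGR.Abs2
import Pool.Agent.HGR.ThmA
import Pool.Agent.HGR.Far

set_option autoImplicit false

/-!
# Project HGR, module FinA: the final form of Theorem A
-/

open scoped BigOperators

namespace Pool.Agent.HGR

open Pool.Agent.LT

private lemma finA_relIndex {n : Type} (B : Submodule ℤ (n → ℤ)) :
    B.toAddSubgroup.relIndex (Sat B).toAddSubgroup =
      Nat.card (Submodule.torsion ℤ ((n → ℤ) ⧸ B)) := by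
  let f : (Sat B).toAddSubgroup →+ (n → ℤ) ⧸ B :=
    (B.mkQ : (n → ℤ) →+ (n → ℤ) ⧸ B).comp (Sat B).toAddSubgroup.subtype
  have h1 : f.ker = B.toAddSubgroup.addSubgroupOf (Sat B).toAddSubgroup := by
    ext x
    rw [AddMonoidHom.mem_ker, AddSubgroup.mem_addSubgroupOf]
    exact Submodule.Quotient.mk_eq_zero B
  have h2 := AddSubgroup.index_ker f
  rw [h1] at h2
  change (B.toAddSubgroup.addSubgroupOf (Sat B).toAddSubgroup).index = _
  rw [h2]
  refine Nat.card_congr (Equiv.subtypeEquivRight fun t => ?_)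
  rw [AddMonoidHom.mem_range, Submodule.mem_torsion_iff]
  constructor
  · rintro ⟨⟨x, k, hk, hx⟩, rfl⟩
    refine ⟨⟨k, mem_nonZeroDivisors_of_ne_zero hk⟩, ?_⟩
    change B.mkQ (k • x) = 0
    exact (Submodule.Quotient.mk_eq_zero B).2 hx
  · rintro ⟨⟨k, hk⟩, hkt⟩
    obtain ⟨x, rfl⟩ := Submodule.mkQ_surjective B t
    refine ⟨⟨x, k, nonZeroDivisors.ne_zero hk, ?_⟩, rfl⟩
    have h3 : B.mkQ (k • x) = 0 := hkt
    exact (Submodule.Quotient.mk_eq_zero B).1 h3

private lemma finA_tors {G : Type} [Group G] (C : FinRes G) (V : Type) [Fintype V]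
    [DecidableEq V] [MulAction G V] (p : ℕ) : torsOrd C V p = Nat.card (Tors C V p) := by
  unfold torsOrd
  rw [finA_relIndex, ← tors_sub (Cyc C V p) (Bdy C V p) (bdy_le_cyc C V p)
    (fun k x hk h => sat_cyc C V p k x hk h)]

private lemma finA_gen {G : Type} [Group G] (C : FinRes G) (V : Type) [Fintype V]
    [DecidableEq V] [MulAction G V] (p : ℕ) (s : Finset (Hmg C V p))
    (hs : Submodule.span ℤ (s : Set (Hmg C V p)) = ⊤) : GenBy C V p s.card := by
  let e : Fin s.card ≃ s := s.equivFin.symm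
  have h1 : ∀ i, ∃ z : Cyc C V p,
      ((Bdy C V p).submoduleOf (Cyc C V p)).mkQ z = (e i : Hmg C V p) := fun i =>
    Submodule.mkQ_surjective _ _
  choose z hz using h1
  refine ⟨fun i => (z i).1, fun i => (z i).2, fun x hx => ?_⟩
  have h2 : ((Bdy C V p).submoduleOf (Cyc C V p)).mkQ ⟨x, hx⟩ ∈
      Submodule.span ℤ (Set.range fun i => (e i : Hmg C V p)) := by
    have h3 : (Set.range fun i => (e i : Hmg C V p)) = (s : Set (Hmg C V p)) := by
      ext t
      constructor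
      · rintro ⟨i, rfl⟩
        exact (e i).2
      · intro ht
        exact ⟨e.symm ⟨t, ht⟩, by simp⟩
    rw [h3, hs]
    exact Submodule.mem_top
  obtain ⟨c, hc⟩ := (Submodule.mem_span_range_iff_exists_fun ℤ).1 h2
  refine ⟨c, ?_⟩
  have h4 : ((Bdy C V p).submoduleOf (Cyc C V p)).mkQ (⟨x, hx⟩ - ∑ i, c i • z i) = 0 := by
    rw [map_sub, map_sum, ← hc, sub_eq_zero]
    refine Finset.sum_congr rfl fun i _ => ?_
    rw [map_smul, hz]
  have h5 := (Submodule.Quotient.mk_eq_zero _).1 h4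
  have h6 : (Cyc C V p).subtype (⟨x, hx⟩ - ∑ i, c i • z i) ∈ Bdy C V p := h5
  rw [map_sub, map_sum] at h6
  exact h6

theorem fin_A {G : Type} [Group G] (N : Subgroup G) [N.Normal] [Infinite N]
    (hN : IsAmenable N) (C : FinRes G) :
    (∀ ε : ℝ, 0 < ε → ∃ (F : Finset G) (δ : ℝ), (1 : G) ∉ F ∧ 0 < δ ∧
      ∀ (V : Type) [Fintype V] [DecidableEq V] [MulAction G V], FewFix F δ V → ∀ p,
        (∃ k : ℕ, GenBy C V p k ∧ (k : ℝ) ≤ ε * Fintype.card V) ∧
        0 < torsOrd C V p ∧ Real.log (torsOrd C V p) ≤ ε * Fintype.card V) ∧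
    ∀ (V : ℕ → Type) [∀ i, Fintype (V i)] [∀ i, DecidableEq (V i)] [∀ i, MulAction G (V i)],
      IsFarber G V → ∀ p,
        Filter.Tendsto (fun i => Real.log (torsOrd C (V i) p) / Fintype.card (V i))
          Filter.atTop (nhds 0) ∧
        Filter.Tendsto (fun i => (genNum C (V i) p : ℝ) / Fintype.card (V i))
          Filter.atTop (nhds 0) := by
  have hA : ∀ ε : ℝ, 0 < ε → ∃ (F : Finset G) (δ : ℝ), (1 : G) ∉ F ∧ 0 < δ ∧
      ∀ (V : Type) [Fintype V] [DecidableEq V] [MulAction G V], FewFix F δ V → ∀ p,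
        (∃ k : ℕ, GenBy C V p k ∧ (k : ℝ) ≤ ε * Fintype.card V) ∧
        0 < torsOrd C V p ∧ Real.log (torsOrd C V p) ≤ ε * Fintype.card V := by
    intro ε hε
    obtain ⟨F, δ, h1, h2, h3⟩ := thm_A C N hN ε hε
    refine ⟨F, δ, h1, h2, fun V _ _ _ hF p => ?_⟩
    obtain ⟨⟨s, hs1, hs2⟩, hfin, hlog, -⟩ := h3 V hF p
    refine ⟨⟨s.card, finA_gen C V p s hs2, hs1⟩, ?_, ?_⟩
    · rw [finA_tors]
      exact Nat.card_pos
    · rw [finA_tors]
      exact hlog
  refine ⟨hA, fun V _ _ _ hV p => ⟨?_, ?_⟩⟩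
  · refine farber_limit V hV _ fun ε hε => ?_
    obtain ⟨F, δ, h1, h2, h3⟩ := hA ε hε
    refine ⟨F, δ, h1, h2, fun i hi => ?_⟩
    rw [abs_of_nonneg (Real.log_natCast_nonneg _)]
    exact (h3 (V i) hi p).2.2
  · refine farber_limit V hV _ fun ε hε => ?_
    obtain ⟨F, δ, h1, h2, h3⟩ := hA ε hε
    refine ⟨F, δ, h1, h2, fun i hi => ?_⟩
    obtain ⟨k, hk1, hk2⟩ := (h3 (V i) hi p).1
    rw [abs_of_nonneg (Nat.cast_nonneg _)]
    refine le_trans ?_ hk2
    exact_mod_cast Nat.sInf_le hk1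

end Pool.Agent.HGR
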