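import Mathlib
import Pool.Agent.LT.Base
import Pool.Agent.LT.LAVol
import Pool.Agent.LT.FinLap
import Pool.Agent.HGR.Defs
import Pool.Agent.HGR.Asy

set_option autoImplicit false

/-!
# Project HGR, module Lap: `ldet'` of Laplacians

PLAN. `ldet_lap`: `LT.logdet_lap`, `tendsto_ldet` for the three positive semidefinite matrices
(`gram_posSemidef`, sum of two), `asy_unique`. `ldet_zero`: all eigenvalues of the zero matrix vanish
(or by the limit: `log det (δ² • 1) = 2 card m log δ`). `ldet_trans`: `ldet_lap` with `A := 0`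
(`Matrix m (Fin 0) ℝ` or any zero matrix).
-/

open scoped BigOperators Topology

namespace Pool.Agent.HGR

open Pool.Agent.LT

theorem ldet_zero {m : Type} [Fintype m] [DecidableEq m] : ldet' (0 : Matrix m m ℝ) = 0 := by
  unfold ldet'
  split_ifs with h
  · refine Finset.sum_eq_zero fun i _ => ?_
    have h1 : h.eigenvalues = 0 := h.eigenvalues_eq_zero_iff.2 rfl
    rw [h1, Pi.zero_apply, Real.log_zero]
  · rfl

private theorem Lap_trans_psd {m l : Type} [Fintype m] [DecidableEq m] [Fintype l] [DecidableEq l]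
    (B : Matrix l m ℝ) : (B.transpose * B).PosSemidef := by
  have h := gram_posSemidef B.transpose
  rwa [Matrix.transpose_transpose] at h

theorem ldet_lap {m n l : Type} [Fintype m] [DecidableEq m] [Fintype n] [DecidableEq n]
    [Fintype l] [DecidableEq l] (A : Matrix m n ℝ) (B : Matrix l m ℝ) (hBA : B * A = 0) :
    ldet' (A * A.transpose + B.transpose * B) =
      ldet' (A * A.transpose) + ldet' (B * B.transpose) := by
  obtain ⟨κ1, h1⟩ := tendsto_ldet _ ((gram_posSemidef A).add (Lap_trans_psd B))
  obtain ⟨κ2, h2⟩ := tendsto_ldet _ (gram_posSemidef A)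
  obtain ⟨κ3, h3⟩ := tendsto_ldet _ (gram_posSemidef B)
  refine asy_unique _ κ1 (κ2 + κ3 - 2 * Fintype.card l) _ _ h1 ((h2.add h3).congr' ?_)
  filter_upwards [self_mem_nhdsWithin] with δ hδ
  rw [logdet_lap A B hBA δ hδ]
  unfold ld
  ring

theorem ldet_trans {m l : Type} [Fintype m] [DecidableEq m] [Fintype l] [DecidableEq l]
    (B : Matrix l m ℝ) : ldet' (B.transpose * B) = ldet' (B * B.transpose) := by
  have h := ldet_lap (0 : Matrix m (Fin 0) ℝ) B (Matrix.mul_zero B)
  rw [Matrix.zero_mul, zero_add, ldet_zero, zero_add] at h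
  exact h

end Pool.Agent.HGR
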