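import Mathlib
import Pool.Agent.LT.Base
import Pool.Agent.LT.LAVol
import Pool.Agent.HGR.Defs
import Pool.Agent.HGR.Sq
import Pool.Agent.HGR.Cov
import Pool.Agent.HGR.Abs2
import Pool.Agent.HGR.Lap
import Pool.Agent.HGR.DetC

set_option autoImplicit false

/-!
# Project HGR, module Tor: the formula for the combinatorial torsion (tg_h51.md, D3)

PLAN. `l p := 1/2 ldet' (toR (dV p) * (toR (dV p))ᵀ)`.
(1) `det_formula` for `D := dV C V p` (`ker D.vecMulLinear = Cyc C V (p+1)`, `range = Bdy C V p` by `rfl`):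
`l p = log (card (torsion of coker)) + log (cb p) + log (cz (p+1))`, and the torsion of the cokernel has the
same cardinality as `Tors C V p` (`tors_sub`, `bdy_le_cyc`, `sat_cyc`).
(2) `ldet' (lapV C V 0) = 2 l 0` (`ldet_trans`), `ldet' (lapV C V (p+1)) = 2 l p + 2 l (p+1)` (`ldet_lap` with
`A := toR (dV p)`, `B := toR (dV (p+1))`, `dV_sq`; the `map` of the integer matrix is `toR`, additive and
multiplicative).
(3) `l C.d = 0`: `dV C V C.d` has no rows (`C.n (C.d+1) = 0`), `ldet'` of a matrix indexed by an empty type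
is an empty sum. `log (cz 0) = 0`: `Cyc C V 0 = ⊤` has covolume `1` (`covol_unique` with the identity matrix).
(4) `rho_sum`: `-1/2 ∑_{p ≤ d} (-1)^p p (2 l (p-1) + 2 l p) = ∑_{p ≤ d} (-1)^p l p` when `l d = 0`, and
`∑_{p ≤ d} (-1)^p (t p + β p + ζ (p+1)) = ∑_{p ≤ d} (-1)^p (t p + β p - ζ p)` when `ζ 0 = 0` and
`ζ (d+1) = 0` (here `l d = 0 = t d + β d + ζ (d+1)` with all three `≥ 0`; simpler: use the sum over `p < d`
for `l` and `0 = l d`); inductions on `d`.
-/

open scoped BigOperators

namespace Pool.Agent.HGR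

open Pool.Agent.LT

/-- summation by parts -/
theorem rho_sum (d : ℕ) (l t β ζ L : ℕ → ℝ) (hl : ∀ p, l p = t p + β p + ζ (p + 1))
    (hd : l d = 0) (h0 : ζ 0 = 0) (hd1 : ζ (d + 1) = 0) (hL0 : L 0 = 2 * l 0)
    (hL : ∀ p, L (p + 1) = 2 * l p + 2 * l (p + 1)) :
    -(1 / 2 : ℝ) * ∑ p ∈ Finset.range (d + 1), (-1 : ℝ) ^ p * p * L p =
      ∑ p ∈ Finset.range (d + 1), (-1 : ℝ) ^ p * (t p + β p - ζ p) := by
  have h1 : ∀ k : ℕ, -(1 / 2 : ℝ) * ∑ p ∈ Finset.range (k + 1), (-1 : ℝ) ^ p * p * L p =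
      ∑ p ∈ Finset.range (k + 1), (-1 : ℝ) ^ p * l p - (-1 : ℝ) ^ k * (k + 1) * l k := by
    intro k
    induction k with
    | zero =>
      simp only [zero_add, Finset.sum_range_one, pow_zero, Nat.cast_zero]
      ring
    | succ k ih =>
      rw [Finset.sum_range_succ, mul_add, ih, hL k, Finset.sum_range_succ _ (k + 1), pow_succ]
      push_cast
      ring
  have h2 : ∀ k : ℕ, ∑ p ∈ Finset.range (k + 1), (-1 : ℝ) ^ p * l p =
      ∑ p ∈ Finset.range (k + 1), (-1 : ℝ) ^ p * (t p + β p - ζ p) +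
        (-1 : ℝ) ^ k * ζ (k + 1) + ζ 0 := by
    intro k
    induction k with
    | zero =>
      simp only [zero_add, Finset.sum_range_one, pow_zero]
      rw [hl 0]
      ring
    | succ k ih =>
      rw [Finset.sum_range_succ, ih, hl (k + 1), Finset.sum_range_succ _ (k + 1), pow_succ]
      ring
  rw [h1 d, h2 d, hd, h0, hd1]
  ring

private theorem Tor_empty {m : Type} [Fintype m] [DecidableEq m] [IsEmpty m] (A : Matrix m m ℝ) :
    ldet' A = 0 := by
  unfold ldet'
  split_ifs with h
  · exact Fintype.sum_empty _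
  · rfl

private theorem Tor_top (X : Type) [Fintype X] [DecidableEq X] :
    HasCovol (⊤ : Submodule ℤ (X → ℤ)) 1 := by
  let e : X ≃ Fin (Fintype.card X) := Fintype.equivFin X
  let b := (Pi.basisFun ℤ X).reindex e
  let A : Matrix (Fin (Fintype.card X)) X ℤ := (1 : Matrix X X ℤ).submatrix e.symm id
  have hrow : A.row = ⇑b := by
    funext i
    rw [Module.Basis.reindex_apply, Pi.basisFun_apply]
    funext j
    show (1 : Matrix X X ℤ) (e.symm i) j = _
    rw [Matrix.one_apply, Pi.single_apply]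
    exact if_congr eq_comm rfl rfl
  refine ⟨Fintype.card X, A, ⟨?_, ?_⟩, ?_⟩
  · rw [hrow]
    exact b.linearIndependent
  · rw [hrow]
    exact b.span_eq
  · have h1 : A * A.transpose = 1 := by
      show (1 : Matrix X X ℤ).submatrix e.symm id *
        ((1 : Matrix X X ℤ).submatrix e.symm id).transpose = 1
      rw [Matrix.transpose_submatrix, Matrix.transpose_one,
        Matrix.submatrix_mul _ _ _ _ _ Function.bijective_id |>.symm, Matrix.mul_one,
        Matrix.submatrix_one_equiv]
    rw [h1, Matrix.det_one, Int.cast_one, Real.sqrt_one]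

theorem rho_formula {G : Type} [Group G] (C : FinRes G) (V : Type) [Fintype V] [DecidableEq V]
    [MulAction G V] (cz cb : ℕ → ℝ) (hz : ∀ p, HasCovol (Cyc C V p) (cz p))
    (hb : ∀ p, HasCovol (Sat (Bdy C V p)) (cb p)) :
    rhoV C V = ∑ p ∈ Finset.range (C.d + 1), (-1 : ℝ) ^ p *
      (Real.log (Nat.card (Tors C V p)) + Real.log (cb p) - Real.log (cz p)) := by
  have hl : ∀ p, 1 / 2 * ldet' (toR (dV C V p) * (toR (dV C V p)).transpose) =
      Real.log (Nat.card (Tors C V p)) + Real.log (cb p) + Real.log (cz (p + 1)) := by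
    intro p
    have h1 := det_formula (dV C V p) (cz (p + 1)) (cb p) (hz (p + 1)) (hb p)
    have h2 := tors_sub (Cyc C V p) (Bdy C V p) (bdy_le_cyc C V p)
      (fun k x hk h => sat_cyc C V p k x hk h)
    rw [h1]
    show Real.log (Nat.card (Submodule.torsion ℤ ((V × Fin (C.n p) → ℤ) ⧸ Bdy C V p)) : ℝ) +
      _ + _ = _
    rw [← h2]
  have hd : 1 / 2 * ldet' (toR (dV C V C.d) * (toR (dV C V C.d)).transpose) = 0 := by
    have h1 : C.n (C.d + 1) = 0 := C.n_zero _ (Nat.lt_succ_self _)
    have h2 : IsEmpty (V × Fin (C.n (C.d + 1))) := by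
      rw [h1]
      infer_instance
    rw [Tor_empty, mul_zero]
  have h0 : Real.log (cz 0) = 0 := by
    have h1 : cz 0 = 1 := covol_unique (hz 0) (Tor_top _)
    rw [h1, Real.log_one]
  have hd1 : Real.log (cz (C.d + 1)) = 0 := by
    have h1 := hl C.d
    rw [hd] at h1
    have h2 : 0 ≤ Real.log (Nat.card (Tors C V C.d) : ℝ) := Real.log_natCast_nonneg _
    have h3 : 0 ≤ Real.log (cb C.d) := Real.log_nonneg (one_le_covol (hb C.d))
    have h4 : 0 ≤ Real.log (cz (C.d + 1)) := Real.log_nonneg (one_le_covol (hz (C.d + 1)))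
    linarith
  have hmap : ∀ {a b : Type} (M N : Matrix a b ℤ), toR (M + N) = toR M + toR N := by
    intro a b M N
    ext i j
    exact Int.cast_add _ _
  unfold rhoV
  refine rho_sum C.d (fun p => 1 / 2 * ldet' (toR (dV C V p) * (toR (dV C V p)).transpose))
    (fun p => Real.log (Nat.card (Tors C V p))) (fun p => Real.log (cb p))
    (fun p => Real.log (cz p)) (fun p => ldet' (lapV C V p)) hl hd h0 hd1 ?_ ?_
  · have h1 : lapV C V 0 = (toR (dV C V 0)).transpose * toR (dV C V 0) := by
      show toR ((dV C V 0).transpose * dV C V 0) = _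
      rw [toR_mul, toR_transpose]
    show ldet' (lapV C V 0) = _
    rw [h1, ldet_trans]
    ring
  · intro p
    have h1 : lapV C V (p + 1) = toR (dV C V p) * (toR (dV C V p)).transpose +
        (toR (dV C V (p + 1))).transpose * toR (dV C V (p + 1)) := by
      show toR (dV C V p * (dV C V p).transpose +
        (dV C V (p + 1)).transpose * dV C V (p + 1)) = _
      rw [hmap, toR_mul, toR_mul, toR_transpose, toR_transpose]
    have h2 : toR (dV C V (p + 1)) * toR (dV C V p) = 0 := by
      rw [← toR_mul, dV_sq]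
      ext i j
      exact Int.cast_zero
    show ldet' (lapV C V (p + 1)) = _
    rw [h1, ldet_lap _ _ h2]
    ring

end Pool.Agent.HGR
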