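import Mathlib
import Pool.Agent.LT.Amen
import Pool.Agent.HGR.Defs
import Pool.Agent.HGR.Cov
import Pool.Agent.HGR.ThmA
import Pool.Agent.HGR.Dua3
import Pool.Agent.HGR.Tor

set_option autoImplicit false

/-!
# Project HGR, module ThmB: regulators and torsion (tg_h51.md, Theorem B)

PLAN. `thm_A` for `C` and for `C'` with `ε' := ε / (2 (C.d + 1))`; `F := F₁ ∪ F₂`, `δ := min`. For `q ≤ C.d`,
`p := C.d - q`: `log cb ≤ log cz + ε' |V|` from `C`; and `dual_cyc`, `dual_bdy`: `HasCovol (Cyc C' V p) cb`,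
`HasCovol (Sat (Bdy C' V p)) cz`, so the statement for `C'` is `log cz ≤ log cb + ε' |V|`. Hence
`|log cz - log cb| ≤ ε' |V| ≤ ε |V|`. Torsion: `rho_formula` with covolumes from `exists_covol`,
`0 ≤ log (card Tors) ≤ ε' |V|`, so `|rhoV| ≤ (C.d + 1) * 2 ε' |V| = ε |V|`.
-/

open scoped BigOperators

namespace Pool.Agent.HGR

open Pool.Agent.LT

private lemma ThmB_fewFix {G : Type} [Group G] {F F' : Finset G} (hF : F ⊆ F') {δ δ' : ℝ}
    (hδ : δ' ≤ δ) (V : Type) [Fintype V] [MulAction G V] (h : FewFix F' δ' V) :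
    FewFix F δ V := by
  unfold FewFix at h ⊢
  have h1 : Nat.card {v : V // ∃ g ∈ F, g • v = v} ≤
      Nat.card {v : V // ∃ g ∈ F', g • v = v} := by
    refine Nat.card_le_card_of_injective
      (fun x => ⟨x.1, x.2.elim fun g hg => ⟨g, hF hg.1, hg.2⟩⟩) ?_
    intro x y hxy
    exact Subtype.ext (Subtype.mk.inj hxy)
  calc (Nat.card {v : V // ∃ g ∈ F, g • v = v} : ℝ)
      ≤ (Nat.card {v : V // ∃ g ∈ F', g • v = v} : ℝ) := by exact_mod_cast h1
    _ ≤ δ' * Fintype.card V := h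
    _ ≤ δ * Fintype.card V := mul_le_mul_of_nonneg_right hδ (Nat.cast_nonneg _)

theorem thm_B {G : Type} [Group G] (C C' : FinRes G) (D : Dual C C') (N : Subgroup G) [N.Normal]
    [Infinite N] (hN : IsAmenable N) (ε : ℝ) (hε : 0 < ε) :
    ∃ (F : Finset G) (δ : ℝ), (1 : G) ∉ F ∧ 0 < δ ∧
      ∀ (V : Type) [Fintype V] [DecidableEq V] [MulAction G V], FewFix F δ V →
        (∀ p, p ≤ C.d → ∀ cz cb : ℝ, HasCovol (Cyc C V p) cz → HasCovol (Sat (Bdy C V p)) cb →
          |Real.log cz - Real.log cb| ≤ ε * Fintype.card V) ∧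
        |rhoV C V| ≤ ε * Fintype.card V := by
  classical
  have hm : (0 : ℝ) < (C.d : ℝ) + 1 := by positivity
  obtain ⟨e, he⟩ : ∃ e : ℝ, e = ε / (2 * ((C.d : ℝ) + 1)) := ⟨_, rfl⟩
  have he0 : 0 < e := by rw [he]; positivity
  have he1 : ((C.d : ℝ) + 1) * (2 * e) = ε := by
    rw [he]
    field_simp
  have he2 : e ≤ ε := by
    have h1 : (0 : ℝ) ≤ (C.d : ℝ) := Nat.cast_nonneg _
    nlinarith
  obtain ⟨F₁, δ₁, hF₁, hδ₁, H₁⟩ := thm_A C N hN e he0
  obtain ⟨F₂, δ₂, hF₂, hδ₂, H₂⟩ := thm_A C' N hN e he0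
  refine ⟨F₁ ∪ F₂, min δ₁ δ₂, ?_, lt_min hδ₁ hδ₂, ?_⟩
  · rw [Finset.mem_union]
    rintro (h | h)
    · exact hF₁ h
    · exact hF₂ h
  intro V _ _ _ hV
  have A1 := H₁ V (ThmB_fewFix Finset.subset_union_left (min_le_left _ _) V hV)
  have A2 := H₂ V (ThmB_fewFix Finset.subset_union_right (min_le_right _ _) V hV)
  have hnu : (0 : ℝ) ≤ Fintype.card V := Nat.cast_nonneg _
  have key : ∀ p, p ≤ C.d → ∀ cz cb : ℝ, HasCovol (Cyc C V p) cz →
      HasCovol (Sat (Bdy C V p)) cb → |Real.log cz - Real.log cb| ≤ e * Fintype.card V := by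
    intro p hp cz cb hz hb
    have h1 := (A1 p).2.2.2 cz cb hz hb
    have h2 := (A2 (C.d - p)).2.2.2 cb cz
      (dual_cyc D V (C.d - p) p (by omega) cb hb) (dual_bdy D V (C.d - p) p (by omega) cz hz)
    rw [abs_le]
    constructor <;> linarith
  refine ⟨fun p hp cz cb hz hb => (key p hp cz cb hz hb).trans
    (mul_le_mul_of_nonneg_right he2 hnu), ?_⟩
  choose cz hz using fun p => exists_covol (Cyc C V p)
  choose cb hb using fun p => exists_covol (Sat (Bdy C V p))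
  rw [rho_formula C V cz cb hz hb]
  refine (Finset.abs_sum_le_sum_abs _ _).trans ?_
  have hterm : ∀ p ∈ Finset.range (C.d + 1), |(-1 : ℝ) ^ p *
      (Real.log (Nat.card (Tors C V p)) + Real.log (cb p) - Real.log (cz p))| ≤
      2 * e * Fintype.card V := by
    intro p hp
    have hp' : p ≤ C.d := Nat.lt_succ_iff.1 (Finset.mem_range.1 hp)
    have h1 := key p hp' (cz p) (cb p) (hz p) (hb p)
    have h2 := (A1 p).2.2.1
    have h3 : 0 ≤ Real.log (Nat.card (Tors C V p)) := Real.log_natCast_nonneg _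
    rw [abs_mul, abs_pow, abs_neg, abs_one, one_pow, one_mul]
    rw [abs_le] at h1 ⊢
    constructor <;> linarith [h1.1, h1.2]
  refine (Finset.sum_le_sum hterm).trans ?_
  rw [Finset.sum_const, Finset.card_range, nsmul_eq_mul, Nat.cast_add, Nat.cast_one, ← mul_assoc,
    he1]

end Pool.Agent.HGR
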