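import Mathlib
import Pool.Agent.LT.Final
import Pool.Agent.HGR.Defs
import Pool.Agent.HGR.Cov
import Pool.Agent.HGR.ThmB
import Pool.Agent.HGR.Far

set_option autoImplicit false

/-!
# Project HGR, module FinB: the final form of Theorem B
-/

open scoped BigOperators

namespace Pool.Agent.HGR

open Pool.Agent.LT

theorem fin_B {G : Type} [Group G] (N : Subgroup G) [N.Normal] [Infinite N] (hN : IsAmenable N)
    (C C' : FinRes G) (D : Dual C C') :
    (∀ ε : ℝ, 0 < ε → ∃ (F : Finset G) (δ : ℝ), (1 : G) ∉ F ∧ 0 < δ ∧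
      ∀ (V : Type) [Fintype V] [DecidableEq V] [MulAction G V], FewFix F δ V →
        (∀ p, p ≤ C.d → ∀ cz cb : ℝ, HasCovol (Cyc C V p) cz → HasCovol (Sat (Bdy C V p)) cb →
          |Real.log (cz / cb)| ≤ ε * Fintype.card V) ∧
        |rhoV C V| ≤ ε * Fintype.card V) ∧
    ∀ (V : ℕ → Type) [∀ i, Fintype (V i)] [∀ i, DecidableEq (V i)] [∀ i, MulAction G (V i)],
      IsFarber G V →
      Filter.Tendsto (fun i => rhoV C (V i) / Fintype.card (V i)) Filter.atTop (nhds 0) ∧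
      ∃ (c : ∀ p, Op G (C.n (p + 1)) (C.n p)) (d : ∀ p, Op G (C.n p) (C.n (p + 1)))
        (l : ℕ → ℝ), (∀ p, IsRop' (C.D p) (c p)) ∧ (∀ p, IsAdj (d p) (c p)) ∧
        (∀ p, Function.Injective (lapF c d p)) ∧ (∀ p, HasLogDetF (lapF c d p) (l p)) ∧
        Filter.Tendsto (fun i => rhoV C (V i) / Fintype.card (V i)) Filter.atTop
          (nhds (-(1 / 2 : ℝ) * ∑ p ∈ Finset.range (C.d + 1), (-1 : ℝ) ^ p * p * l p)) := by
  have hB := fun ε hε => thm_B C C' D N hN ε hε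
  refine ⟨fun ε hε => ?_, fun V _ _ _ hV => ?_⟩
  · obtain ⟨F, δ, h1, h2, h3⟩ := hB ε hε
    refine ⟨F, δ, h1, h2, fun V _ _ _ hF => ⟨fun p hp cz cb hz hb => ?_, (h3 V hF).2⟩⟩
    have e1 : cz ≠ 0 := (lt_of_lt_of_le one_pos (one_le_covol hz)).ne'
    have e2 : cb ≠ 0 := (lt_of_lt_of_le one_pos (one_le_covol hb)).ne'
    rw [Real.log_div e1 e2]
    exact (h3 V hF).1 p hp cz cb hz hb
  · have hlim : Filter.Tendsto (fun i => rhoV C (V i) / Fintype.card (V i)) Filter.atTop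
        (nhds 0) := by
      refine farber_limit V hV _ fun ε hε => ?_
      obtain ⟨F, δ, h1, h2, h3⟩ := hB ε hε
      exact ⟨F, δ, h1, h2, fun i hi => (h3 (V i) hi).2⟩
    refine ⟨hlim, ?_⟩
    obtain ⟨c, d, h1, h2, h3, -, l, h4, h5⟩ := lt_final (farber_sofic V hV) N hN C
    refine ⟨c, d, l, h1, h2, h3, h4, ?_⟩
    rw [h5]
    exact hlim

end Pool.Agent.HGR
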